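import Pool.Agent.H98.Tie.Count3

/-!
# The counting theorem for double ties
-/

namespace Pool.Agent.H78.Tie

open Finset
open Pool.Agent.H98.Flat
open Pool.Agent.H67.Flat

set_option linter.unusedVariables false
set_option linter.dupNamespace false

/-- packing with an additional space in the last gap -/
theorem packB {g e : ℤ} (P : ℤ → ℤ) (a : ℤ) (S : Finset ℤ) (b : ℤ)
    (hx : ∀ x ∈ S, P a < P x ∧ P x < P b) (hab : P a < P b)
    (h : ∀ x ∈ insert a (insert b S), ∀ y ∈ insert a (insert b S), P x < P y → P x + g ≤ P y)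
    (hl : ∀ x ∈ insert a S, P x + g + e ≤ P b)
    (hne : ∀ x ∈ S, ∀ y ∈ S, x ≠ y → P x ≠ P y) :
    P a + (S.card + 1) * g + e ≤ P b := by
  rcases S.eq_empty_or_nonempty with h0 | hS0
  · subst h0
    have := hl a (by simp)
    simp only [Finset.card_empty, Nat.cast_zero]
    linarith
  · obtain ⟨m, hm, hmax⟩ := Finset.exists_max_image S P hS0
    have hc : (S.erase m).card + 1 = S.card := Finset.card_erase_add_one hm
    have h1 := pack (g := g) (e := 0) (τ := 0) le_rfl P (fun _ => 0) a (S.erase m).card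
      (S.erase m) m rfl
      (fun x hx' => by
        have h2 := Finset.mem_erase.1 hx'
        refine ⟨(hx x h2.2).1, lt_of_le_of_ne (hmax x h2.2) (hne x h2.2 m hm h2.1)⟩)
      (hx m hm).1
      (fun x hx' y hy' hxy => by
        right
        rw [add_zero]
        apply h x _ y _ hxy
        · simp only [Finset.mem_insert, Finset.mem_erase] at hx' ⊢
          rcases hx' with h2 | h2 | h2
          · left; exact h2
          · right; right; rw [h2]; exact hm
          · right; right; exact h2.2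
        · simp only [Finset.mem_insert, Finset.mem_erase] at hy' ⊢
          rcases hy' with h2 | h2 | h2
          · left; exact h2
          · right; right; rw [h2]; exact hm
          · right; right; exact h2.2)
      (fun x hx' y hy' => hne x (Finset.mem_erase.1 hx').2 y (Finset.mem_erase.1 hy').2)
    have h2 := hl m (by simp [hm])
    have h3 : P a + (((S.erase m).card : ℤ) + 1) * g ≤ P m := by
      rcases h1 with ⟨h3, _⟩ | h3 <;> linarith
    have h4 : ((S.erase m).card : ℤ) + 1 = S.card := by exact_mod_cast hc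
    rw [h4] at h3
    have e1 : ((S.card : ℤ) + 1) * g = S.card * g + g := by ring
    linarith

namespace TAp

variable {A : TAp}

/-- no class except `t` and `t' = q - t` overlaps the rectangle of class `0` -/
def Tie.NoOvD (T : A.Tie) : Prop := ∀ i m f s, A.Cls i m f s → i ≠ T.t → i ≠ A.q - T.t →
  ¬ (-(A.w : ℤ) ≤ m ∧ m < A.w ∧ -(A.h : ℤ) ≤ m + s ∧ m + s < A.h)

/-- sign of a tie class -/
theorem Tie.sgn (T : A.Tie) {y σ : ℤ} (hσ : σ = 1 ∨ σ = -1) (y0 : 0 < y)
    (y1 : y + (A.q * A.w + A.sg) < (A.p : ℤ) * A.q)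
    (h : (A.p : ℤ) * A.q ∣ A.a * T.t - σ * y) : σ = T.ep := by
  by_contra hne
  have h2 := T.tie
  have h3 := dvd_sub h2 h
  have hσ2 : σ = -T.ep := by
    rcases hσ with h4 | h4 <;> rcases T.hep with h5 | h5 <;>
      first
      | exact absurd (h4.trans h5.symm) hne
      | (rw [h4, h5]; try norm_num)
  rw [hσ2, show A.a * T.t - T.ep * (A.q * A.w + A.sg) - (A.a * T.t - -T.ep * y)
    = -(T.ep * (A.q * A.w + A.sg + y)) by ring, dvd_neg] at h3
  have h4 : (A.p : ℤ) * A.q ∣ A.q * A.w + A.sg + y := by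
    rcases T.hep with h5 | h5 <;> rw [h5] at h3
    · rwa [one_mul] at h3
    · rwa [neg_one_mul, dvd_neg] at h3
  have hq := A.q_pos'
  have hw := A.hw
  have q2 : (4 : ℤ) < A.q := by
    have : (A.p : ℤ) < A.q := by exact_mod_cast A.pq
    have := A.w2
    omega
  have h5 : (A.q : ℤ) * 2 ≤ A.q * A.w := mul_le_mul_of_nonneg_left (by omega) hq.le
  have := A.hsg
  exact SC.ndvd (by omega) (by omega) h4

/-- left contacts are partners -/
theorem Tie.touchD (T T' : A.Tie) (ht : T'.t = A.q - T.t) (hep : T'.ep = -T.ep) (hn : T.NoOvD)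
    {a k v : ℤ}
    (hk : (A.cfg 0).hor k ((A.cfg 0).U a - A.k0) = 1) (kv : (A.cfg 0).ver k v = 1)
    (av : (A.cfg 0).ver a v = 1) :
    A.ix a - A.ix k = T.ep * T.t ∨ A.ix a - A.ix k = T'.ep * T'.t := by
  have hN := (A.cfg 0).N_pos
  have hq := A.q_pos'
  have hp := A.p_pos'
  have hW : (A.cfg 0).W = A.q * A.w := rfl
  have hH : (A.cfg 0).H = A.q * A.h := rfl
  have hNe : (A.cfg 0).N = (A.p : ℤ) * A.q := rfl
  have t0 := T.t0
  have w2 : 2 * (A.w : ℤ) + 1 ≤ A.p := by have := A.w2; omega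
  have hw := A.hw
  have b1 : 2 * (A.q * (A.w : ℤ)) + A.q ≤ A.p * A.q := by nlinarith
  have q2 : (4 : ℤ) < A.q := by
    have : (A.p : ℤ) < A.q := by exact_mod_cast A.pq
    omega
  have i0 := A.ix_nonneg a
  have i1 := A.ix_lt a
  have k0' := A.ix_nonneg k
  have k1' := A.ix_lt k
  -- the offset
  have r1 : ((A.cfg 0).U a - A.k0 - (A.cfg 0).U k) % (A.cfg 0).N < (A.cfg 0).W :=
    ph_eq_one_iff.1 hk
  have r0 := Int.emod_nonneg ((A.cfg 0).U a - A.k0 - (A.cfg 0).U k) hN.ne'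
  have re := Int.emod_add_mul_ediv ((A.cfg 0).U a - A.k0 - (A.cfg 0).U k) (A.cfg 0).N
  set r := ((A.cfg 0).U a - A.k0 - (A.cfg 0).U k) % (A.cfg 0).N with hr
  set z := ((A.cfg 0).U a - A.k0 - (A.cfg 0).U k) / (A.cfg 0).N
  rw [hW] at r1
  have hk0 := A.k0_cases
  have d1 : (A.p : ℤ) * A.q ∣ ((A.cfg 0).U a - (A.cfg 0).U k) - (r + A.k0) :=
    ⟨z, by rw [hNe] at re; linear_combination -re⟩
  have hyb : r + A.k0 < A.q * A.w → (0 < r + A.k0 ∧
      r + A.k0 + (A.q * A.w + A.sg) < (A.p : ℤ) * A.q) := by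
    intro _
    rcases hk0 with ⟨h5, h6⟩ | ⟨h5, h6⟩ <;> constructor <;> omega
  by_cases hr2 : r + A.k0 < A.q * A.w
  · -- overlap
    obtain ⟨y0, y1⟩ := hyb hr2
    obtain ⟨δv, d5, d6, d7, -⟩ := ph_diff av kv hN
    rw [sub_sub_sub_cancel_right] at d5
    rw [hH] at d6 d7
    rcases lt_trichotomy (A.ix k) (A.ix a) with h | h | h
    · obtain ⟨m, f, s, hc, c1, c2, c3, c4, c5⟩ := cls_of (A := A) d1 d5 h
        (by rcases hk0 with ⟨h5, h6⟩ | ⟨h5, h6⟩ <;> omega) hr2 (by omega) d7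
      have htt : A.ix a - A.ix k = T.t ∨ A.ix a - A.ix k = T'.t := by
        by_contra hne
        push Not at hne
        exact hn _ m f s hc hne.1 (by rw [← ht]; exact hne.2) ⟨c1, c2, c3, c4⟩
      rcases htt with h1 | h1
      · left
        have h2 : (1 : ℤ) = T.ep := by
          apply T.sgn (Or.inl rfl) y0 y1
          rw [A.ix_U, A.ix_U, ← mul_sub, h1] at d1
          rwa [one_mul]
        rw [← h2, one_mul]; exact h1
      · right
        have h2 : (1 : ℤ) = T'.ep := by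
          apply T'.sgn (Or.inl rfl) y0 y1
          rw [A.ix_U, A.ix_U, ← mul_sub, h1] at d1
          rwa [one_mul]
        rw [← h2, one_mul]; exact h1
    · exfalso
      have h1 := ix_inj h
      have h2 := (A.cfg 0).U_congr h1
      have h3 := dvd_add d1 h2
      rw [show (A.cfg 0).U a - (A.cfg 0).U k - (r + A.k0) + ((A.cfg 0).U k - (A.cfg 0).U a)
        = -(r + A.k0) by ring, dvd_neg] at h3
      refine SC.ndvd ?_ ?_ h3 <;> rcases hk0 with ⟨h5, h6⟩ | ⟨h5, h6⟩ <;> omega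
    · have d1' : (A.p : ℤ) * A.q ∣ ((A.cfg 0).U k - (A.cfg 0).U a) - -(r + A.k0) := by
        have := (dvd_neg).2 d1
        rwa [show -((A.cfg 0).U a - (A.cfg 0).U k - (r + A.k0))
          = (A.cfg 0).U k - (A.cfg 0).U a - -(r + A.k0) by ring] at this
      have d5' : (A.p : ℤ) * A.q ∣ ((A.cfg 0).V k - (A.cfg 0).V a) - -δv := by
        have := (dvd_neg).2 d5
        rwa [show -((A.cfg 0).V a - (A.cfg 0).V k - δv)
          = (A.cfg 0).V k - (A.cfg 0).V a - -δv by ring] at this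
      obtain ⟨m, f, s, hc, c1, c2, c3, c4, c5⟩ := cls_of (A := A) d1' d5' h
        (by omega) (by rcases hk0 with ⟨h5, h6⟩ | ⟨h5, h6⟩ <;> omega) (by omega) (by omega)
      have htt : A.ix k - A.ix a = T.t ∨ A.ix k - A.ix a = T'.t := by
        by_contra hne
        push Not at hne
        exact hn _ m f s hc hne.1 (by rw [← ht]; exact hne.2) ⟨c1, c2, c3, c4⟩
      rcases htt with h1 | h1
      · left
        have h2 : (-1 : ℤ) = T.ep := by
          apply T.sgn (Or.inr rfl) y0 y1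
          rw [A.ix_U, A.ix_U, ← mul_sub, h1] at d1'
          rwa [neg_one_mul]
        rw [← h2, neg_one_mul]; omega
      · right
        have h2 : (-1 : ℤ) = T'.ep := by
          apply T'.sgn (Or.inr rfl) y0 y1
          rw [A.ix_U, A.ix_U, ← mul_sub, h1] at d1'
          rwa [neg_one_mul]
        rw [← h2, neg_one_mul]; omega
  · -- the walls touch
    have hne : r + A.k0 ≠ A.q * A.w := by
      intro h
      apply (A.cfg_gen 0).UW a k
      rw [h] at d1
      rwa [hNe, hW, show (A.cfg 0).U a - ((A.cfg 0).U k + A.q * (A.w : ℤ))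
        = (A.cfg 0).U a - (A.cfg 0).U k - A.q * A.w by ring]
    have h1 : A.sg = 1 ∧ A.k0 = 2 ∧ r + A.k0 = A.q * A.w + 1 := by
      rcases hk0 with ⟨h5, h6⟩ | ⟨h5, h6⟩
      · exact ⟨h5, h6, by omega⟩
      · exfalso; omega
    obtain ⟨h5, h6, h7⟩ := h1
    have hpart : (A.p : ℤ) * A.q ∣ A.a * (A.ix a - A.ix k) - (A.q * A.w + A.sg) := by
      rw [h7, A.ix_U, A.ix_U] at d1
      rwa [h5, mul_sub]
    rcases T.partner hpart (by rw [abs_le]; constructor <;> omega) with h | h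
    · left; omega
    · right
      rw [ht, hep, h]
      ring

/-- gap between two rectangles which share a row -/
theorem Tie.gapD (T T' : A.Tie) (ht : T'.t = A.q - T.t) (hep : T'.ep = -T.ep) (hn : T.NoOvD)
    {s s' δ : ℤ}
    (hd : (A.cfg 0).N ∣ (A.cfg 0).U s - (A.cfg 0).U s' - δ) (d0 : 0 < δ)
    (hv : δ ≤ A.q * A.w + A.sg → -(A.q * (A.h : ℤ)) < δ + A.q * (s - s') ∧
      δ + A.q * (s - s') < A.q * A.h) :
    (δ = A.q * A.w + A.sg ∧
      (A.ix s - A.ix s' = T.ep * T.t ∨ A.ix s - A.ix s' = T'.ep * T'.t)) ∨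
      A.q * A.w + A.sg + A.p ≤ δ := by
  have hp := A.p_pos'
  have hq := A.q_pos'
  have hN := (A.cfg 0).N_pos
  have pδ : (A.p : ℤ) ∣ δ := by
    have h1 := (A.p_N 0).trans hd
    have h2 := dvd_sub (A.U_dvd 0 s) (A.U_dvd 0 s')
    have := dvd_sub h2 h1
    rwa [sub_sub_cancel] at this
  have δp : (A.p : ℤ) ≤ δ := Int.le_of_dvd d0 pδ
  by_cases hle : δ ≤ A.q * A.w + A.sg
  swap
  · right
    have := dvd_sub pδ A.hpw
    have := Int.le_of_dvd (by omega) this
    omega
  left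
  obtain ⟨v0, v1⟩ := hv hle
  have w2 := A.w2
  have hw := A.hw
  have hk := A.k0_cases
  have hWl := (A.cfg 0).W_lt
  have hHl := (A.cfg 0).H_lt
  have hW : (A.cfg 0).W = A.q * A.w := rfl
  have hH : (A.cfg 0).H = A.q * A.h := rfl
  have hor' : (A.cfg 0).hor s' ((A.cfg 0).U s - A.k0) = 1 := by
    unfold Cfg.hor
    rw [ph_at (t := δ - A.k0) (by
      rwa [show (A.cfg 0).U s - A.k0 - ((A.cfg 0).U s' + (δ - A.k0))
        = (A.cfg 0).U s - (A.cfg 0).U s' - δ by ring]) (by omega) (by omega), if_pos (by omega)]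
  set ε := δ + A.q * (s - s') with hε
  have hVs : (A.cfg 0).N ∣ (A.cfg 0).V s - (A.cfg 0).V s' - ε := by
    rwa [show (A.cfg 0).V s - (A.cfg 0).V s' - ε = (A.cfg 0).U s - (A.cfg 0).U s' - δ by
      show (A.cfg 0).U s + A.q * s - ((A.cfg 0).U s' + A.q * s') - ε = _
      rw [hε]; ring]
  obtain ⟨μ, hμ⟩ : ∃ μ, μ = min ε 0 := ⟨_, rfl⟩
  have kv : (A.cfg 0).ver s' ((A.cfg 0).V s' - 1 + μ) = 1 := by
    unfold Cfg.ver
    rw [ph_at (t := (A.cfg 0).H - 1 + μ) (by
      rw [show (A.cfg 0).V s' - 1 + μ - ((A.cfg 0).V s' - (A.cfg 0).H + ((A.cfg 0).H - 1 + μ)) = 0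
        by ring]; exact dvd_zero _) (by omega) (by omega), if_pos (by omega)]
  have av : (A.cfg 0).ver s ((A.cfg 0).V s' - 1 + μ) = 1 := by
    unfold Cfg.ver
    rw [ph_at (t := (A.cfg 0).H - 1 + μ - ε) (by
      have := (dvd_neg).2 hVs
      rwa [show (A.cfg 0).V s' - 1 + μ - ((A.cfg 0).V s - (A.cfg 0).H
        + ((A.cfg 0).H - 1 + μ - ε)) = -((A.cfg 0).V s - (A.cfg 0).V s' - ε) by ring])
      (by omega) (by omega), if_pos (by omega)]
  have htt := T.touchD T' ht hep hn hor' kv av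
  refine ⟨?_, htt⟩
  have h2 : (A.cfg 0).N ∣ δ - (A.q * A.w + A.sg) := by
    obtain ⟨z2, hz2⟩ := hd
    rw [A.ix_U, A.ix_U] at hz2
    have hNe : (A.cfg 0).N = (A.p : ℤ) * A.q := rfl
    rw [hNe] at hz2 ⊢
    rcases htt with h | h
    · obtain ⟨z1, hz1⟩ := T.tie
      have e2 : T.ep * T.ep = 1 := by rcases T.hep with h | h <;> rw [h] <;> norm_num
      exact ⟨T.ep * z1 - z2, by
        linear_combination T.ep * hz1 - hz2 + A.a * h + (A.q * A.w + A.sg) * e2⟩
    · obtain ⟨z1, hz1⟩ := T'.tie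
      have e2 : T'.ep * T'.ep = 1 := by rcases T'.hep with h | h <;> rw [h] <;> norm_num
      exact ⟨T'.ep * z1 - z2, by
        linear_combination T'.ep * hz1 - hz2 + A.a * h + (A.q * A.w + A.sg) * e2⟩
  have h3 : δ - (A.q * A.w + A.sg) = 0 := by
    apply Int.eq_zero_of_abs_lt_dvd h2
    rw [abs_lt]
    constructor
    · have := A.hsg
      omega
    · omega
  omega

/-- the configuration is disjoint up to invisible columns -/
theorem dj_auxD (T T' : A.Tie) (ht : T'.t = A.q - T.t) (hn : T.NoOvD) {k j u v : ℤ}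
    (hlt : A.ix j < A.ix k)
    (hk : (A.cfg 0).In k u v) (hj : (A.cfg 0).In j u v) : A.sg = -1 ∧ (A.p : ℤ) ∣ u := by
  have hN := (A.cfg 0).N_pos
  have hq := A.q_pos'
  have hp := A.p_pos'
  have hW : (A.cfg 0).W = A.q * A.w := rfl
  have hH : (A.cfg 0).H = A.q * A.h := rfl
  have hNe : (A.cfg 0).N = (A.p : ℤ) * A.q := rfl
  obtain ⟨δu, d1, d2, d3, d4⟩ := ph_diff hk.1 hj.1 hN
  obtain ⟨δv, d5, d6, d7, d8⟩ := ph_diff hk.2 hj.2 hN
  rw [sub_sub_sub_cancel_right] at d5
  rw [hW] at d2 d3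
  rw [hH] at d6 d7
  obtain ⟨m, f, s, hc, c1, c2, c3, c4, c5⟩ := cls_of (A := A) d1 d5 hlt (by omega) d3 (by omega) d7
  have htt : ∃ S : A.Tie, A.ix k - A.ix j = S.t := by
    by_contra hne
    push Not at hne
    exact hn _ m f s hc (hne T) (by rw [← ht]; exact hne T') ⟨c1, c2, c3, c4⟩
  obtain ⟨S, hS⟩ := htt
  -- the tie
  have h1 : (A.p : ℤ) * A.q ∣ δu - S.ep * (A.q * A.w + A.sg) := by
    have h2 := S.tie
    rw [hNe, A.ix_U, A.ix_U, ← mul_sub, hS] at d1
    have := dvd_sub h2 d1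
    rwa [show A.a * S.t - S.ep * (A.q * A.w + A.sg) - (A.a * S.t - δu)
      = δu - S.ep * (A.q * A.w + A.sg) by ring] at this
  have w2 : 2 * (A.w : ℤ) + 1 ≤ A.p := by have := A.w2; omega
  have hw := A.hw
  have b1 : 2 * (A.q * (A.w : ℤ)) + A.q ≤ A.p * A.q := by nlinarith
  have q2 : (2 : ℤ) < A.q := by
    have : (A.p : ℤ) < A.q := by exact_mod_cast A.pq
    omega
  have hsg := A.hsg
  have h0 : δu - S.ep * (A.q * A.w + A.sg) = 0 := by
    obtain ⟨z, hz⟩ := h1
    have z1 : -1 < z := by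
      by_contra hc
      have : (A.p : ℤ) * A.q * z ≤ A.p * A.q * (-1) :=
        mul_le_mul_of_nonneg_left (by omega) (by positivity)
      rcases S.hep with h | h <;> rw [h] at hz <;> omega
    have z2 : z < 1 := by
      by_contra hc
      have : (A.p : ℤ) * A.q * 1 ≤ A.p * A.q * z :=
        mul_le_mul_of_nonneg_left (by omega) (by positivity)
      rcases S.hep with h | h <;> rw [h] at hz <;> omega
    rw [hz, show z = 0 by omega, mul_zero]
  have a0 := Int.emod_nonneg (u - (A.cfg 0).U k) hN.ne'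
  have b0 := Int.emod_nonneg (u - (A.cfg 0).U j) hN.ne'
  have a1 := ph_eq_one_iff.1 hk.1
  have b1 := ph_eq_one_iff.1 hj.1
  rw [hW] at a1 b1
  have hsg1 : A.sg = -1 := by
    rcases hsg with h | h
    · exfalso
      rw [h] at h0
      rcases S.hep with h' | h' <;> rw [h'] at h0 <;> omega
    · exact h
  refine ⟨hsg1, ?_⟩
  rw [hsg1] at h0
  rcases S.hep with h' | h' <;> rw [h'] at h0
  · -- `u = U k`
    have h2 : (u - (A.cfg 0).U k) % (A.cfg 0).N = 0 := by omega
    have h3 := (A.p_N 0).trans (Int.dvd_of_emod_eq_zero h2)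
    have := dvd_add h3 (A.U_dvd 0 k)
    rwa [sub_add_cancel] at this
  · have h2 : (u - (A.cfg 0).U j) % (A.cfg 0).N = 0 := by omega
    have h3 := (A.p_N 0).trans (Int.dvd_of_emod_eq_zero h2)
    have := dvd_add h3 (A.U_dvd 0 j)
    rwa [sub_add_cancel] at this

theorem Tie.scD (T T' : A.Tie) (ht : T'.t = A.q - T.t) (hn : T.NoOvD) : SC (A.cfg 0) A.sg where
  G := A.cfg_gen 0
  hsg := A.hsg
  q3 := by
    change 3 ≤ A.q
    have := A.pq; have := A.w2; have := A.hw; omega
  hw := A.hw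
  hh := A.hh
  w2 := A.w2
  h2 := A.h2
  res := A.U_dvd 0
  dj := by
    intro k j u v hkj hk hj
    rcases lt_trichotomy (A.ix k) (A.ix j) with h | h | h
    · exact dj_auxD T T' ht hn h hj hk
    · exact absurd (ix_inj h) hkj
    · exact dj_auxD T T' ht hn h hk hj

end TAp

namespace TAp

variable {A : TAp}

/-- additional space to the left of a rectangle without left partner -/
def fr (A : TAp) (t : ℤ) (n : ℤ) : ℤ := if A.p + t - A.q ≤ n ∧ n < t then A.p else 0

/-- the hypotheses of the counting theorem -/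
structure CG (A : TAp) (t : ℤ) : Prop where
  fl : A.Fl
  sc : SC (A.cfg 0) A.sg
  gap : ∀ s s' δ : ℤ, (A.cfg 0).N ∣ (A.cfg 0).U s - (A.cfg 0).U s' - δ → 0 < δ →
    (δ ≤ A.q * A.w + A.sg → -(A.q * (A.h : ℤ)) < δ + A.q * (s - s') ∧
      δ + A.q * (s - s') < A.q * A.h) → A.q * A.w + A.sg + A.fr t (A.ix s) ≤ δ
  hwh : (A.w : ℤ) < A.h
  l0 : ∀ k, 0 < A.lmk k
  l1 : ∀ k, A.lmk k < A.q * A.h

theorem fr0 (A : TAp) (t n : ℤ) : 0 ≤ A.fr t n := by
  unfold fr; split_ifs <;> positivity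

namespace CG

open C3 (lo lo01 us vs us_vis us_n1)

variable {t : ℤ}

theorem gap' (c : CG A t) (s s' δ : ℤ) (hd : (A.cfg 0).N ∣ (A.cfg 0).U s - (A.cfg 0).U s' - δ)
    (d0 : 0 < δ) (hv : δ ≤ A.q * A.w + A.sg → -(A.q * (A.h : ℤ)) < δ + A.q * (s - s') ∧
      δ + A.q * (s - s') < A.q * A.h) : A.q * A.w + A.sg ≤ δ := by
  have := c.gap s s' δ hd d0 hv
  have := A.fr0 t (A.ix s)
  linarith

theorem l2 (c : CG A t) (k : ℤ) : A.lmk k < (A.p : ℤ) * A.q := by
  have := c.l1 k
  have h2 : (A.h : ℤ) ≤ A.p := by have := A.h2; omega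
  have := mul_le_mul_of_nonneg_left h2 A.q_pos'.le
  have e : (A.p : ℤ) * A.q = A.q * A.p := mul_comm _ _
  omega

theorem lp (c : CG A t) (k : ℤ) : (A.p : ℤ) ∣ A.lmk k := by
  have h1 := (dvd_mul_right (A.p : ℤ) A.q).trans (A.lmk_cong k)
  have h2 := dvd_sub (A.U_dvd 0 k) (A.U_dvd 0 (k + A.h))
  have := dvd_sub h2 h1
  rwa [sub_sub_cancel] at this

theorem ell (c : CG A t) (k : ℤ) : (A.cfg 0).ell k = (A.cfg 0).N - A.lmk k := by
  have hN := (A.cfg 0).N_pos
  have hNe : (A.cfg 0).N = (A.p : ℤ) * A.q := rfl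
  have := c.l0 k; have := c.l2 k
  unfold Cfg.ell
  rw [emod_congr (b := (A.cfg 0).N - A.lmk k), Int.emod_eq_of_lt (by omega) (by omega)]
  obtain ⟨z, hz⟩ := A.lmk_cong k
  have hhe : (((A.cfg 0).h : ℕ) : ℤ) = A.h := rfl
  rw [hhe, hNe]
  exact ⟨-z - 1, by linear_combination -hz⟩

theorem vdiff (c : CG A t) (k : ℤ) :
    ((A.cfg 0).V (k + (A.cfg 0).h) - (A.cfg 0).V k) % (A.cfg 0).N = A.q * A.h - A.lmk k := by
  have hN := (A.cfg 0).N_pos
  have hNe : (A.cfg 0).N = (A.p : ℤ) * A.q := rfl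
  have hHl := (A.cfg 0).H_lt
  have hH : (A.cfg 0).H = A.q * A.h := rfl
  have := c.l0 k; have := c.l1 k
  rw [emod_congr (b := A.q * A.h - A.lmk k), Int.emod_eq_of_lt (by omega) (by omega)]
  obtain ⟨z, hz⟩ := A.lmk_cong k
  have hhe : (((A.cfg 0).h : ℕ) : ℤ) = A.h := rfl
  rw [hhe, hNe]
  refine ⟨-z, ?_⟩
  show (A.cfg 0).U (k + A.h) + A.q * (k + A.h) - ((A.cfg 0).U k + A.q * k) - _ = _
  linear_combination -hz

theorem f_eq (c : CG A t) (Y v : ℤ) :
    (A.cfg 0).f Y v = A.w - ∑ i ∈ range A.w, lo A (Y + i) v := by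
  have hN := (A.cfg 0).N_pos
  have hNe : (A.cfg 0).N = (A.p : ℤ) * A.q := rfl
  unfold Cfg.f
  have e : ∀ i ∈ range (A.cfg 0).w, ph (A.cfg 0).N ((A.cfg 0).V (Y + i)) ((A.cfg 0).ell (Y + i)) v
      = 1 - lo A (Y + i) v := by
    intro i _
    rw [c.ell]
    exact ph_compl hN (c.l0 _).le (by rw [hNe]; exact (c.l2 _).le)
  rw [Finset.sum_congr rfl e, Finset.sum_sub_distrib, Finset.sum_const, Finset.card_range,
    nsmul_eq_mul, mul_one]
  rfl

/-- rectangle `s` covers its crossing with the level -/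
theorem s_in (c : CG A t) {Y s : ℤ} (s0 : Y + A.w ≤ s) (s1 : s < Y + A.h) :
    (A.cfg 0).In s (us A s) (vs A Y s) := by
  have hp := A.p_pos'
  have hq := A.q_pos'
  have hpq : (A.p : ℤ) < A.q := by exact_mod_cast A.pq
  have w2 := A.w2
  have hw := A.hw
  have hk := A.k0_cases
  have hWl := (A.cfg 0).W_lt
  have hHl := (A.cfg 0).H_lt
  have hW : (A.cfg 0).W = A.q * A.w := rfl
  have hH : (A.cfg 0).H = A.q * A.h := rfl
  have h1 : (A.q : ℤ) * 2 ≤ A.q * A.w := mul_le_mul_of_nonneg_left (by omega) hq.le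
  have h2 : (A.q : ℤ) * (Y + 2) ≤ A.q * s := mul_le_mul_of_nonneg_left (by omega) hq.le
  have h3 : (A.q : ℤ) * (s + 1) ≤ A.q * (Y + A.h) := mul_le_mul_of_nonneg_left (by omega) hq.le
  rw [mul_add] at h2 h3
  rw [mul_add] at h3
  constructor
  · unfold Cfg.hor us
    rw [ph_at (t := A.p - A.k0) (by
      rw [show (A.cfg 0).U s + A.p - A.k0 - ((A.cfg 0).U s + (A.p - A.k0)) = 0 by ring]
      exact dvd_zero _) (by omega) (by omega), if_pos (by omega)]
  · unfold Cfg.ver vs us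
    rw [ph_at (t := A.p - A.k0 + A.q * Y - A.q * s + A.q * A.h) (by
      show _ ∣ (A.cfg 0).U s + A.p - A.k0 + A.q * Y - ((A.cfg 0).U s + A.q * s - A.q * A.h
        + (A.p - A.k0 + A.q * Y - A.q * s + A.q * A.h))
      rw [show (A.cfg 0).U s + A.p - A.k0 + A.q * Y - ((A.cfg 0).U s + A.q * s - A.q * A.h
        + (A.p - A.k0 + A.q * Y - A.q * s + A.q * A.h)) = 0 by ring]
      exact dvd_zero _) (by omega) (by omega), if_pos (by omega)]

theorem g_eq (c : CG A t) {Y s : ℤ} (s0 : Y + A.w ≤ s) (s1 : s < Y + A.h) :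
    (A.cfg 0).g Y (us A s) = 1 + (A.cfg 0).f Y (vs A Y s) := by
  have h1 := (A.cfg 0).gid_top Y (vs A Y s)
  have e : vs A Y s - ((A.cfg 0).q : ℤ) * Y = us A s := by
    show us A s + A.q * Y - A.q * Y = us A s
    ring
  rw [e] at h1
  have S := c.sc
  have h2 := S.visR (v := vs A Y s) (us_n1 A s)
  have h3 := (A.cfg 0).R_pos_of_In (c.s_in s0 s1)
  omega

theorem W2 (c : CG A t) : A.q * (A.w : ℤ) + A.sg + A.q - 1 ≤ A.q * A.h ∧
    0 < A.q * (A.w : ℤ) + A.sg := by
  have hq := A.q_pos'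
  have hpq : (A.p : ℤ) < A.q := by exact_mod_cast A.pq
  have w2 := A.w2
  have hw := A.hw
  have h1 : (A.q : ℤ) * (A.w + 1) ≤ A.q * A.h :=
    mul_le_mul_of_nonneg_left (by have := c.hwh; omega) hq.le
  have h2 : (A.q : ℤ) * 2 ≤ A.q * A.w := mul_le_mul_of_nonneg_left (by omega) hq.le
  rw [mul_add, mul_one] at h1
  rcases A.hsg with h | h <;> rw [h] <;> constructor <;> omega

/-- position of a low crossing -/
theorem low_pos (c : CG A t) {Y k s : ℤ} (k0 : Y ≤ k) (k1 : k < Y + A.w) (s0 : Y + A.w ≤ s)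
    (s1 : s < Y + A.h) (hl : lo A k (vs A Y s) = 1) :
    ∃ x, (A.p : ℤ) * A.q ∣ (A.cfg 0).U k - (A.cfg 0).U s - x ∧ A.q * A.w + A.sg ≤ x ∧
      x ≤ A.lmk k - (A.q * A.w + A.sg) := by
  have hp := A.p_pos'
  have hq := A.q_pos'
  have hN := (A.cfg 0).N_pos
  have hNe : (A.cfg 0).N = (A.p : ℤ) * A.q := rfl
  have hpq : (A.p : ℤ) < A.q := by exact_mod_cast A.pq
  have w2 := A.w2
  have h2 := A.h2
  have hw := A.hw
  have hk := A.k0_cases
  have hwh := c.hwh
  have G := A.cfg_gen 0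
  obtain ⟨W2a, W2b⟩ := c.W2
  unfold lo at hl
  rw [ph_eq_one_iff] at hl
  have e0 := Int.emod_nonneg (vs A Y s - ((A.cfg 0).V k - A.lmk k)) hN.ne'
  have ee := Int.emod_add_mul_ediv (vs A Y s - ((A.cfg 0).V k - A.lmk k)) (A.cfg 0).N
  set e := (vs A Y s - ((A.cfg 0).V k - A.lmk k)) % (A.cfg 0).N
  set z := (vs A Y s - ((A.cfg 0).V k - A.lmk k)) / (A.cfg 0).N
  have hVk : (A.cfg 0).V k = (A.cfg 0).U k + A.q * k := rfl
  rw [hVk, hNe] at ee
  unfold vs us at ee
  obtain ⟨x, hx⟩ : ∃ x, x = A.lmk k + A.p - A.k0 - A.q * (k - Y) - e := ⟨_, rfl⟩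
  have hd : (A.p : ℤ) * A.q ∣ (A.cfg 0).U k - (A.cfg 0).U s - x :=
    ⟨-z, by rw [hx]; linear_combination ee⟩
  have px : (A.p : ℤ) ∣ x := by
    have h1 := (dvd_mul_right (A.p : ℤ) A.q).trans hd
    have h2 := dvd_sub (A.U_dvd 0 k) (A.U_dvd 0 s)
    have := dvd_sub h2 h1
    rwa [sub_sub_cancel] at this
  have b1 : (A.q : ℤ) * (k - Y) ≤ A.q * (A.w - 1) := mul_le_mul_of_nonneg_left (by omega) hq.le
  have b2 : 0 ≤ (A.q : ℤ) * (k - Y) := mul_nonneg hq.le (by omega)
  rw [mul_sub (A.q : ℤ) A.w 1, mul_one] at b1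
  -- lower bound
  have x1 : A.q * A.w + A.sg ≤ x := by
    rcases lt_trichotomy x 0 with hlt | heq | hgt
    · exfalso
      have b3 : (A.q : ℤ) * (k - Y) + A.q * (s - k) ≤ A.q * (A.h - 1) := by
        rw [← mul_add]
        exact mul_le_mul_of_nonneg_left (by omega) hq.le
      rw [mul_sub (A.q : ℤ) A.h 1, mul_one] at b3
      have b4 : 0 ≤ (A.q : ℤ) * (s - k) := mul_nonneg hq.le (by omega)
      have := c.gap' (s) (k) (-x) (by
        have := (dvd_neg).2 hd
        rwa [show -((A.cfg 0).U k - (A.cfg 0).U s - x) = (A.cfg 0).U s - (A.cfg 0).U k - -x by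
          ring] at this) (by omega) (fun _ => ⟨by omega, by omega⟩)
      rcases hk with ⟨h3, h4⟩ | ⟨h3, h4⟩ <;> omega
    · exfalso
      rw [heq, sub_zero] at hd
      exact C3.nd (by omega) (by omega) (by omega) (G.UU k s hd)
    · have b3 : (A.q : ℤ) * (k - s) ≤ A.q * (-1) := mul_le_mul_of_nonneg_left (by omega) hq.le
      have b4 : (A.q : ℤ) * (-(A.h - 1)) ≤ A.q * (k - s) :=
        mul_le_mul_of_nonneg_left (by omega) hq.le
      have e4 : (A.q : ℤ) * (-(A.h - 1)) = -(A.q * A.h) + A.q := by ring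
      have := c.gap' (k) (s) (x) hd hgt
        (fun _ => ⟨by omega, by omega⟩)
      omega
  -- upper bound
  have hd2 : (A.p : ℤ) * A.q ∣ (A.cfg 0).U s - (A.cfg 0).U (k + A.h) - (A.lmk k - x) := by
    have := dvd_sub (A.lmk_cong k) hd
    rwa [show (A.cfg 0).U k - (A.cfg 0).U (k + A.h) - A.lmk k
      - ((A.cfg 0).U k - (A.cfg 0).U s - x)
      = (A.cfg 0).U s - (A.cfg 0).U (k + A.h) - (A.lmk k - x) by ring] at this
  have py : (A.p : ℤ) ∣ A.lmk k - x := dvd_sub (c.lp k) px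
  have x2 : A.q * A.w + A.sg ≤ A.lmk k - x := by
    have y0 : -(A.p : ℤ) < A.lmk k - x := by
      rcases hk with ⟨h3, h4⟩ | ⟨h3, h4⟩ <;> omega
    rcases lt_trichotomy (A.lmk k - x) 0 with hlt | heq | hgt
    · exfalso
      exact C3.nd (by omega) y0 (by omega) py
    · exfalso
      rw [heq, sub_zero] at hd2
      exact C3.nd (by omega) (by omega) (by omega) (G.UU s (k + A.h) hd2)
    · have b3 : (A.q : ℤ) * (s - (k + A.h)) ≤ A.q * (-1) :=
        mul_le_mul_of_nonneg_left (by omega) hq.le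
      have b4 : (A.q : ℤ) * (-(A.h - 1)) ≤ A.q * (s - (k + A.h)) :=
        mul_le_mul_of_nonneg_left (by omega) hq.le
      have e4 : (A.q : ℤ) * (-(A.h - 1)) = -(A.q * A.h) + A.q := by ring
      have := c.gap' (s) (k + A.h) (A.lmk k - x) hd2 hgt
        (fun _ => ⟨by omega, by omega⟩)
      omega
  exact ⟨x, hd, x1, by omega⟩

/-- number of low crossings of one arc -/
theorem low_bd (c : CG A t) {Y k : ℤ} (k0 : Y ≤ k) (k1 : k < Y + A.w) (S : Finset ℤ)
    (hS : ∀ s ∈ S, (Y + A.w ≤ s ∧ s < Y + A.h) ∧ lo A k (vs A Y s) = 1) :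
    (A.q * A.w + A.sg) * ((S.card : ℤ) + 1) + A.fr t (A.ix k) ≤ A.lmk k := by
  have hp := A.p_pos'
  have hq := A.q_pos'
  have hN := (A.cfg 0).N_pos
  have hNe : (A.cfg 0).N = (A.p : ℤ) * A.q := rfl
  have hpq : (A.p : ℤ) < A.q := by exact_mod_cast A.pq
  have w2 := A.w2
  have h2 := A.h2
  have hw := A.hw
  have hwh := c.hwh
  have G := A.cfg_gen 0
  have l0 := c.l0 k
  have l1 := c.l1 k
  have l2 := c.l2 k
  obtain ⟨W2a, W2b⟩ := c.W2
  set P : ℤ → ℤ := fun s => -(((A.cfg 0).U k - (A.cfg 0).U s) % ((A.p : ℤ) * A.q)) with hP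
  have Pc : ∀ s, (A.p : ℤ) * A.q ∣ (A.cfg 0).U s - (A.cfg 0).U k - P s := by
    intro s
    have := Int.emod_add_mul_ediv ((A.cfg 0).U k - (A.cfg 0).U s) ((A.p : ℤ) * A.q)
    refine ⟨-(((A.cfg 0).U k - (A.cfg 0).U s) / ((A.p : ℤ) * A.q)), ?_⟩
    simp only [hP]
    linear_combination this
  have Pk : P k = 0 := by simp only [hP]; simp
  have Pa : P (k + A.h) = -A.lmk k := rfl
  have Ps : ∀ s ∈ S, A.q * A.w + A.sg - A.lmk k ≤ P s ∧ P s ≤ -(A.q * A.w + A.sg) := by
    intro s hs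
    obtain ⟨⟨s0, s1⟩, s2⟩ := hS s hs
    obtain ⟨x, x0, x1, x2⟩ := c.low_pos k0 k1 s0 s1 s2
    have : P s = -x := by
      simp only [hP]
      rw [emod_congr x0, Int.emod_eq_of_lt (by omega) (by omega)]
    omega
  have rows : ∀ x ∈ insert (k + A.h) (insert k S), ∀ y ∈ insert (k + A.h) (insert k S),
      P x < P y → -(A.h : ℤ) ≤ y - x ∧ y - x ≤ A.h - A.w - 1 := by
    intro x hx y hy hxy
    simp only [Finset.mem_insert] at hx hy
    rcases hx with rfl | rfl | hx <;> rcases hy with rfl | rfl | hy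
    · omega
    · omega
    · have := hS y hy; omega
    · omega
    · omega
    · have := Ps y hy; omega
    · have := Ps x hx; omega
    · have := hS x hx; omega
    · have := hS x hx; have := hS y hy; omega
  have step : ∀ x ∈ insert (k + A.h) (insert k S), ∀ y ∈ insert (k + A.h) (insert k S),
      P x < P y → P x + (A.q * A.w + A.sg) + A.fr t (A.ix y) ≤ P y := by
    intro x hx y hy hxy
    obtain ⟨r0, r1⟩ := rows x hx y hy hxy
    have b3 : (A.q : ℤ) * (y - x) ≤ A.q * (A.h - A.w - 1) := mul_le_mul_of_nonneg_left r1 hq.le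
    have b4 : (A.q : ℤ) * (-A.h) ≤ A.q * (y - x) := mul_le_mul_of_nonneg_left r0 hq.le
    have e3 : (A.q : ℤ) * (A.h - A.w - 1) = A.q * A.h - A.q * A.w - A.q := by ring
    have e4 : (A.q : ℤ) * (-A.h) = -(A.q * A.h) := by ring
    have := c.gap y x (P y - P x) (by
      have := dvd_sub (Pc y) (Pc x)
      rwa [show (A.cfg 0).U y - (A.cfg 0).U k - P y - ((A.cfg 0).U x - (A.cfg 0).U k - P x)
        = (A.cfg 0).U y - (A.cfg 0).U x - (P y - P x) by ring] at this) (by omega)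
      (fun _ => ⟨by omega, by have := A.hsg; omega⟩)
    linarith
  have main := packB (g := A.q * A.w + A.sg) (e := A.fr t (A.ix k)) P (k + A.h) S k
    (fun x hx => by have := Ps x hx; rw [Pa, Pk]; omega) (by rw [Pa, Pk]; omega)
    (fun x hx y hy hxy => by
      have := step x hx y hy hxy
      have := A.fr0 t (A.ix y)
      linarith)
    (fun x hx => by
      have hx' : x ∈ insert (k + A.h) (insert k S) := by
        simp only [Finset.mem_insert] at hx ⊢
        tauto
      apply step x hx' k (by simp)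
      simp only [Finset.mem_insert] at hx
      rcases hx with rfl | hx
      · rw [Pa, Pk]; omega
      · have := Ps x hx; rw [Pk]; omega)
    (fun x hx y hy hxy h => by
      have h3 := dvd_sub (Pc x) (Pc y)
      rw [h, show (A.cfg 0).U x - (A.cfg 0).U k - P y - ((A.cfg 0).U y - (A.cfg 0).U k - P y)
        = (A.cfg 0).U x - (A.cfg 0).U y by ring] at h3
      have := hS x hx; have := hS y hy
      exact C3.nd (by omega) (by omega) (by omega) (G.UU x y h3))
  rw [Pa, Pk] at main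
  linarith

/-- one rectangle covers the whole low arc over the test column of a high crossing -/
theorem run (c : CG A t) {Y k s : ℤ} (k0 : Y ≤ k) (k1 : k < Y + A.w) (s0 : Y + A.w ≤ s)
    (s1 : s < Y + A.h) (hf : (A.cfg 0).f Y (vs A Y s) = A.w) :
    ∃ i : ℕ, i < A.p ∧ ∀ t : ℕ, (t : ℤ) < A.lmk k →
      (A.cfg 0).In i (us A s) ((A.cfg 0).V k - A.lmk k + t) := by
  have hN := (A.cfg 0).N_pos
  have hNe : (A.cfg 0).N = (A.p : ℤ) * A.q := rfl
  have S := c.sc
  have hg := c.g_eq s0 s1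
  rw [hf] at hg
  have l0 := c.l0 k
  have l2 := c.l2 k
  have R1 : ∀ t : ℕ, (t : ℤ) < A.lmk k →
      1 ≤ (A.cfg 0).R (us A s) ((A.cfg 0).V k - A.lmk k + t) := by
    intro t ht
    have h1 := (abs_le.1 (c.fl.all 0 (us A s) ((A.cfg 0).V k - A.lmk k + t) Y (us_vis A s))).1
    rw [hg, c.f_eq] at h1
    have h2 : (1 : ℤ) ≤ ∑ i ∈ range A.w, lo A (Y + i) ((A.cfg 0).V k - A.lmk k + t) := by
      have h3 : lo A k ((A.cfg 0).V k - A.lmk k + t) = 1 := by
        unfold lo
        rw [ph_at (t := t) (by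
          rw [show (A.cfg 0).V k - A.lmk k + t - ((A.cfg 0).V k - A.lmk k + t) = 0 by ring]
          exact dvd_zero _) (by omega) (by omega), if_pos ht]
      have h4 := Finset.single_le_sum
        (f := fun i : ℕ => lo A (Y + i) ((A.cfg 0).V k - A.lmk k + t))
        (fun i _ => by rcases lo01 A (Y + i) ((A.cfg 0).V k - A.lmk k + t) with h | h <;> omega)
        (Finset.mem_range.2 (show (k - Y).toNat < A.w by omega))
      rw [Int.toNat_of_nonneg (by omega), show Y + (k - Y) = k by ring, h3] at h4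
      exact h4
    omega
  obtain ⟨j, hj⟩ := (A.cfg 0).exists_In (R1 0 (by push_cast; omega))
  obtain ⟨i, hi, hji⟩ := (A.cfg 0).exists_mod j
  refine ⟨i, hi, ?_⟩
  intro t
  induction t with
  | zero =>
    intro _
    exact Cfg.In_congr hji (by simp) (by simp) hj
  | succ t ih =>
    intro ht
    push_cast at ht ⊢
    have h1 := ih (by omega)
    obtain ⟨j', hj'⟩ := (A.cfg 0).exists_In (R1 (t + 1) (by push_cast; omega))
    push_cast at hj'
    rw [← add_assoc] at hj' ⊢
    obtain ⟨x, x1, x2⟩ := Cfg.near_ver S.G h1.2 hj'.2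
    have := S.visEq (us_n1 A s) ⟨hj'.1, x2⟩ ⟨h1.1, x1⟩
    exact Cfg.In_congr this (by simp) (by simp) hj'

theorem off_bd {i : ℤ} {s : ℤ} (h : (A.cfg 0).hor i (us A s) = 1) :
    ∃ o, (A.p : ℤ) * A.q ∣ (A.cfg 0).U s - (A.cfg 0).U i - o ∧ 0 ≤ o ∧
      o + A.p ≤ A.q * A.w + A.sg := by
  have hp := A.p_pos'
  have hN := (A.cfg 0).N_pos
  have hNe : (A.cfg 0).N = (A.p : ℤ) * A.q := rfl
  have hW : (A.cfg 0).W = A.q * A.w := rfl
  have hk := A.k0_cases
  have w2 := A.w2
  have hw := A.hw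
  unfold Cfg.hor at h
  rw [ph_eq_one_iff] at h
  have e0 := Int.emod_nonneg (us A s - (A.cfg 0).U i) hN.ne'
  have ee := Int.emod_add_mul_ediv (us A s - (A.cfg 0).U i) (A.cfg 0).N
  set e := (us A s - (A.cfg 0).U i) % (A.cfg 0).N
  set z := (us A s - (A.cfg 0).U i) / (A.cfg 0).N
  rw [hW] at h
  rw [hNe] at ee
  unfold us at ee
  have hd : (A.p : ℤ) * A.q ∣ (A.cfg 0).U s - (A.cfg 0).U i - (e - A.p + A.k0) :=
    ⟨z, by linear_combination -ee⟩
  have po : (A.p : ℤ) ∣ e - A.p + A.k0 := by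
    have h1 := (dvd_mul_right (A.p : ℤ) A.q).trans hd
    have h2 := dvd_sub (A.U_dvd 0 s) (A.U_dvd 0 i)
    have := dvd_sub h2 h1
    rwa [sub_sub_cancel] at this
  refine ⟨e - A.p + A.k0, hd, ?_, ?_⟩
  · by_contra hc
    exact C3.nd (A := A) (x := e - A.p + A.k0) (by omega)
      (by rcases hk with ⟨h3, h4⟩ | ⟨h3, h4⟩ <;> omega) (by omega) po
  · by_contra hc
    have h5 := dvd_sub po A.hpw
    exact C3.nd (A := A) (x := e + A.k0 - (A.q * A.w + A.sg))
      (by rcases hk with ⟨h3, h4⟩ | ⟨h3, h4⟩ <;> omega)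
      (by rcases hk with ⟨h3, h4⟩ | ⟨h3, h4⟩ <;> omega)
      (by rcases hk with ⟨h3, h4⟩ | ⟨h3, h4⟩ <;> omega) (by
        have := dvd_add h5 (dvd_refl (A.p : ℤ))
        rwa [show e - A.p + A.k0 - (A.q * A.w + A.sg) + A.p
          = e + A.k0 - (A.q * A.w + A.sg) by ring] at this)

/-- number of high crossings -/
theorem high_le (c : CG A t) {Y k : ℤ} (k0 : Y ≤ k) (k1 : k < Y + A.w) (S : Finset ℤ)
    (hS : ∀ s ∈ S, (Y + A.w ≤ s ∧ s < Y + A.h) ∧ (A.cfg 0).f Y (vs A Y s) = A.w) :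
    (S.card : ℤ) ≤ ∑ i ∈ range (A.cfg 0).p, ph (A.cfg 0).N ((A.cfg 0).V k)
      (((A.cfg 0).V (k + (A.cfg 0).h) - (A.cfg 0).V k) % (A.cfg 0).N) ((A.cfg 0).V i) := by
  have hp := A.p_pos'
  have hq := A.q_pos'
  have hN := (A.cfg 0).N_pos
  have hNe : (A.cfg 0).N = (A.p : ℤ) * A.q := rfl
  have hpq : (A.p : ℤ) < A.q := by exact_mod_cast A.pq
  have hH : (A.cfg 0).H = A.q * A.h := rfl
  have hHl := (A.cfg 0).H_lt
  have w2 := A.w2
  have h2 := A.h2
  have hw := A.hw
  have hwh := c.hwh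
  have G := A.cfg_gen 0
  have l0 := c.l0 k
  have l1 := c.l1 k
  have l2 := c.l2 k
  obtain ⟨W2a, W2b⟩ := c.W2
  rw [c.vdiff]
  have h2H : 2 * (A.q * (A.h : ℤ)) ≤ A.p * A.q := by
    have := mul_le_mul_of_nonneg_left (show 2 * (A.h : ℤ) ≤ A.p by omega) hq.le
    have e : (A.q : ℤ) * (2 * A.h) = 2 * (A.q * A.h) := by ring
    have e' : (A.q : ℤ) * A.p = A.p * A.q := by ring
    omega
  have ex : ∀ s : ℤ, ∃ i : ℕ, s ∈ S → (i < A.p ∧ (A.cfg 0).hor i (us A s) = 1 ∧
      ph (A.cfg 0).N ((A.cfg 0).V k) (A.q * A.h - A.lmk k) ((A.cfg 0).V i) = 1) := by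
    intro s
    by_cases hsS : s ∈ S
    swap
    · exact ⟨0, fun h => absurd h hsS⟩
    obtain ⟨⟨s0, s1⟩, s2⟩ := hS s hsS
    obtain ⟨i, hi, hr⟩ := c.run k0 k1 s0 s1 s2
    refine ⟨i, fun _ => ⟨hi, (hr 0 (by push_cast; omega)).1, ?_⟩⟩
    -- offset
    have b1 := (hr 0 (by push_cast; omega)).2
    have b2 := (hr (A.lmk k - 1).toNat (by omega)).2
    rw [Int.toNat_of_nonneg (by omega)] at b2
    unfold Cfg.ver at b1 b2
    rw [ph_eq_one_iff] at b1
    push_cast at b1
    rw [add_zero] at b1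
    have e0 := Int.emod_nonneg ((A.cfg 0).V k - A.lmk k - ((A.cfg 0).V i - (A.cfg 0).H)) hN.ne'
    have ee := Int.emod_add_mul_ediv ((A.cfg 0).V k - A.lmk k - ((A.cfg 0).V i - (A.cfg 0).H))
      (A.cfg 0).N
    set e := ((A.cfg 0).V k - A.lmk k - ((A.cfg 0).V i - (A.cfg 0).H)) % (A.cfg 0).N
    set z := ((A.cfg 0).V k - A.lmk k - ((A.cfg 0).V i - (A.cfg 0).H)) / (A.cfg 0).N
    rw [ph_at (t := e + A.lmk k - 1) ⟨z, by linear_combination -ee⟩ (by omega) (by omega)] at b2
    have b3 : e + A.lmk k - 1 < (A.cfg 0).H := by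
      by_contra hc
      rw [if_neg hc] at b2
      omega
    have e1 : e ≠ 0 := by
      intro he
      rw [he, zero_add] at ee
      -- then `i = k + h`
      have h3 : (A.cfg 0).N ∣ (A.cfg 0).V i - (A.cfg 0).V (k + A.h) := by
        obtain ⟨z1, hz1⟩ := A.lmk_cong k
        rw [hNe] at ee ⊢
        rw [hH] at ee
        refine ⟨-z + z1, ?_⟩
        have e7 : (A.cfg 0).V (k + A.h) = (A.cfg 0).U (k + A.h) + A.q * (k + A.h) := rfl
        have e8 : (A.cfg 0).V k = (A.cfg 0).U k + A.q * k := rfl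
        rw [e7]
        rw [e8] at ee
        linear_combination ee + hz1
      have h4 := G.VV _ _ h3
      have h5 := (hr 0 (by push_cast; omega)).1
      rw [(A.cfg 0).hor_congr h4 (by simp : (A.cfg 0).N ∣ us A s - us A s)] at h5
      obtain ⟨o, o0, o1, o2⟩ := off_bd h5
      rcases o1.eq_or_lt with h6 | h6
      · rw [← h6, sub_zero] at o0
        exact C3.nd (by omega) (by omega) (by omega) (G.UU s (k + A.h) o0)
      · have b3 : (A.q : ℤ) * (s - (k + A.h)) ≤ A.q * (-1) :=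
          mul_le_mul_of_nonneg_left (by omega) hq.le
        have b4 : (A.q : ℤ) * (-(A.h - 1)) ≤ A.q * (s - (k + A.h)) :=
          mul_le_mul_of_nonneg_left (by omega) hq.le
        have e4 : (A.q : ℤ) * (-(A.h - 1)) = -(A.q * A.h) + A.q := by ring
        have := c.gap' (s) (k + A.h) (o) o0 h6
          (fun _ => ⟨by omega, by omega⟩)
        omega
    rw [ph_at (t := A.q * A.h - A.lmk k - e) ⟨-z, by rw [← hH]; linear_combination ee⟩
      (by omega) (by omega), if_pos (by omega)]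
  choose φ hφ using ex
  have card : S.card ≤ ((range (A.cfg 0).p).filter (fun i : ℕ => ph (A.cfg 0).N ((A.cfg 0).V k)
      (A.q * A.h - A.lmk k) ((A.cfg 0).V i) = 1)).card := by
    apply Finset.card_le_card_of_injOn φ
    · intro s hsS
      have := hφ s hsS
      exact Finset.mem_coe.2 (Finset.mem_filter.2 ⟨Finset.mem_range.2 this.1, this.2.2⟩)
    · intro s hsS s' hsS' heq
      by_contra hne
      have h3 := (hφ s hsS).2.1
      have h4 := (hφ s' hsS').2.1
      rw [heq] at h3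
      obtain ⟨o, o0, o1, o2⟩ := off_bd h3
      obtain ⟨o', p0, p1, p2⟩ := off_bd h4
      have r1 := (hS s hsS).1
      have r2 := (hS s' hsS').1
      have key : ∀ a b : ℤ, (Y + A.w ≤ a ∧ a < Y + A.h) → (Y + A.w ≤ b ∧ b < Y + A.h) →
          ∀ x y : ℤ, (A.p : ℤ) * A.q ∣ (A.cfg 0).U a - (A.cfg 0).U (φ s') - x →
          (A.p : ℤ) * A.q ∣ (A.cfg 0).U b - (A.cfg 0).U (φ s') - y → 0 ≤ x →
          y + A.p ≤ A.q * A.w + A.sg → x < y → False := by
        intro a b ra rb x y hx hy x0 y1 hxy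
        have b3 : (A.q : ℤ) * (b - a) ≤ A.q * (A.h - A.w - 1) :=
          mul_le_mul_of_nonneg_left (by omega) hq.le
        have b4 : (A.q : ℤ) * (-(A.h - 1)) ≤ A.q * (b - a) :=
          mul_le_mul_of_nonneg_left (by omega) hq.le
        have e3 : (A.q : ℤ) * (A.h - A.w - 1) = A.q * A.h - A.q * A.w - A.q := by ring
        have e4 : (A.q : ℤ) * (-(A.h - 1)) = -(A.q * A.h) + A.q := by ring
        have := c.gap' (b) (a) (y - x) (by
          have := dvd_sub hy hx
          rwa [show (A.cfg 0).U b - (A.cfg 0).U (φ s') - y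
            - ((A.cfg 0).U a - (A.cfg 0).U (φ s') - x)
            = (A.cfg 0).U b - (A.cfg 0).U a - (y - x) by ring] at this) (by omega)
          (fun _ => ⟨by omega, by have := A.hsg; omega⟩)
        omega
      rcases lt_trichotomy o o' with h5 | h5 | h5
      · exact key s s' r1 r2 o o' o0 p0 o1 p2 h5
      · have h6 := dvd_sub o0 p0
        rw [h5, show (A.cfg 0).U s - (A.cfg 0).U (φ s') - o'
          - ((A.cfg 0).U s' - (A.cfg 0).U (φ s') - o')
          = (A.cfg 0).U s - (A.cfg 0).U s' by ring] at h6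
        exact C3.nd (by omega) (by omega) (by omega) (G.UU s s' h6)
      · exact key s' s r2 r1 o' o p0 o0 p1 o2 h5
  calc (S.card : ℤ) ≤ (((range (A.cfg 0).p).filter (fun i : ℕ => ph (A.cfg 0).N ((A.cfg 0).V k)
      (A.q * A.h - A.lmk k) ((A.cfg 0).V i) = 1)).card : ℤ) := by exact_mod_cast card
    _ = ∑ i ∈ (range (A.cfg 0).p).filter (fun i : ℕ => ph (A.cfg 0).N ((A.cfg 0).V k)
      (A.q * A.h - A.lmk k) ((A.cfg 0).V i) = 1), ph (A.cfg 0).N ((A.cfg 0).V k)
      (A.q * A.h - A.lmk k) ((A.cfg 0).V i) := by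
        rw [Finset.sum_congr rfl (fun i hi => (Finset.mem_filter.1 hi).2), Finset.sum_const,
          nsmul_eq_mul, mul_one]
    _ ≤ _ := Finset.sum_le_sum_of_subset_of_nonneg (Finset.filter_subset _ _)
        (fun _ _ _ => ph_nonneg _ _ _ _)

/-- the rows without left partner -/
theorem sum_fr (A : TAp) (hpq : A.q < 2 * A.p) (ht : t < A.p) (ht' : A.q - t < A.p) :
    ∑ k ∈ range A.p, A.fr t (A.ix k) = A.p * (A.q - A.p) := by
  have hp := A.p_pos'
  have h1 : ∑ k ∈ range A.p, A.fr t (A.ix k) = ∑ n ∈ range A.p, A.fr t n := by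
    refine Finset.sum_bij (fun (k : ℕ) _ => (A.ix k).toNat) ?_ ?_ ?_ ?_
    · intro k _
      have := A.ix_nonneg k
      have := A.ix_lt k
      exact Finset.mem_range.2 (by omega)
    · intro k hk j hj h
      have hk := Finset.mem_range.1 hk
      have hj := Finset.mem_range.1 hj
      have := A.ix_nonneg k
      have := A.ix_nonneg j
      have h2 : A.ix k = A.ix j := by
        have h : (A.ix k).toNat = (A.ix j).toNat := h
        omega
      have h3 := ix_inj h2
      have h4 : (k : ℤ) - j = 0 := by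
        apply Int.eq_zero_of_abs_lt_dvd h3
        rw [abs_lt]; constructor <;> omega
      omega
    · intro n hn
      have hn := Finset.mem_range.1 hn
      have r0 := Int.emod_nonneg (A.e * (n : ℤ)) hp.ne'
      have r1 := Int.emod_lt_of_pos (A.e * (n : ℤ)) hp
      have re := Int.emod_add_mul_ediv (A.e * (n : ℤ)) A.p
      refine ⟨((A.e * (n : ℤ)) % A.p).toNat, Finset.mem_range.2 (by omega), ?_⟩
      rw [Int.toNat_of_nonneg r0]
      have := ix_of (A := A) (i := n) (s := (A.e * (n : ℤ)) % A.p) (by omega) (by omega)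
        ⟨(A.e * (n : ℤ)) / A.p, by linear_combination -re⟩
      rw [this]; simp
    · intro k _
      rw [Int.toNat_of_nonneg (A.ix_nonneg k)]
  rw [h1]
  unfold fr
  rw [Finset.sum_ite, Finset.sum_const_zero, add_zero, Finset.sum_const, nsmul_eq_mul, mul_comm]
  congr 1
  have h2 : ((range A.p).filter (fun n : ℕ => (A.p : ℤ) + t - A.q ≤ n ∧ (n : ℤ) < t)).card
      = (A.q - A.p : ℤ).toNat := by
    have h3 : ((range A.p).filter (fun n : ℕ => (A.p : ℤ) + t - A.q ≤ n ∧ (n : ℤ) < t))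
        = Finset.Ico (A.p + t - A.q : ℤ).toNat t.toNat := by
      ext n
      simp only [Finset.mem_filter, Finset.mem_range, Finset.mem_Ico]
      omega
    rw [h3, Nat.card_Ico]
    have := A.pq
    omega
  rw [h2, Int.toNat_of_nonneg (by have := A.pq; omega)]

theorem false (c : CG A t) (hpq : A.q < 2 * A.p) (ht : t < A.p) (ht' : A.q - t < A.p) : False := by
  have hp := A.p_pos'
  have hq := A.q_pos'
  have hN := (A.cfg 0).N_pos
  have hw := A.hw
  have hwh := c.hwh
  have pq : (A.p : ℤ) < A.q := by exact_mod_cast A.pq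
  set F : ℤ → ℤ := fun k => ∑ i ∈ range (A.cfg 0).p, ph (A.cfg 0).N ((A.cfg 0).V k)
      (((A.cfg 0).V (k + (A.cfg 0).h) - (A.cfg 0).V k) % (A.cfg 0).N) ((A.cfg 0).V i) with hF
  set G : ℤ → ℤ := fun k => ((A.cfg 0).V (k + (A.cfg 0).h) - (A.cfg 0).V k) % (A.cfg 0).N with hG
  set E : ℤ → ℤ := fun k => A.fr t (A.ix k) with hE
  have hGv : ∀ k, G k = A.q * A.h - A.lmk k := fun k => c.vdiff k
  have pp : ∀ k : ℤ, (A.cfg 0).N ∣ (A.cfg 0).V (k + A.p) - (A.cfg 0).V k := fun k =>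
    (A.cfg 0).V_congr (by rw [add_sub_cancel_left]; exact dvd_refl _)
  have Gper : ∀ k, G (k + A.p) = G k := by
    intro k
    simp only [hG]
    apply emod_congr
    have := dvd_sub (pp (k + (A.cfg 0).h)) (pp k)
    rwa [show (A.cfg 0).V (k + (A.cfg 0).h + A.p) - (A.cfg 0).V (k + (A.cfg 0).h)
      - ((A.cfg 0).V (k + A.p) - (A.cfg 0).V k)
      = (A.cfg 0).V (k + A.p + (A.cfg 0).h) - (A.cfg 0).V (k + A.p)
        - ((A.cfg 0).V (k + (A.cfg 0).h) - (A.cfg 0).V k) by
      rw [show k + (A.cfg 0).h + (A.p : ℤ) = k + A.p + (A.cfg 0).h by ring]; ring] at this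
  have Fper : ∀ k, F (k + A.p) = F k := by
    intro k
    simp only [hF]
    refine Finset.sum_congr rfl fun i _ => ?_
    have h1 := Gper k
    simp only [hG] at h1
    rw [h1]
    apply ph_congr
    have := (dvd_neg).2 (pp k)
    rwa [show (A.cfg 0).V i - (A.cfg 0).V (k + A.p) - ((A.cfg 0).V i - (A.cfg 0).V k)
      = -((A.cfg 0).V (k + A.p) - (A.cfg 0).V k) by ring]
  have Eper : ∀ k, E (k + A.p) = E k := by
    intro k
    simp only [hE]
    congr 1
    unfold ix
    apply emod_congr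
    exact ⟨A.e', by ring⟩
  have total : (A.q : ℤ) * ∑ k ∈ range A.p, F k = ∑ k ∈ range A.p, G k := sum_arcs (A.cfg 0)
  -- one level
  have level : ∀ Y : ℤ, ∑ j ∈ range A.w, G (Y + j) + ∑ j ∈ range A.w, E (Y + j)
      ≤ A.q * ∑ j ∈ range A.w, F (Y + j) + A.h := by
    intro Y
    set Hs : Finset ℤ := (Finset.Ico (Y + A.w) (Y + A.h)).filter
      (fun s => (A.cfg 0).f Y (vs A Y s) = A.w) with hHs
    set Ls : ℕ → Finset ℤ := fun j => (Finset.Ico (Y + A.w) (Y + A.h)).filter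
      (fun s => lo A (Y + j) (vs A Y s) = 1) with hLs
    have cov : Finset.Ico (Y + A.w) (Y + A.h) ⊆ Hs ∪ (range A.w).biUnion Ls := by
      intro s hs
      by_cases h : (A.cfg 0).f Y (vs A Y s) = A.w
      · exact Finset.mem_union_left _ (Finset.mem_filter.2 ⟨hs, h⟩)
      · apply Finset.mem_union_right
        rw [c.f_eq] at h
        have h1 : ∑ i ∈ range A.w, lo A (Y + i) (vs A Y s) ≠ 0 := fun h2 => h (by rw [h2]; ring)
        obtain ⟨j, hj, hj'⟩ := Finset.exists_ne_zero_of_sum_ne_zero h1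
        refine Finset.mem_biUnion.2 ⟨j, hj, Finset.mem_filter.2 ⟨hs, ?_⟩⟩
        rcases lo01 A (Y + j) (vs A Y s) with h2 | h2
        · exact absurd h2 hj'
        · exact h2
    have c1 := Finset.card_le_card cov
    have c2 := Finset.card_union_le Hs ((range A.w).biUnion Ls)
    have c3 := Finset.card_biUnion_le (s := range A.w) (t := Ls)
    rw [Int.card_Ico] at c1
    have c4 : (A.h : ℤ) - A.w ≤ Hs.card + ∑ j ∈ range A.w, ((Ls j).card : ℤ) := by
      have : ((∑ j ∈ range A.w, (Ls j).card : ℕ) : ℤ) = ∑ j ∈ range A.w, ((Ls j).card : ℤ) := by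
        push_cast; rfl
      omega
    have c5 : (A.w : ℤ) * Hs.card ≤ ∑ j ∈ range A.w, F (Y + j) := by
      have : ∀ j ∈ range A.w, (Hs.card : ℤ) ≤ F (Y + j) := by
        intro j hj
        have hj := Finset.mem_range.1 hj
        exact c.high_le (Y := Y) (k := Y + j) (by omega) (by omega) Hs (fun s hs => by
          have h1 := Finset.mem_filter.1 hs
          have h2 := Finset.mem_Ico.1 h1.1
          exact ⟨h2, h1.2⟩)
      have := Finset.sum_le_sum this
      rw [Finset.sum_const, Finset.card_range, nsmul_eq_mul] at this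
      exact this
    have c0 : ∀ j ∈ range A.w, (A.q * A.w + A.sg) * (((Ls j).card : ℤ) + 1) + E (Y + j)
        ≤ A.lmk (Y + j) := by
      intro j hj
      have hj := Finset.mem_range.1 hj
      exact c.low_bd (Y := Y) (k := Y + j) (by omega) (by omega) (Ls j) (fun s hs => by
        have h1 := Finset.mem_filter.1 hs
        have h2 := Finset.mem_Ico.1 h1.1
        exact ⟨h2, h1.2⟩)
    have cn : ∀ j ∈ range A.w, (A.w : ℤ) * (((Ls j).card : ℤ) + 1) ≤ A.h := by
      intro j hj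
      have h1 := c0 j hj
      have h2 := c.l1 (Y + j)
      have h3 := A.fr0 t (A.ix (Y + j))
      have h3' : 0 ≤ E (Y + j) := h3
      set n : ℤ := ((Ls j).card : ℤ) + 1 with hn
      have n1 : 1 ≤ n := by omega
      have e1 : (A.q * A.w + A.sg) * n = A.q * (A.w * n) + A.sg * n := by ring
      have e2 : -n ≤ A.sg * n := by rcases A.hsg with h | h <;> rw [h] <;> omega
      have h4 : n < A.q := by
        by_contra hc
        have h5 : (A.q : ℤ) * A.q ≤ A.q * (A.w * n - n) := by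
          apply mul_le_mul_of_nonneg_left _ hq.le
          have : (A.w : ℤ) * n - n = (A.w - 1) * n := by ring
          rw [this]
          have : (1 : ℤ) * n ≤ (A.w - 1) * n := mul_le_mul_of_nonneg_right (by omega) (by omega)
          omega
        have h6 : (A.q : ℤ) * (A.w * n - n) = A.q * (A.w * n) - A.q * n := by ring
        have h7 : (1 : ℤ) * n ≤ A.q * n := mul_le_mul_of_nonneg_right (by omega) (by omega)
        have h8 : (A.q : ℤ) * A.h ≤ A.q * A.q := mul_le_mul_of_nonneg_left (by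
          have := A.h2; omega) hq.le
        omega
      by_contra hc
      have h5 : (A.q : ℤ) * (A.h + 1) ≤ A.q * (A.w * n) :=
        mul_le_mul_of_nonneg_left (by omega) hq.le
      rw [mul_add, mul_one] at h5
      omega
    have c6 : ∑ j ∈ range A.w, ((A.q * A.w + A.sg) * (((Ls j).card : ℤ) + 1) + E (Y + j))
        ≤ ∑ j ∈ range A.w, A.lmk (Y + j) := Finset.sum_le_sum c0
    have c7 := Finset.sum_le_sum cn
    rw [Finset.sum_const, Finset.card_range, nsmul_eq_mul] at c7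
    set Sn : ℤ := ∑ j ∈ range A.w, (((Ls j).card : ℤ) + 1) with hSn
    rw [← Finset.mul_sum, ← hSn] at c7
    rw [Finset.sum_add_distrib, ← Finset.mul_sum, ← hSn] at c6
    have c9 : Sn ≤ A.h := by
      have := mul_le_mul_iff_right₀ (a := (A.w : ℤ)) (b := Sn) (c := A.h) (by omega)
      exact this.1 c7
    have c10 : 0 ≤ Sn := Finset.sum_nonneg (fun j _ => by positivity)
    have c11 : Sn = ∑ j ∈ range A.w, ((Ls j).card : ℤ) + A.w := by
      rw [hSn, Finset.sum_add_distrib]; simp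
    have c8 : ∑ j ∈ range A.w, G (Y + j) = A.w * (A.q * A.h) - ∑ j ∈ range A.w, A.lmk (Y + j) := by
      rw [Finset.sum_congr rfl (fun (j : ℕ) _ => hGv (Y + j)), Finset.sum_sub_distrib,
        Finset.sum_const, Finset.card_range, nsmul_eq_mul]
    have d1 : (A.q : ℤ) * (A.w * Hs.card) ≤ A.q * ∑ j ∈ range A.w, F (Y + j) :=
      mul_le_mul_of_nonneg_left c5 hq.le
    have d2 : (A.q * A.w : ℤ) * A.h ≤ A.q * A.w * (Hs.card + Sn) :=
      mul_le_mul_of_nonneg_left (by omega) (by positivity)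
    rw [c8]
    have e1 : (A.q * A.w : ℤ) * A.h = A.w * (A.q * A.h) := by ring
    have e2 : (A.q * A.w : ℤ) * (Hs.card + Sn) = A.q * (A.w * Hs.card) + A.q * A.w * Sn := by ring
    have e3 : (A.q * A.w + A.sg) * Sn = A.q * A.w * Sn + A.sg * Sn := by ring
    have e4 : -Sn ≤ A.sg * Sn := by rcases A.hsg with h | h <;> rw [h] <;> omega
    rw [e1, e2] at d2
    rw [e3] at c6
    linarith
  have fin := Finset.sum_le_sum (s := range A.p) (fun (Y : ℕ) _ => level Y)
  rw [Finset.sum_add_distrib, Finset.sum_add_distrib, ← Finset.mul_sum,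
    sum2_period A.p G Gper, sum2_period A.p F Fper, sum2_period A.p E Eper,
    Finset.sum_const, Finset.card_range, nsmul_eq_mul, ← total] at fin
  have e0 : ∑ k ∈ range A.p, E k = A.p * (A.q - A.p) := sum_fr A hpq ht ht'
  rw [e0] at fin
  have e1 : (A.w : ℤ) * (A.q * ∑ k ∈ range A.p, F k) = A.q * (A.w * ∑ k ∈ range A.p, F k) := by
    ring
  rw [e1] at fin
  have e2 : (A.w : ℤ) * (A.p * (A.q - A.p)) = A.p * (A.w * (A.q - A.p)) := by ring
  have h1 : (A.p : ℤ) * (A.w * (A.q - A.p)) ≤ A.p * A.h := by linarith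
  have h2 : (A.w : ℤ) * (A.q - A.p) ≤ A.h := by
    exact le_of_mul_le_mul_left h1 hp
  -- `w (q - p) ≡ - sg (mod p)`
  have h3 : (A.p : ℤ) ∣ A.w * (A.q - A.p) + A.sg := by
    have := dvd_sub A.hpw (dvd_mul_right (A.p : ℤ) A.w)
    rwa [show A.q * (A.w : ℤ) + A.sg - A.p * A.w = A.w * (A.q - A.p) + A.sg by ring] at this
  have h4 : (A.w : ℤ) * 1 ≤ A.w * (A.q - A.p) := mul_le_mul_of_nonneg_left (by omega) (by omega)
  have h5 := Int.le_of_dvd (by have := A.hsg; omega) h3
  have := A.h2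
  have := A.hsg
  omega

end CG

/-- **the counting theorem for double ties** -/
theorem countD (F : A.Fl) (T T' : A.Tie) (ht : T'.t = A.q - T.t) (hep : T'.ep = -T.ep)
    (hn : T.NoOvD) (h1 : T.ep = 1) (hwh : (A.w : ℤ) < A.h)
    {m mu f : ℤ} (c : A.Cls m mu f A.h) (h0 : mu < 0) (h2 : A.D < A.q * (mu + A.h) + f) :
    False := by
  have hp := A.p_pos'
  have hq := A.q_pos'
  have f0 := c.2.2.1
  have f1 := c.2.2.2.1
  have D0 := A.D_nonneg
  have t0 := T.t0
  have tp := T.tp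
  have t0' := T'.t0
  have tp' := T'.tp
  have l0 : A.q * mu + f < 0 := by
    have : (A.q : ℤ) * mu ≤ A.q * (-1) := mul_le_mul_of_nonneg_left (by omega) hq.le
    omega
  have e : A.q * (mu + A.h) + f = A.q * mu + f + A.q * A.h := by ring
  rw [e] at h2
  have hHp : (A.q : ℤ) * A.h ≤ A.p * A.q := by
    have := mul_le_mul_of_nonneg_left (show (A.h : ℤ) ≤ A.p by have := A.h2; omega) hq.le
    have e' : (A.q : ℤ) * A.p = A.p * A.q := by ring
    omega
  have hm : A.ix A.h = m := ix_of (by have := c.1; omega) c.2.1 c.2.2.2.2.2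
  have key : ∀ k, A.lmk k = -(A.q * mu + f) ∨ A.lmk k = -(A.q * mu + f) + A.D := by
    intro k
    have i0 := A.ix_nonneg k; have i1 := A.ix_lt k
    have i2 := A.ix_nonneg (k + A.h); have i3 := A.ix_lt (k + A.h)
    have hix : A.ix (k + A.h) = A.ix k + m ∨ A.ix (k + A.h) = A.ix k + m - A.p := by
      have h2 : (A.ix (k + A.h) - A.ix k) % A.p = m := by
        rw [← hm]
        unfold ix
        rw [← Int.sub_emod]
        congr 1; ring
      have h3 := Int.emod_add_mul_ediv (A.ix (k + A.h) - A.ix k) A.p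
      rw [h2] at h3
      have h4 := c.1
      have h5 := c.2.1
      set z := (A.ix (k + A.h) - A.ix k) / (A.p : ℤ)
      have hz : z = 0 ∨ z = -1 := by
        rcases lt_trichotomy z 0 with h | h | h
        · right
          by_contra hc'
          have : z ≤ -2 := by omega
          have := mul_le_mul_of_nonneg_left this hp.le
          omega
        · left; exact h
        · exfalso
          have : 1 ≤ z := h
          have := mul_le_mul_of_nonneg_left this hp.le
          omega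
      rcases hz with h | h <;> rw [h] at h3
      · left; omega
      · right; omega
    unfold lmk
    rcases hix with h | h
    · left
      rw [emod_congr (b := -(A.q * mu + f)), Int.emod_eq_of_lt (by omega) (by omega)]
      obtain ⟨z, hz⟩ := c.2.2.2.2.1
      rw [A.ix_U, A.ix_U, h]
      exact ⟨-z, by linear_combination -hz⟩
    · right
      rw [emod_congr (b := -(A.q * mu + f) + A.D), Int.emod_eq_of_lt (by omega) (by omega)]
      obtain ⟨z, hz⟩ := c.2.2.2.2.1
      obtain ⟨z', hz'⟩ := A.hd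
      rw [A.ix_U, A.ix_U, h]
      have hD : A.D = A.q * A.md + A.fd := rfl
      exact ⟨-z + z', by rw [hD]; linear_combination -hz + hz'⟩
  apply CG.false (A := A) (t := T.t) ?_ (by omega) tp (by omega)
  refine ⟨F, T.scD T' ht hn, ?_, hwh, fun k => by rcases key k with h | h <;> omega,
    fun k => by rcases key k with h | h <;> omega⟩
  intro s s' δ hd d0 hv
  have i0 := A.ix_nonneg s
  have i1 := A.ix_lt s
  have j0 := A.ix_nonneg s'
  have j1 := A.ix_lt s'
  rcases T.gapD T' ht hep hn hd d0 hv with ⟨h3, h4⟩ | h3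
  · unfold fr
    rw [if_neg]
    · omega
    · rintro ⟨h5, h6⟩
      rcases h4 with h4 | h4
      · rw [h1, one_mul] at h4
        omega
      · rw [hep, h1, ht] at h4
        omega
  · unfold fr
    split_ifs <;> omega

/-- **(C) of (D3)** -/
theorem countDbl (F : A.Fl) (T T' : A.Tie) (ht : T'.t = A.q - T.t) (hep : T'.ep = -T.ep)
    (hom : A.om = -1) (hn : T.NoOvD) (hd : 2 * A.D < A.q * A.h) : False := by
  have hp := A.p_pos'
  have hq := A.q_pos'
  have t0 := T.t0
  have tp := T.tp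
  have t0' := T'.t0
  have tp' := T'.tp
  have hfd := A.hfd
  have hfd2 := A.hfd2
  have hmd := A.hmd
  have hpq : (A.p : ℤ) < A.q := by exact_mod_cast A.pq
  have hD : A.D = A.q * A.md + A.fd := rfl
  have c : A.Cls (A.q - A.p) (-A.md - 1) (A.q - A.fd) A.h := by
    refine ⟨by omega, by omega, by omega, by omega, ?_, ?_⟩
    · obtain ⟨z, hz⟩ := A.hd
      obtain ⟨y, hy⟩ := A.hpa
      exact ⟨y - z, by linear_combination -hz + A.q * hy⟩
    · obtain ⟨z, hz⟩ := A.hqe
      rw [hom] at hz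
      exact ⟨z - A.e, by linear_combination hz⟩
  have hmh : A.md + 1 ≤ A.h := by
    by_contra hc
    have : (A.q : ℤ) * A.h ≤ A.q * A.md := mul_le_mul_of_nonneg_left (by omega) hq.le
    have : 0 ≤ (A.q : ℤ) * A.md := mul_nonneg hq.le hmd
    omega
  have hwm : (A.w : ℤ) ≤ A.md := by
    by_contra hc
    exact hn _ _ _ _ c (by omega) (by omega) ⟨by omega, by have := A.hw; omega, by omega, by omega⟩
  have h2 : A.D < A.q * (-A.md - 1 + A.h) + (A.q - A.fd) := by
    have e : A.q * (-A.md - 1 + A.h) + (A.q - A.fd) = A.q * A.h - A.D := by rw [hD]; ring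
    rw [e]; omega
  rcases T.hep with h1 | h1
  · exact countD F T T' ht hep hn h1 (by omega) c (by omega) h2
  · have hn' : T'.NoOvD := by
      intro i m f s c hi hi'
      exact hn i m f s c (by omega) (by omega)
    exact countD F T' T (by omega) (by rw [hep]; ring) hn' (by rw [hep, h1]; ring) (by omega) c
      (by omega) h2

end TAp

end Pool.Agent.H78.Tie
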