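import Pool.Agent.H98.Tie.VNon

/-!
# Region `x < 0`, `w + |x| ≤ h`, `ep = -1` : levels which are not two-valued, packing
-/

namespace Pool.Agent.H78.Tie

open Finset
open Pool.Agent.H98.Flat
open Pool.Agent.H67.Flat

set_option linter.dupNamespace false
set_option linter.unusedVariables false

namespace TAp

variable {A : TAp}

theorem U_zero (A : TAp) : (A.cfg 0).U 0 = 0 := by
  rw [A.ix_U, A.ix_zero, mul_zero]

namespace VR

variable {T : A.Tie}

/-- `f` below the top wall of a rectangle which meets the level through its top -/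
theorem f_top (h : VR A T) (y : ℤ) {r : ℤ} (r0 : 0 ≤ r) (r1 : r < (A.w : ℤ)) :
    (A.cfg 0).f y ((A.cfg 0).V (y + r) - 1) ≤ A.Gam r - 1 := by
  obtain ⟨hn, b1, b2, b3, b4, b5, b6, b7, b8⟩ := h.basic
  have q6 := A.q6
  have hD := A.D_pos
  have S := T.sc h.nov
  have hq0 : 0 ≤ (A.q : ℤ) * r := mul_nonneg (by omega) r0
  have hq1 : (A.q : ℤ) * r ≤ A.q * (A.w - 1) := mul_le_mul_of_nonneg_left (by omega) (by omega)
  rw [mul_sub, mul_one] at hq1
  have kr : A.kap r = 0 := A.kap0 (by omega)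
  obtain ⟨s', a⟩ := h.exists_next (s := r) r0 (by omega)
  have hV : (A.cfg 0).V (y + r) = (A.cfg 0).U (y + r) + A.q * (y + r) := rfl
  have hqe : (((A.cfg 0).q : ℕ) : ℤ) = A.q := rfl
  -- an interior column
  obtain ⟨τ, t0, t1, t2, t3⟩ : ∃ τ : ℤ, 1 ≤ τ ∧ A.q * r - 1 ≤ τ ∧ τ ≤ A.q * r + 1 ∧
      (A.cfg 0).g y ((A.cfg 0).U (y + r) + τ) = A.Gam r := by
    by_cases hr : r = 0
    · refine ⟨1, le_rfl, by rw [hr]; omega, by rw [hr]; omega, ?_⟩
      have := h.Gam_eq y (s := r) r0 (by omega)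
      unfold cs at this
      rwa [kr, mul_zero, add_zero] at this
    · have h2 := h.P_lb r0 (by omega) a.2.2.1 a.2.2.2.1 (Ne.symm a.2.2.2.2.1) r1
      have h3 : (A.q : ℤ) * 1 ≤ A.q * r := mul_le_mul_of_nonneg_left (by omega) (by omega)
      have h4 : A.q * r < A.cd y r s' := by
        rcases h.cd_or y r0 (by omega) a.2.2.1 a.2.2.2.1 (Ne.symm a.2.2.2.2.1) with h5 | h5 <;>
          omega
      refine ⟨A.q * r, by omega, by omega, by omega, ?_⟩
      have := h.gval a y (τ := A.q * r) (by omega) (by omega)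
      unfold cs at this
      rw [kr, mul_zero, add_zero, if_neg (by omega), if_neg (by omega)] at this
      rw [this]; ring
  have hor3 : (A.cfg 0).hor (y + r) ((A.cfg 0).U (y + r) + τ) = 1 :=
    S.hor_of (t := τ) (by simp) (by omega) (by omega)
  have ver3 : (A.cfg 0).ver (y + r) ((A.cfg 0).V (y + r) - 1) = 1 := by
    have := (A.cfg 0).H_pos
    apply S.ver_of (t := (A.cfg 0).H - 1) _ (by omega) (by omega)
    rw [show (A.cfg 0).V (y + r) - 1 - ((A.cfg 0).V (y + r) - (A.cfg 0).H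
      + ((A.cfg 0).H - 1)) = 0 by ring]
    exact dvd_zero _
  have hR := (A.cfg 0).R_pos_of_In (k := y + r) ⟨hor3, ver3⟩
  have g2 := (A.cfg 0).gid y ((A.cfg 0).U (y + r) + τ) (A.q * y + A.q * r - 1 - τ)
    (by rw [hqe, mul_sub, mul_one]; omega) (by rw [hqe]; omega)
  rw [show (A.cfg 0).U (y + r) + τ + (A.q * y + A.q * r - 1 - τ) = (A.cfg 0).V (y + r) - 1 by
    rw [hV]; ring, t3] at g2
  omega

/-- `f` above the bottom wall of a rectangle which meets the level through its bottom -/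
theorem f_bot (h : VR A T) (y : ℤ) {r : ℤ} (r0 : 0 ≤ r) (r1 : r < (A.w : ℤ)) :
    (A.cfg 0).f y ((A.cfg 0).V (y + (r + A.h)) - (A.cfg 0).H) ≤ A.Gam (r + A.h) - 1 := by
  obtain ⟨hn, b1, b2, b3, b4, b5, b6, b7, b8⟩ := h.basic
  have q6 := A.q6
  have S := T.sc h.nov
  have hq0 : 0 ≤ (A.q : ℤ) * r := mul_nonneg (by omega) r0
  have hq1 : (A.q : ℤ) * r ≤ A.q * (A.w - 1) := mul_le_mul_of_nonneg_left (by omega) (by omega)
  rw [mul_sub, mul_one] at hq1
  have kr : A.kap (r + A.h) = r := by rw [A.kaph (by omega)]; ring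
  have hV : (A.cfg 0).V (y + (r + A.h)) = (A.cfg 0).U (y + (r + A.h)) + A.q * (y + (r + A.h)) :=
    rfl
  have hH : (A.cfg 0).H = A.q * A.h := rfl
  have hHp := (A.cfg 0).H_pos
  have hqe : (((A.cfg 0).q : ℕ) : ℤ) = A.q := rfl
  have g1 := h.Gam_eq y (s := r + A.h) (by omega) (by omega)
  unfold cs at g1
  rw [kr] at g1
  have hor3 : (A.cfg 0).hor (y + (r + A.h)) ((A.cfg 0).U (y + (r + A.h)) + A.q * r + 1) = 1 := by
    apply S.hor_of (t := A.q * r + 1) _ (by omega) (by omega)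
    rw [show (A.cfg 0).U (y + (r + A.h)) + A.q * r + 1
      - ((A.cfg 0).U (y + (r + A.h)) + (A.q * r + 1)) = 0 by ring]
    exact dvd_zero _
  have ver3 : (A.cfg 0).ver (y + (r + A.h)) ((A.cfg 0).V (y + (r + A.h)) - (A.cfg 0).H) = 1 := by
    apply S.ver_of (t := 0) _ le_rfl hHp
    rw [add_zero, sub_self]
    exact dvd_zero _
  have hR := (A.cfg 0).R_pos_of_In (k := y + (r + A.h)) ⟨hor3, ver3⟩
  have g2 := (A.cfg 0).gid y ((A.cfg 0).U (y + (r + A.h)) + A.q * r + 1) (A.q * y - 1)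
    (by rw [hqe, mul_sub, mul_one]; omega) (by rw [hqe]; omega)
  rw [show (A.cfg 0).U (y + (r + A.h)) + A.q * r + 1 + (A.q * y - 1)
    = (A.cfg 0).V (y + (r + A.h)) - (A.cfg 0).H by rw [hV, hH]; ring, g1] at g2
  omega

/-- positions along a chain, seen from another label -/
theorem chain_step (h : VR A T) (y : ℤ) {s s0 : ℤ} (h0 : T.sig ≤ s) (h1 : s < A.nn)
    (s00 : 0 ≤ s0) (s01 : s0 < A.nn) (n1 : s0 ≠ s) (n2 : s0 ≠ s - T.sig) :
    A.cd y s0 (s - T.sig) = A.cd y s0 s + A.cd y s (s - T.sig) ∧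
      A.W1 - A.q * A.kap s ≤ A.cd y s (s - T.sig) := by
  obtain ⟨hn, b1, b2, b3, b4, b5, b6, b7, b8⟩ := h.basic
  have a := h.Nx_sig h0 h1
  have c1 := h.Nx_lt a y s00 s01 n1 n2
  have c2 := h.cd_symm y s00 s01 a.1 a.2.1 n1
  have c3 := h.cd_rb y a.1 a.2.1 a.2.2.1 a.2.2.2.1 (Ne.symm a.2.2.2.2.1) (by omega)
  refine ⟨?_, c3⟩
  have d1 := A.cd_cong y s0 (s - T.sig)
  have d2 := A.cd_cong y s0 s
  have d3 := A.cd_cong y s (s - T.sig)
  have e1 := A.cd_nonneg y s0 (s - T.sig)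
  have e2 := A.cd_lt y s0 (s - T.sig)
  have e3 := A.cd_nonneg y s0 s
  have e4 := A.cd_nonneg y s (s - T.sig)
  apply eq_of_dvd (N := A.NN) _ (by omega) (by omega)
  have := dvd_sub (dvd_sub d1 d2) d3
  rwa [show A.cd y s0 (s - T.sig) - (A.cs y (s - T.sig) - A.cs y s0)
    - (A.cd y s0 s - (A.cs y s - A.cs y s0))
    - (A.cd y s (s - T.sig) - (A.cs y (s - T.sig) - A.cs y s))
    = A.cd y s0 (s - T.sig) - (A.cd y s0 s + A.cd y s (s - T.sig)) by ring] at this

/-- `f` on the row of the left wall of `s0`, inside or after the rectangle `s` of a chain -/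
theorem f_mid (h : VR A T) {y s0 s : ℤ} (hy : y + s0 = 0) (h0 : T.sig ≤ s) (h1 : s < A.nn)
    (s00 : 0 ≤ s0) (s01 : s0 < A.h) (c0 : A.cd y s0 s ≤ A.q * s0)
    (c1 : A.q * s0 < A.cd y s0 s + A.cd y s (s - T.sig)) :
    (A.cfg 0).f y 0 ≤ A.Gam s - 1 := by
  obtain ⟨hn, b1, b2, b3, b4, b5, b6, b7, b8⟩ := h.basic
  have q6 := A.q6
  have S := T.sc h.nov
  have a := h.Nx_sig h0 h1
  have ks := qk A h1
  have c3 := h.cd_rb y a.1 a.2.1 a.2.2.1 a.2.2.2.1 (Ne.symm a.2.2.2.2.1) (by omega)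
  have hqe : (((A.cfg 0).q : ℕ) : ℤ) = A.q := rfl
  have hH : (A.cfg 0).H = A.q * A.h := rfl
  have d2 := A.cd_cong y s0 s
  have u0 : A.cs y s0 = 0 := by
    unfold cs
    rw [hy, A.U_zero, A.kap0 (s := s0) (by omega), mul_zero, add_zero]
  rw [u0, sub_zero] at d2
  have ey : (A.q : ℤ) * y + A.q * s0 = 0 := by rw [← mul_add, hy, mul_zero]
  -- the column
  obtain ⟨τ, t0, t1, t2, t3⟩ : ∃ τ : ℤ, 1 ≤ τ ∧ A.q * s0 - A.cd y s0 s ≤ τ ∧
      τ ≤ A.q * s0 - A.cd y s0 s + 1 ∧ τ < A.cd y s (s - T.sig) := by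
    by_cases hc : A.q * s0 - A.cd y s0 s = 0
    · exact ⟨1, by omega, by omega, by omega, by
        rcases b8 with h | h <;> rw [h] at b6 <;> omega⟩
    · exact ⟨A.q * s0 - A.cd y s0 s, by omega, by omega, by omega, by omega⟩
  have g1 := h.gval a y (τ := τ) t0 (by omega)
  rw [if_neg (by omega)] at g1
  set u := A.cd y s0 s + τ with hu
  have eu : (A.cfg 0).N ∣ u - (A.cs y s + τ) := by
    change A.NN ∣ _
    rwa [show u - (A.cs y s + τ) = A.cd y s0 s - A.cs y s by rw [hu]; ring]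
  have g2 : (A.cfg 0).g y u = (A.cfg 0).g y (A.cs y s + τ) := (A.cfg 0).g_congr (by simp) eu
  have g3 := (A.cfg 0).gid y u (-u) (by rw [hqe, mul_sub, mul_one]; omega) (by rw [hqe]; omega)
  rw [add_neg_cancel, g2, g1] at g3
  by_cases hc : (A.cfg 0).W - A.q * A.kap s ≤ τ ∧ (A.w : ℤ) ≤ s
  · rw [if_pos hc] at g3
    have := (A.cfg 0).R_nonneg u 0
    omega
  · rw [if_neg hc] at g3
    have hc' : τ < (A.cfg 0).W - A.q * A.kap s := by
      by_contra hcc
      exact hc ⟨by omega, by omega⟩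
    have hor3 : (A.cfg 0).hor (y + s) u = 1 := by
      apply S.hor_of (t := A.q * A.kap s + τ) _ (by omega) (by omega)
      unfold cs at eu
      rwa [show u - ((A.cfg 0).U (y + s) + (A.q * A.kap s + τ))
        = u - ((A.cfg 0).U (y + s) + A.q * A.kap s + τ) by ring]
    have k1 : 0 ≤ A.kap s + A.h - s := by unfold kap; omega
    have k2 : 0 ≤ (A.q : ℤ) * (A.kap s + A.h - s) := mul_nonneg (by omega) k1
    have k3 : (A.q : ℤ) * A.w ≤ A.q * s := mul_le_mul_of_nonneg_left (by omega) (by omega)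
    have e3 : (A.q : ℤ) * (A.kap s + A.h - s) = A.q * A.kap s + A.q * A.h - A.q * s := by ring
    rw [e3] at k2
    have ver3 : (A.cfg 0).ver (y + s) 0 = 1 := by
      have hV : (A.cfg 0).V (y + s) = (A.cfg 0).U (y + s) + A.q * (y + s) := rfl
      apply S.ver_of (t := A.q * s0 - A.cd y s0 s + (A.q * A.kap s + A.q * A.h - A.q * s)) _
        (by omega) (by omega)
      unfold cs at d2
      rw [hV, hH]
      have := (dvd_neg).2 d2
      change A.NN ∣ _
      have e4 : (0 : ℤ) - ((A.cfg 0).U (y + s) + A.q * (y + s) - A.q * A.h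
        + (A.q * s0 - A.cd y s0 s + (A.q * A.kap s + A.q * A.h - A.q * s)))
        = (A.cd y s0 s - ((A.cfg 0).U (y + s) + A.q * A.kap s)) := by
        linear_combination -ey
      rw [e4]
      exact d2
    have hR := (A.cfg 0).R_pos_of_In (k := y + s) ⟨hor3, ver3⟩
    omega

end VR

namespace NT

variable {T : A.Tie} {M : ℤ}

/-- the last column of rectangle `0` is not covered by the other classes -/
theorem col (n : NT A T M) {j : ℤ} (hj : ¬ (A.p : ℤ) ∣ j) :
    (A.cfg 0).hor j (A.W1 - A.k0) = 0 := by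
  obtain ⟨hn, b1, b2, b3, b4, b5, b6, b7, b8⟩ := n.h.basic
  have hk := k0_bd A
  have w := A.W1_bd
  have q6 := A.q6
  have p5 := A.p5
  have hN := A.NN_pos
  have h1 := n.emp (A.ix j) (ix_pos hj) (A.ix_lt j)
  have q0 := A.Q_nonneg j
  have q1 := A.Q_lt j
  have h2 : 0 < A.Q j := by
    rcases q0.eq_or_lt with hc | hc
    · exfalso
      have h3 := A.q_NN.trans (A.Q_cong j)
      rw [← hc, zero_sub, dvd_neg] at h3
      apply A.q_ne (i := A.ix j) (c := 0) (ix_pos hj).ne' (by have := ix_pos hj; omega)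
        (by have := A.ix_lt j; omega)
      rwa [mul_zero, add_zero]
    · exact hc
  have h3 := Int.le_of_dvd h2 (A.Q_dvd j)
  have h4 : A.Q j ≤ A.NN - A.p := by
    have := Int.le_of_dvd (by omega) (dvd_sub A.p_NN (A.Q_dvd j))
    omega
  rw [emod_congr (b := A.Q j - A.k0) (by
    have := (dvd_neg).2 (A.Q_cong j)
    rwa [show -(A.Q j - A.a * A.ix j) = A.a * A.ix j - A.k0 - (A.Q j - A.k0) by ring] at this),
    Int.emod_eq_of_lt (by omega) (by omega)] at h1
  unfold Cfg.hor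
  apply ph_of_le
  change (A.cfg 0).W ≤ _ % A.NN
  rw [emod_congr (b := A.NN + A.W1 - A.k0 - A.Q j) (by
    rw [A.ix_U]
    have := dvd_sub (A.Q_cong j) (dvd_refl A.NN)
    rwa [show A.Q j - A.a * A.ix j - A.NN
      = A.W1 - A.k0 - A.a * A.ix j - (A.NN + A.W1 - A.k0 - A.Q j) by ring] at this),
    Int.emod_eq_of_lt (by omega) (by omega)]
  omega

/-- small values of `f` -/
theorem rows (n : NT A T M) {y s0 v : ℤ} (hy : y + s0 = 0) (h0 : A.w ≤ s0) (h1 : s0 < A.nn)
    (hG : A.Gam s0 = M) (hf : (A.cfg 0).f y v ≤ M - 2) :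
    (v + (A.cfg 0).H) % A.NN < (A.cfg 0).H := by
  have h2 := n.h.g_last y h0 h1
  rw [hy, A.U_zero, zero_add, hG] at h2
  have h3 := n.h.vis_last 0
  rw [A.U_zero, zero_add] at h3
  have h4 := (abs_le.1 (n.h.fl.zero 0 h3 v y)).1
  unfold Fq at h4
  have h5 : 1 ≤ (A.cfg 0).R (A.W1 - A.k0) v := by omega
  obtain ⟨k, hk⟩ := (A.cfg 0).exists_In (u := A.W1 - A.k0) (v := v) (by omega)
  have h6 : (A.p : ℤ) ∣ k := by
    by_contra hc
    have := n.col hc
    have := hk.1
    omega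
  have h7 : (A.cfg 0).ver 0 v = 1 := by
    rw [← (A.cfg 0).ver_congr (k := k) (j := 0) (u := v) (u' := v) (by
      rw [sub_zero]; exact h6) (by simp)]
    exact hk.2
  have h8 := ph_eq_one_iff.1 h7
  have h9 : (A.cfg 0).V 0 = 0 := by
    change (A.cfg 0).U 0 + _ * 0 = 0
    rw [A.U_zero, mul_zero, add_zero]
  rw [h9] at h8
  rwa [zero_sub, sub_neg_eq_add] at h8

/-- the position of rectangle `-l` -/
theorem lam (n : NT A T M) {m l : ℤ} (hm : (A.h : ℤ) = T.sig * m) (l0 : 0 < l) (l1 : l < A.h)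
    (hl : ¬ T.sig ∣ l) :
    ∃ z : ℤ, A.NN ∣ z - (A.cfg 0).U (-l) ∧ m * A.W1 - A.q * A.h ≤ z - A.q * l ∧
      z - A.q * l ≤ 0 := by
  obtain ⟨hn, b1, b2, b3, b4, b5, b6, b7, b8⟩ := n.h.basic
  have q6 := A.q6
  have hN := A.NN_pos
  have S := T.sc n.h.nov
  have sz := S.size
  have sp : 0 < T.sig := by omega
  have hHp := (A.cfg 0).H_pos
  have hH : (A.cfg 0).H = A.q * A.h := rfl
  have hNN : (A.cfg 0).N = A.NN := rfl
  have hqe : (((A.cfg 0).q : ℕ) : ℤ) = A.q := rfl
  have m1 : 1 ≤ m := by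
    by_contra hc
    have : T.sig * m ≤ T.sig * 0 := mul_le_mul_of_nonneg_left (by omega) sp.le
    rw [mul_zero] at this
    omega
  -- the offset
  obtain ⟨r, r0, r1, r2, r3⟩ : ∃ r : ℤ, 0 ≤ r ∧ r < A.w ∧ l + r < A.h ∧
      (A.w : ℤ) ≤ (l + r) % T.sig := by
    have e0 := Int.emod_nonneg l sp.ne'
    have e1 := Int.emod_lt_of_pos l sp
    have e2 := Int.emod_add_mul_ediv l T.sig
    have e3 : l % T.sig ≠ 0 := fun hc => hl (Int.dvd_of_emod_eq_zero hc)
    rcases le_or_gt (A.w : ℤ) (l % T.sig) with hc | hc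
    · exact ⟨0, le_rfl, by omega, by omega, by rwa [add_zero]⟩
    · refine ⟨A.w - l % T.sig, by omega, by omega, ?_, ?_⟩
      · have h1 : l / T.sig < m := by
          by_contra hcc
          have : T.sig * m ≤ T.sig * (l / T.sig) := mul_le_mul_of_nonneg_left (by omega) sp.le
          omega
        have h2 : T.sig * (l / T.sig + 1) ≤ T.sig * m :=
          mul_le_mul_of_nonneg_left (by omega) sp.le
        rw [mul_add, mul_one] at h2
        omega
      · rw [show l + (A.w - l % T.sig) = A.w + T.sig * (l / T.sig) by omega,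
          Int.add_mul_emod_self_left, Int.emod_eq_of_lt (by omega) (by omega)]
  set y := -(l + r) with hy
  have ey : y + (l + r) = 0 := by rw [hy]; ring
  have ey1 : y + r = -l := by rw [hy]; ring
  have G1 : A.Gam (l + r) = M := by
    rw [← n.h.Gam_mod (by omega) (by omega)]
    exact n.high _ r3 (Int.emod_lt_of_pos _ sp)
  have Gi : ∀ i : ℤ, 0 ≤ i → i ≤ m → A.Gam (r + T.sig * i) = M - 1 := by
    intro i i0 i1
    have h1 : 0 ≤ T.sig * i := mul_nonneg sp.le i0
    have h2 : T.sig * i ≤ T.sig * m := mul_le_mul_of_nonneg_left i1 sp.le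
    rw [← n.h.Gam_mod (by omega) (by omega), Int.add_mul_emod_self_left,
      Int.emod_eq_of_lt r0 (by omega)]
    exact n.low r r0 r1
  have w0 : (A.w : ℤ) ≤ l + r := by
    have e1 := Int.emod_add_mul_ediv (l + r) T.sig
    have e2 : 0 ≤ T.sig * ((l + r) / T.sig) := mul_nonneg sp.le (Int.ediv_nonneg (by omega) sp.le)
    omega
  have sm : ∀ i : ℤ, l + r ≠ r + T.sig * i := by
    intro i hc
    rw [hc, Int.add_mul_emod_self_left, Int.emod_eq_of_lt r0 (by omega)] at r3
    omega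
  have k0 : A.kap (l + r) = 0 := A.kap0 (by omega)
  have kr : A.kap r = 0 := A.kap0 (by omega)
  have q0 : 0 ≤ (A.q : ℤ) * r := mul_nonneg (by omega) r0
  have q1 : (A.q : ℤ) * (l + r + 1) ≤ A.q * A.h := mul_le_mul_of_nonneg_left (by omega) (by omega)
  have q2 : 0 ≤ (A.q : ℤ) * l := mul_nonneg (by omega) l0.le
  rw [mul_add, mul_add, mul_one] at q1
  -- the two rows
  have R1 := n.rows ey w0 (by omega) G1 (v := (A.cfg 0).V (y + r) - 1) (by
    have h1 := n.h.f_top y r0 r1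
    rw [n.low r r0 r1] at h1
    omega)
  have R2 := n.rows ey w0 (by omega) G1 (v := (A.cfg 0).V (y + (r + A.h)) - (A.cfg 0).H) (by
    have h1 := n.h.f_bot y r0 r1
    have h2 := Gi m (by omega) le_rfl
    rw [← hm] at h2
    rw [h2] at h1
    omega)
  have c0 := A.cd_cong y (l + r) r
  have cm := A.cd_cong y (l + r) (r + A.h)
  have u0 : A.cs y (l + r) = 0 := by
    unfold cs
    rw [ey, A.U_zero, k0, mul_zero, add_zero]
  rw [u0, sub_zero] at c0 cm
  unfold cs at c0 cm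
  rw [kr, mul_zero, add_zero] at c0
  rw [A.kaph (s := r + A.h) (by omega), add_sub_cancel_right] at cm
  have x00 := A.cd_nonneg y (l + r) r
  have x01 := A.cd_lt y (l + r) r
  have xm0 := A.cd_nonneg y (l + r) (r + A.h)
  have xm1 := A.cd_lt y (l + r) (r + A.h)
  rw [emod_congr (b := A.cd y (l + r) r - A.q * l - 1 + A.q * A.h) (by
    have hV : (A.cfg 0).V (y + r) = (A.cfg 0).U (y + r) + A.q * (y + r) := rfl
    have := (dvd_neg).2 c0
    rwa [hV, hH, show (A.cfg 0).U (y + r) + A.q * (y + r) - 1 + A.q * A.h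
      - (A.cd y (l + r) r - A.q * l - 1 + A.q * A.h) = -(A.cd y (l + r) r - (A.cfg 0).U (y + r)) by
        rw [ey1]; ring])] at R1
  rw [emod_congr (b := A.cd y (l + r) (r + A.h) - A.q * (l + r) + A.q * A.h) (by
    have hV : (A.cfg 0).V (y + (r + A.h)) = (A.cfg 0).U (y + (r + A.h)) + A.q * (y + (r + A.h)) :=
      rfl
    have := (dvd_neg).2 cm
    rwa [hV, hH, show (A.cfg 0).U (y + (r + A.h)) + A.q * (y + (r + A.h)) - A.q * A.h + A.q * A.h
      - (A.cd y (l + r) (r + A.h) - A.q * (l + r) + A.q * A.h)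
      = -(A.cd y (l + r) (r + A.h) - ((A.cfg 0).U (y + (r + A.h)) + A.q * r)) by
        rw [hy]; ring])] at R2
  -- the chain
  have X0 : ∀ i : ℤ, 1 ≤ i → i ≤ m →
      A.cd y (l + r) (r + T.sig * (i - 1)) = A.cd y (l + r) (r + T.sig * i)
        + A.cd y (r + T.sig * i) (r + T.sig * i - T.sig) ∧
      A.W1 - A.q * A.kap (r + T.sig * i) ≤ A.cd y (r + T.sig * i) (r + T.sig * i - T.sig) := by
    intro i i1 i2
    have h1 : T.sig * 1 ≤ T.sig * i := mul_le_mul_of_nonneg_left i1 sp.le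
    have h2 : T.sig * i ≤ T.sig * m := mul_le_mul_of_nonneg_left i2 sp.le
    have e : r + T.sig * (i - 1) = r + T.sig * i - T.sig := by ring
    have := n.h.chain_step y (s := r + T.sig * i) (s0 := l + r) (by omega) (by omega) (by omega)
      (by omega) (sm i) (by rw [← e]; exact sm (i - 1))
    rwa [← e] at this ⊢
  have ch : ∀ k : ℕ, (k : ℤ) + 1 ≤ m →
      A.cd y (l + r) (r + A.h) + (k + 1) * A.W1 - A.q * r
        ≤ A.cd y (l + r) (r + T.sig * (m - 1 - k)) := by
    intro k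
    induction k with
    | zero =>
      intro _
      have h1 := X0 m m1 le_rfl
      rw [← hm, A.kaph (s := r + A.h) (by omega), add_sub_cancel_right] at h1
      rw [Nat.cast_zero, zero_add, one_mul, sub_zero]
      omega
    | succ k ih =>
      intro hk
      push_cast at hk ⊢
      have h1 := ih (by omega)
      have h2 := X0 (m - 1 - k) (by omega) (by omega)
      have h3 : T.sig * (m - 1 - k) ≤ T.sig * (m - 1) :=
        mul_le_mul_of_nonneg_left (by omega) sp.le
      rw [show T.sig * (m - 1) = A.h - T.sig by rw [hm]; ring] at h3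
      rw [A.kap0 (s := r + T.sig * (m - 1 - k)) (by omega), mul_zero, sub_zero] at h2
      rw [show m - 1 - ((k : ℤ) + 1) = m - 1 - k - 1 by ring]
      have e : ((k : ℤ) + 1 + 1) * A.W1 = (k + 1) * A.W1 + A.W1 := by ring
      rw [e]
      omega
  have ch0 := ch (m - 1).toNat (by rw [Int.toNat_of_nonneg (by omega)]; omega)
  rw [Int.toNat_of_nonneg (by omega), sub_add_cancel, sub_self, mul_zero, add_zero] at ch0
  -- first alternative
  rcases lt_or_ge (A.cd y (l + r) r - A.q * l - 1 + A.q * A.h) A.NN with hc | hc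
  · rw [Int.emod_eq_of_lt (by omega) hc] at R1
    refine ⟨A.cd y (l + r) r, ?_, by omega, by omega⟩
    rwa [ey1] at c0
  · refine ⟨A.cd y (l + r) r - A.NN, ?_, ?_, by omega⟩
    · have := dvd_sub c0 (dvd_refl A.NN)
      rw [ey1] at this
      rwa [show A.cd y (l + r) r - A.NN - (A.cfg 0).U (-l)
        = A.cd y (l + r) r - (A.cfg 0).U (-l) - A.NN by ring]
    · -- the other end of the chain
      have key : A.q * (l + r) < A.cd y (l + r) (r + A.h) := by
        by_contra hcc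
        have hz : ∀ k : ℕ, (k : ℤ) ≤ m → A.cd y (l + r) (r + T.sig * (m - k)) ≤ A.q * (l + r) := by
          intro k
          induction k with
          | zero =>
            intro _
            rw [Nat.cast_zero, sub_zero, ← hm]
            exact not_lt.1 hcc
          | succ k ih =>
            intro hk
            push_cast at hk ⊢
            have h1 := ih (by omega)
            have h2 := X0 (m - k) (by omega) (by omega)
            have h3 : T.sig * 1 ≤ T.sig * (m - k) := mul_le_mul_of_nonneg_left (by omega) sp.le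
            have h4 : T.sig * (m - k) ≤ T.sig * m := mul_le_mul_of_nonneg_left (by omega) sp.le
            rw [show m - ((k : ℤ) + 1) = m - k - 1 by ring]
            by_contra hx
            have h5 := n.h.f_mid ey (s := r + T.sig * (m - k)) (by omega) (by omega) (by omega)
              (by omega) h1 (by omega)
            rw [Gi (m - k) (by omega) (by omega)] at h5
            have h6 := n.rows ey w0 (by omega) G1 (v := 0) (by omega)
            rw [zero_add, Int.emod_eq_of_lt hHp.le (by omega)] at h6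
            omega
        have h7 := hz m.toNat (by rw [Int.toNat_of_nonneg (by omega)])
        rw [Int.toNat_of_nonneg (by omega), sub_self, mul_zero, add_zero, mul_add] at h7
        omega
      rw [mul_add] at key R2
      rcases lt_or_ge (A.cd y (l + r) (r + A.h) - (A.q * l + A.q * r) + A.q * A.h) A.NN with hd | hd
      · rw [Int.emod_eq_of_lt (by omega) hd] at R2
        omega
      · omega

/-- two of the rectangles are far from each other -/
theorem sep (n : NT A T M) {B l l' z z' : ℤ} (hB : B < A.q * A.h) (l0 : 0 ≤ l) (l1 : l < A.h)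
    (l0' : 0 ≤ l') (l1' : l' < A.h) (hne : l ≠ l') (hz : A.NN ∣ z - (A.cfg 0).U (-l))
    (hz' : A.NN ∣ z' - (A.cfg 0).U (-l')) (a : -B ≤ z - A.q * l) (b : z - A.q * l ≤ 0)
    (a' : -B ≤ z' - A.q * l') (b' : z' - A.q * l' ≤ 0) (h1 : z ≤ z') (h2 : z' < z + A.W1) :
    False := by
  obtain ⟨hn, b1, b2, b3, b4, b5, b6, b7, b8⟩ := n.h.basic
  have q6 := A.q6
  have p5 := A.p5
  have S := T.sc n.h.nov
  have hH : (A.cfg 0).H = A.q * A.h := rfl
  have sz := S.size
  have hqe : (((A.cfg 0).q : ℕ) : ℤ) = A.q := rfl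
  have d : ∀ {l z : ℤ}, A.NN ∣ z - (A.cfg 0).U (-l) → (A.p : ℤ) ∣ z := by
    intro l z h
    have := dvd_add (A.p_NN.trans h) (A.U_dvd 0 (-l))
    rwa [sub_add_cancel] at this
  have h3 : z' + A.p ≤ z + A.W1 := by
    have := dvd_sub (dvd_add (d hz) A.p_W1) (d hz')
    have := Int.le_of_dvd (by omega) this
    omega
  have ver : ∀ {l z : ℤ}, A.NN ∣ z - (A.cfg 0).U (-l) → -B ≤ z - A.q * l → z - A.q * l ≤ 0 →
      (A.cfg 0).ver (-l) (-B - 1) = 1 := by
    intro l z h1 h2 h3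
    apply S.ver_of (t := -B - 1 - (z - A.q * l) + A.q * A.h) _ (by omega) (by omega)
    change A.NN ∣ -B - 1 - ((A.cfg 0).U (-l) + A.q * -l - A.q * A.h
      + (-B - 1 - (z - A.q * l) + A.q * A.h))
    rwa [show -B - 1 - ((A.cfg 0).U (-l) + A.q * -l - A.q * A.h
      + (-B - 1 - (z - A.q * l) + A.q * A.h)) = z - (A.cfg 0).U (-l) by ring]
  refine S.two (k := -l) (a := -l') (x := z') (v := -B - 1) ?_ ?_ ?_ ?_ ?_ (ver hz a b)
    (ver hz' a' b')
  · change ¬ (A.p : ℤ) ∣ _
    exact nd_small (by omega) (by omega) (by omega)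
  · apply S.hor_of (t := z' - z) _ (by omega) (by omega)
    change A.NN ∣ _
    rwa [show z' - ((A.cfg 0).U (-l) + (z' - z)) = z - (A.cfg 0).U (-l) by ring]
  · apply S.hor_of (t := z' - z + 1) _ (by omega) (by omega)
    change A.NN ∣ _
    rwa [show z' + 1 - ((A.cfg 0).U (-l) + (z' - z + 1)) = z - (A.cfg 0).U (-l) by ring]
  · apply S.hor_of (t := 0) _ le_rfl (by omega)
    rwa [add_zero]
  · apply S.hor_of (t := 1) _ (by omega) (by omega)
    rwa [add_sub_add_right_eq_sub]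

/-- **packing** -/
theorem false (n : NT A T M) : False := by
  obtain ⟨hn, b1, b2, b3, b4, b5, b6, b7, b8⟩ := n.h.basic
  have q6 := A.q6
  have p5 := A.p5
  have w1 := A.W1_bd
  obtain ⟨m, hm⟩ := n.dvd
  have sp : 0 < T.sig := by omega
  have m1 : 1 ≤ m := by
    by_contra hc
    have : T.sig * m ≤ T.sig * 0 := mul_le_mul_of_nonneg_left (by omega) sp.le
    rw [mul_zero] at this
    omega
  -- the constants
  have eW : m * A.W1 = A.q * (A.w * m) + m * A.sg := by rw [b6]; ring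
  have eh : (A.q : ℤ) * A.h = A.q * (T.sig * m) := by rw [hm]
  have ex : 1 * m ≤ (T.sig - A.w) * m := mul_le_mul_of_nonneg_right (by omega) (by omega)
  have ex2 : (A.q : ℤ) * m ≤ A.q * ((T.sig - A.w) * m) :=
    mul_le_mul_of_nonneg_left (by omega) (by omega)
  have ex3 : (A.q : ℤ) * 1 ≤ A.q * m := mul_le_mul_of_nonneg_left m1 (by omega)
  have ex4 : 1 * m ≤ (A.q : ℤ) * m := mul_le_mul_of_nonneg_right (by omega) (by omega)
  rw [sub_mul, mul_sub] at ex2
  have es : -m ≤ m * A.sg ∧ m * A.sg ≤ m := by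
    rcases b8 with h | h <;> rw [h] <;> constructor <;> omega
  set B := (A.q : ℤ) * A.h - m * A.W1 with hB
  set lo := (A.q : ℤ) - (A.q * (T.sig * m) - A.q * (A.w * m)) - m with hlo
  have key : ∀ l : ℤ, 0 ≤ l → l < A.h → (l = 0 ∨ ¬ T.sig ∣ l) →
      ∃ z : ℤ, A.NN ∣ z - (A.cfg 0).U (-l) ∧ -B ≤ z - A.q * l ∧ z - A.q * l ≤ 0 ∧ lo ≤ z := by
    intro l l0 l1 hl
    rcases l0.eq_or_lt with hc | hc
    · refine ⟨0, ?_, ?_, ?_, ?_⟩
      · rw [← hc, neg_zero, A.U_zero, sub_zero]; exact dvd_zero _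
      · rw [← hc, mul_zero, sub_zero]; omega
      · rw [← hc, mul_zero, sub_zero]
      · omega
    · obtain ⟨z, z1, z2, z3⟩ := n.lam hm hc l1 (by
        rcases hl with h | h
        · omega
        · exact h)
      have : (A.q : ℤ) * 1 ≤ A.q * l := mul_le_mul_of_nonneg_left (by omega) (by omega)
      exact ⟨z, z1, by omega, z3, by omega⟩
  choose! z hz using key
  -- the number of rectangles
  set E := (Finset.Ico (1 : ℤ) m).image (fun i => T.sig * i) with hE
  have c2 : E.card ≤ (m - 1).toNat := Finset.card_image_le.trans (by rw [Int.card_Ico])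
  have c3 := Finset.le_card_sdiff E (Finset.Ico (0 : ℤ) A.h)
  rw [Int.card_Ico, sub_zero, Int.toNat_natCast] at c3
  have mem : ∀ l ∈ Finset.Ico (0 : ℤ) A.h \ E, 0 ≤ l ∧ l < A.h ∧ (l = 0 ∨ ¬ T.sig ∣ l) := by
    intro l hl
    rw [Finset.mem_sdiff, Finset.mem_Ico] at hl
    refine ⟨hl.1.1, hl.1.2, ?_⟩
    by_contra hc
    push Not at hc
    obtain ⟨i, hi⟩ := hc.2
    apply hl.2
    rw [hE, Finset.mem_image]
    refine ⟨i, ?_, hi.symm⟩
    rw [Finset.mem_Ico]
    constructor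
    · by_contra hc
      have : T.sig * i ≤ T.sig * 0 := mul_le_mul_of_nonneg_left (by omega) sp.le
      rw [mul_zero] at this
      omega
    · by_contra hc
      have : T.sig * m ≤ T.sig * i := mul_le_mul_of_nonneg_left (by omega) sp.le
      omega
  -- the bins
  have hW : 0 < A.W1 := by omega
  have hK : A.q * A.h - A.q - lo < m * (T.sig - 1) * A.W1 := by
    have e1 : m * (T.sig - 1) * A.W1 = A.q * (A.w * (T.sig * m)) - A.q * (A.w * m)
        + m * (T.sig - 1) * A.sg := by rw [b6]; ring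
    have e2 : 0 ≤ m * (T.sig - 1) := mul_nonneg (by omega) (by omega)
    have e3 : m * (T.sig - 1) = T.sig * m - m := by ring
    have e4 : (A.q : ℤ) * (2 * (T.sig * m)) ≤ A.q * (A.w * (T.sig * m)) :=
      mul_le_mul_of_nonneg_left (mul_le_mul_of_nonneg_right b3 (by omega)) (by omega)
    have e5 : (A.q : ℤ) * (2 * (T.sig * m)) = 2 * (A.q * (T.sig * m)) := by ring
    have e6 : -(m * (T.sig - 1)) ≤ m * (T.sig - 1) * A.sg := by
      rcases b8 with h | h <;> rw [h] <;> omega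
    omega
  obtain ⟨l, hl, l', hl', hne, heq⟩ := Finset.exists_ne_map_eq_of_card_lt_of_maps_to
    (s := Finset.Ico (0 : ℤ) A.h \ E) (t := Finset.Ico (0 : ℤ) (m * (T.sig - 1)))
    (f := fun l => (z l - lo) / A.W1) (by
      rw [Int.card_Ico, sub_zero]
      have e3 : m * (T.sig - 1) = T.sig * m - m := by ring
      have e4 : 1 * m ≤ T.sig * m := mul_le_mul_of_nonneg_right (by omega) (by omega)
      omega) (by
      intro l hl
      obtain ⟨l0, l1, l2⟩ := mem l hl
      rw [Finset.mem_coe, Finset.mem_Ico]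
      obtain ⟨z1, z2, z3, z4⟩ := hz l l0 l1 l2
      have : (A.q : ℤ) * (l + 1) ≤ A.q * A.h := mul_le_mul_of_nonneg_left (by omega) (by omega)
      rw [mul_add, mul_one] at this
      exact ⟨Int.ediv_nonneg (by omega) hW.le, Int.ediv_lt_of_lt_mul hW (by omega)⟩)
  have heq' : (z l - lo) / A.W1 = (z l' - lo) / A.W1 := heq
  obtain ⟨l0, l1, l2⟩ := mem l hl
  obtain ⟨l0', l1', l2'⟩ := mem l' hl'
  obtain ⟨z1, z2, z3, z4⟩ := hz l l0 l1 l2
  obtain ⟨y1, y2, y3, y4⟩ := hz l' l0' l1' l2'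
  have f1 := Int.emod_nonneg (z l - lo) hW.ne'
  have f2 := Int.emod_lt_of_pos (z l - lo) hW
  have f3 := Int.emod_nonneg (z l' - lo) hW.ne'
  have f4 := Int.emod_lt_of_pos (z l' - lo) hW
  have f5 := Int.emod_add_mul_ediv (z l - lo) A.W1
  have f6 := Int.emod_add_mul_ediv (z l' - lo) A.W1
  rw [heq'] at f5
  have hBl : B < A.q * A.h := by
    have : 1 * A.W1 ≤ m * A.W1 := mul_le_mul_of_nonneg_right m1 hW.le
    omega
  rcases le_total (z l) (z l') with h1 | h1
  · exact n.sep hBl l0 l1 l0' l1' hne z1 y1 z2 z3 y2 y3 h1 (by omega)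
  · exact n.sep hBl l0' l1' l0 l1 (Ne.symm hne) y1 z1 y2 y3 z2 z3 h1 (by omega)

end NT

theorem VR.nonTV {T : A.Tie} (h : VR A T) {s : ℤ} (s0 : 0 ≤ s) (s1 : s < A.nn) :
    A.Gam s = A.Gam 0 := by
  by_contra hc
  obtain ⟨M, n⟩ := h.nt ⟨s, s0, s1, hc⟩
  exact n.false

end TAp

end Pool.Agent.H78.Tie
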