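import Pool.Agent.H98.Tie.StatWAp

/-!
# The counting theorem (theorem III of helper67)

No configuration in which `V_(k+h)` is slightly above `V_k`.
-/

namespace Pool.Agent.H78.Tie

open Finset
open Pool.Agent.H98.Flat
open Pool.Agent.H67.Flat

set_option linter.unusedVariables false
set_option linter.dupNamespace false

/-! ### generalities -/

/-- a chain of rows with gaps `g` or `≥ g + e` -/
theorem pack {g e τ : ℤ} (he : 0 ≤ e) (P I : ℤ → ℤ) (a : ℤ) :
    ∀ (n : ℕ) (S : Finset ℤ) (b : ℤ), S.card = n → (∀ x ∈ S, P a < P x ∧ P x < P b) →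
    P a < P b →
    (∀ x ∈ insert a (insert b S), ∀ y ∈ insert a (insert b S), P x < P y →
      (P y = P x + g ∧ I y = I x + τ) ∨ P x + g + e ≤ P y) →
    (∀ x ∈ S, ∀ y ∈ S, x ≠ y → P x ≠ P y) →
    (P b = P a + (n + 1) * g ∧ I b = I a + (n + 1) * τ) ∨ P a + (n + 1) * g + e ≤ P b := by
  intro n
  induction n with
  | zero =>
    intro S b hS _ hab h _
    have := h a (by simp) b (by simp) hab
    rcases this with h1 | h1
    · left
      refine ⟨?_, ?_⟩
      · rw [h1.1]; push_cast; ring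
      · rw [h1.2]; push_cast; ring
    · right
      push_cast
      linarith
  | succ n ih =>
    intro S b hS hx hab h hne
    have hS0 : S.Nonempty := by rw [← Finset.card_pos, hS]; omega
    obtain ⟨m, hm, hmax⟩ := Finset.exists_max_image S P hS0
    have hc : (S.erase m).card = n := by rw [Finset.card_erase_of_mem hm, hS]; rfl
    have h1 := ih (S.erase m) m hc
      (fun x hx' => by
        have h2 := Finset.mem_erase.1 hx'
        refine ⟨(hx x h2.2).1, lt_of_le_of_ne (hmax x h2.2) (hne x h2.2 m hm h2.1)⟩)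
      (hx m hm).1
      (fun x hx' y hy' hxy => by
        apply h x _ y _ hxy
        · simp only [Finset.mem_insert, Finset.mem_erase] at hx' ⊢
          rcases hx' with h2 | h2 | h2
          · left; exact h2
          · right; right; rw [h2]; exact hm
          · right; right; exact h2.2
        · simp only [Finset.mem_insert, Finset.mem_erase] at hy' ⊢
          rcases hy' with h2 | h2 | h2
          · left; exact h2
          · right; right; rw [h2]; exact hm
          · right; right; exact h2.2)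
      (fun x hx' y hy' => hne x (Finset.mem_erase.1 hx').2 y (Finset.mem_erase.1 hy').2)
    have h2 := h m (by simp [hm]) b (by simp) (hx m hm).2
    push_cast
    rcases h1 with ⟨h3, h4⟩ | h3 <;> rcases h2 with ⟨h5, h6⟩ | h5
    · left
      refine ⟨?_, ?_⟩
      · rw [h5, h3]; ring
      · rw [h6, h4]; ring
    · right; rw [h3] at h5; linarith
    · right; linarith
    · right; linarith

/-- the arcs `[V_k, V_{k+h})` cover the circle evenly -/
theorem sum_arcs (C : Cfg) : (C.q : ℤ) * ∑ k ∈ range C.p, ∑ i ∈ range C.p,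
    ph C.N (C.V k) ((C.V (k + C.h) - C.V k) % C.N) (C.V i)
      = ∑ k ∈ range C.p, (C.V (k + C.h) - C.V k) % C.N := by
  have hN := C.N_pos
  have hp : (0 : ℤ) < C.p := by exact_mod_cast C.p_pos
  set Z : ℤ → ℤ := fun x => ∑ k ∈ range C.p, ph C.N (C.V k) ((C.V (k + C.h) - C.V k) % C.N) x
    with hZ
  have l0 : ∀ k : ℤ, 0 ≤ (C.V (k + C.h) - C.V k) % C.N := fun k => Int.emod_nonneg _ hN.ne'
  have l1 : ∀ k : ℤ, (C.V (k + C.h) - C.V k) % C.N < C.N := fun k => Int.emod_lt_of_pos _ hN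
  have hper : ∀ x k : ℤ, dv C.N (x - C.V (k + C.p)) = dv C.N (x - C.V k) := by
    intro x k
    apply dv_congr
    have := C.V_congr (k := k) (j := k + C.p) (by rw [sub_add_cancel_left]; exact (dvd_neg).2 (dvd_refl _))
    rwa [show x - C.V (k + C.p) - (x - C.V k) = C.V k - C.V (k + C.p) by ring]
  have hconst : ∀ x, Z x = Z 0 := by
    intro x
    apply const_of_jump
    intro x
    have : Z x - Z (x - 1) = 0 := by
      simp only [hZ]
      rw [← Finset.sum_sub_distrib]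
      have e : ∀ k ∈ range C.p, ph C.N (C.V k) ((C.V ((k : ℤ) + C.h) - C.V k) % C.N) x
          - ph C.N (C.V k) ((C.V ((k : ℤ) + C.h) - C.V k) % C.N) (x - 1)
          = dv C.N (x - C.V k) - dv C.N (x - C.V ((k : ℤ) + C.h)) := by
        intro k _
        rw [ph_jump hN (l0 k) (l1 k).le]
        congr 1
        apply dv_congr
        have := Int.emod_add_mul_ediv (C.V ((k : ℤ) + C.h) - C.V k) C.N
        exact ⟨(C.V ((k : ℤ) + C.h) - C.V k) / C.N, by linear_combination -this⟩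
      rw [Finset.sum_congr rfl e, Finset.sum_sub_distrib]
      have h1 := sum_period C.p (fun k => dv C.N (x - C.V k)) (hper x) C.h
      have h2 : ∑ k ∈ range C.p, dv C.N (x - C.V ((k : ℤ) + C.h))
          = ∑ i ∈ range C.p, dv C.N (x - C.V (C.h + i)) := by
        refine Finset.sum_congr rfl fun i _ => ?_
        rw [add_comm]
      rw [h2, h1, sub_self]
    omega
  have hswap : ∑ k ∈ range C.p, ∑ i ∈ range C.p,
      ph C.N (C.V k) ((C.V ((k : ℤ) + C.h) - C.V k) % C.N) (C.V i) = C.p * Z 0 := by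
    rw [Finset.sum_comm]
    have : ∀ i ∈ range C.p, ∑ k ∈ range C.p,
        ph C.N (C.V k) ((C.V ((k : ℤ) + C.h) - C.V k) % C.N) (C.V i) = Z 0 :=
      fun i _ => hconst (C.V i)
    rw [Finset.sum_congr rfl this, Finset.sum_const, Finset.card_range, nsmul_eq_mul]
  rw [hswap]
  have htot : ∑ x ∈ range (C.p * C.q), Z x = ∑ k ∈ range C.p, (C.V ((k : ℤ) + C.h) - C.V k) % C.N := by
    simp only [hZ]
    rw [Finset.sum_comm]
    refine Finset.sum_congr rfl fun k _ => ?_
    have := sum_ph (C.p * C.q) C.n_pos (C.V k) ((C.V ((k : ℤ) + C.h) - C.V k) % C.N) (l0 k)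
      (by rw [C.N_eq]; exact (l1 k).le)
    rw [C.N_eq] at this
    exact this
  have h9 : ∑ x ∈ range (C.p * C.q), Z x = ((C.p * C.q : ℕ) : ℤ) * Z 0 := by
    rw [Finset.sum_congr rfl (fun (x : ℕ) _ => hconst (x : ℤ)), Finset.sum_const,
      Finset.card_range, nsmul_eq_mul]
  rw [← htot, h9]
  push_cast
  ring

namespace TAp

variable {A : TAp}

/-- gap between two rectangles which share a row -/
theorem Tie.gap (T : A.Tie) (hs : T.Single) (hn : T.NoOv) {s s' δ : ℤ}
    (hd : (A.cfg 0).N ∣ (A.cfg 0).U s - (A.cfg 0).U s' - δ) (d0 : 0 < δ)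
    (hv : δ ≤ A.q * A.w + A.sg → -(A.q * (A.h : ℤ)) < δ + A.q * (s - s') ∧
      δ + A.q * (s - s') < A.q * A.h) :
    (δ = A.q * A.w + A.sg ∧ A.ix s = A.ix s' + T.ep * T.t) ∨
      A.q * A.w + A.sg + A.p ≤ δ := by
  have hp := A.p_pos'
  have hq := A.q_pos'
  have hN := (A.cfg 0).N_pos
  have pδ : (A.p : ℤ) ∣ δ := by
    have h1 := (A.p_N 0).trans hd
    have h2 := dvd_sub (A.U_dvd 0 s) (A.U_dvd 0 s')
    have := dvd_sub h2 h1
    rwa [sub_sub_cancel] at this
  have δp : (A.p : ℤ) ≤ δ := Int.le_of_dvd d0 pδ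
  by_cases hle : δ ≤ A.q * A.w + A.sg
  swap
  · right
    have := dvd_sub pδ A.hpw
    have := Int.le_of_dvd (by omega) this
    omega
  left
  obtain ⟨v0, v1⟩ := hv hle
  have w2 := A.w2
  have hw := A.hw
  have hk := A.k0_cases
  have hWl := (A.cfg 0).W_lt
  have hHl := (A.cfg 0).H_lt
  have hW : (A.cfg 0).W = A.q * A.w := rfl
  have hH : (A.cfg 0).H = A.q * A.h := rfl
  have hor' : (A.cfg 0).hor s' ((A.cfg 0).U s - A.k0) = 1 := by
    unfold Cfg.hor
    rw [ph_at (t := δ - A.k0) (by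
      rwa [show (A.cfg 0).U s - A.k0 - ((A.cfg 0).U s' + (δ - A.k0))
        = (A.cfg 0).U s - (A.cfg 0).U s' - δ by ring]) (by omega) (by omega), if_pos (by omega)]
  set ε := δ + A.q * (s - s') with hε
  have hVs : (A.cfg 0).N ∣ (A.cfg 0).V s - (A.cfg 0).V s' - ε := by
    rwa [show (A.cfg 0).V s - (A.cfg 0).V s' - ε = (A.cfg 0).U s - (A.cfg 0).U s' - δ by
      show (A.cfg 0).U s + A.q * s - ((A.cfg 0).U s' + A.q * s') - ε = _
      rw [hε]; ring]
  obtain ⟨μ, hμ⟩ : ∃ μ, μ = min ε 0 := ⟨_, rfl⟩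
  have kv : (A.cfg 0).ver s' ((A.cfg 0).V s' - 1 + μ) = 1 := by
    unfold Cfg.ver
    rw [ph_at (t := (A.cfg 0).H - 1 + μ) (by
      rw [show (A.cfg 0).V s' - 1 + μ - ((A.cfg 0).V s' - (A.cfg 0).H + ((A.cfg 0).H - 1 + μ)) = 0
        by ring]; exact dvd_zero _) (by omega) (by omega), if_pos (by omega)]
  have av : (A.cfg 0).ver s ((A.cfg 0).V s' - 1 + μ) = 1 := by
    unfold Cfg.ver
    rw [ph_at (t := (A.cfg 0).H - 1 + μ - ε) (by
      have := (dvd_neg).2 hVs
      rwa [show (A.cfg 0).V s' - 1 + μ - ((A.cfg 0).V s - (A.cfg 0).H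
        + ((A.cfg 0).H - 1 + μ - ε)) = -((A.cfg 0).V s - (A.cfg 0).V s' - ε) by ring])
      (by omega) (by omega), if_pos (by omega)]
  have ht := T.touch hs hn hor' kv av
  refine ⟨?_, by omega⟩
  have h1 := T.tie
  have h2 : (A.cfg 0).N ∣ δ - (A.q * A.w + A.sg) := by
    obtain ⟨z1, hz1⟩ := h1
    obtain ⟨z2, hz2⟩ := hd
    rw [A.ix_U, A.ix_U] at hz2
    have e2 : T.ep * T.ep = 1 := by rcases T.hep with h | h <;> rw [h] <;> norm_num
    have hNe : (A.cfg 0).N = (A.p : ℤ) * A.q := rfl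
    rw [hNe] at hz2 ⊢
    exact ⟨T.ep * z1 - z2, by
      linear_combination T.ep * hz1 - hz2 + A.a * ht + (A.q * A.w + A.sg) * e2⟩
  have h3 : δ - (A.q * A.w + A.sg) = 0 := by
    apply Int.eq_zero_of_abs_lt_dvd h2
    rw [abs_lt]
    constructor
    · have := A.hsg
      omega
    · omega
  omega

end TAp

theorem ph_compl {N a L x : ℤ} (hN : 0 < N) (h0 : 0 ≤ L) (h1 : L ≤ N) :
    ph N a (N - L) x = 1 - ph N (a - L) L x := by
  rw [ph_eq_div hN (by omega) (by omega), ph_eq_div hN h0 h1]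
  have e : x - a - (N - L) = (x - (a - L)) + (-1) * N := by ring
  rw [e, Int.add_mul_ediv_right _ _ hN.ne', show x - (a - L) - L = x - a by ring]
  ring

namespace TAp

variable {A : TAp}

/-- length of the arc where `f` is low -/
def lmk (A : TAp) (k : ℤ) : ℤ := ((A.cfg 0).U k - (A.cfg 0).U (k + A.h)) % ((A.p : ℤ) * A.q)

theorem lmk_cong (A : TAp) (k : ℤ) :
    (A.p : ℤ) * A.q ∣ (A.cfg 0).U k - (A.cfg 0).U (k + A.h) - A.lmk k := by
  unfold lmk
  have := Int.emod_add_mul_ediv ((A.cfg 0).U k - (A.cfg 0).U (k + A.h)) ((A.p : ℤ) * A.q)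
  exact ⟨((A.cfg 0).U k - (A.cfg 0).U (k + A.h)) / ((A.p : ℤ) * A.q), by
    linear_combination -this⟩

/-- the hypotheses of the counting theorem -/
structure C3 (A : TAp) (T : A.Tie) : Prop where
  fl : A.Fl
  hs : T.Single
  hn : T.NoOv
  hx : T.x < 0
  hc : ∀ n : ℤ, 0 ≤ n → n * T.t < A.p → n * (A.w - T.x) < A.h
  hwh : (A.w : ℤ) < A.h
  l0 : ∀ k, 0 < A.lmk k
  l1 : ∀ k, A.lmk k < A.q * A.h

namespace C3

variable {T : A.Tie}

theorem l2 (c : C3 A T) (k : ℤ) : A.lmk k < (A.p : ℤ) * A.q := by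
  have := c.l1 k
  have h2 : (A.h : ℤ) ≤ A.p := by have := A.h2; omega
  have := mul_le_mul_of_nonneg_left h2 A.q_pos'.le
  have e : (A.p : ℤ) * A.q = A.q * A.p := mul_comm _ _
  omega

theorem lp (c : C3 A T) (k : ℤ) : (A.p : ℤ) ∣ A.lmk k := by
  have h1 := (dvd_mul_right (A.p : ℤ) A.q).trans (A.lmk_cong k)
  have h2 := dvd_sub (A.U_dvd 0 k) (A.U_dvd 0 (k + A.h))
  have := dvd_sub h2 h1
  rwa [sub_sub_cancel] at this

theorem ell (c : C3 A T) (k : ℤ) : (A.cfg 0).ell k = (A.cfg 0).N - A.lmk k := by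
  have hN := (A.cfg 0).N_pos
  have hNe : (A.cfg 0).N = (A.p : ℤ) * A.q := rfl
  have := c.l0 k; have := c.l2 k
  unfold Cfg.ell
  rw [emod_congr (b := (A.cfg 0).N - A.lmk k), Int.emod_eq_of_lt (by omega) (by omega)]
  obtain ⟨z, hz⟩ := A.lmk_cong k
  have hhe : (((A.cfg 0).h : ℕ) : ℤ) = A.h := rfl
  rw [hhe, hNe]
  exact ⟨-z - 1, by linear_combination -hz⟩

theorem vdiff (c : C3 A T) (k : ℤ) :
    ((A.cfg 0).V (k + (A.cfg 0).h) - (A.cfg 0).V k) % (A.cfg 0).N = A.q * A.h - A.lmk k := by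
  have hN := (A.cfg 0).N_pos
  have hNe : (A.cfg 0).N = (A.p : ℤ) * A.q := rfl
  have hHl := (A.cfg 0).H_lt
  have hH : (A.cfg 0).H = A.q * A.h := rfl
  have := c.l0 k; have := c.l1 k
  rw [emod_congr (b := A.q * A.h - A.lmk k), Int.emod_eq_of_lt (by omega) (by omega)]
  obtain ⟨z, hz⟩ := A.lmk_cong k
  have hhe : (((A.cfg 0).h : ℕ) : ℤ) = A.h := rfl
  rw [hhe, hNe]
  refine ⟨-z, ?_⟩
  show (A.cfg 0).U (k + A.h) + A.q * (k + A.h) - ((A.cfg 0).U k + A.q * k) - _ = _
  linear_combination -hz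

/-- indicator of the low arc -/
def lo (A : TAp) (k v : ℤ) : ℤ := ph (A.cfg 0).N ((A.cfg 0).V k - A.lmk k) (A.lmk k) v

theorem f_eq (c : C3 A T) (Y v : ℤ) :
    (A.cfg 0).f Y v = A.w - ∑ i ∈ range A.w, lo A (Y + i) v := by
  have hN := (A.cfg 0).N_pos
  have hNe : (A.cfg 0).N = (A.p : ℤ) * A.q := rfl
  unfold Cfg.f
  have e : ∀ i ∈ range (A.cfg 0).w, ph (A.cfg 0).N ((A.cfg 0).V (Y + i)) ((A.cfg 0).ell (Y + i)) v
      = 1 - lo A (Y + i) v := by
    intro i _
    rw [c.ell]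
    exact ph_compl hN (c.l0 _).le (by rw [hNe]; exact (c.l2 _).le)
  rw [Finset.sum_congr rfl e, Finset.sum_sub_distrib, Finset.sum_const, Finset.card_range,
    nsmul_eq_mul, mul_one]
  rfl

theorem lo01 (A : TAp) (k v : ℤ) : lo A k v = 0 ∨ lo A k v = 1 := by
  unfold lo ph; split_ifs <;> simp

/-- the test column of row `s`, and its height on level `Y` -/
def us (A : TAp) (s : ℤ) : ℤ := (A.cfg 0).U s + A.p - A.k0
def vs (A : TAp) (Y s : ℤ) : ℤ := us A s + A.q * Y

theorem us_vis (A : TAp) (s : ℤ) : (A.p : ℤ) ∣ us A s + A.k0 := by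
  unfold us
  rw [sub_add_cancel]
  exact dvd_add (A.U_dvd 0 s) (dvd_refl _)

theorem us_n1 (A : TAp) (s : ℤ) : A.sg = -1 → ¬ (A.p : ℤ) ∣ us A s := by
  intro h1 h2
  have h3 := dvd_sub (us_vis A s) h2
  rw [add_sub_cancel_left] at h3
  have := Int.le_of_dvd (by rcases A.k0_cases with ⟨_, h⟩ | ⟨_, h⟩ <;> omega) h3
  have := A.w2
  have := A.hw
  rcases A.k0_cases with ⟨_, h⟩ | ⟨_, h⟩ <;> omega

/-- rectangle `s` covers its crossing with the level -/
theorem s_in (c : C3 A T) {Y s : ℤ} (s0 : Y + A.w ≤ s) (s1 : s < Y + A.h) :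
    (A.cfg 0).In s (us A s) (vs A Y s) := by
  have hp := A.p_pos'
  have hq := A.q_pos'
  have hpq : (A.p : ℤ) < A.q := by exact_mod_cast A.pq
  have w2 := A.w2
  have hw := A.hw
  have hk := A.k0_cases
  have hWl := (A.cfg 0).W_lt
  have hHl := (A.cfg 0).H_lt
  have hW : (A.cfg 0).W = A.q * A.w := rfl
  have hH : (A.cfg 0).H = A.q * A.h := rfl
  have h1 : (A.q : ℤ) * 2 ≤ A.q * A.w := mul_le_mul_of_nonneg_left (by omega) hq.le
  have h2 : (A.q : ℤ) * (Y + 2) ≤ A.q * s := mul_le_mul_of_nonneg_left (by omega) hq.le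
  have h3 : (A.q : ℤ) * (s + 1) ≤ A.q * (Y + A.h) := mul_le_mul_of_nonneg_left (by omega) hq.le
  rw [mul_add] at h2 h3
  rw [mul_add] at h3
  constructor
  · unfold Cfg.hor us
    rw [ph_at (t := A.p - A.k0) (by
      rw [show (A.cfg 0).U s + A.p - A.k0 - ((A.cfg 0).U s + (A.p - A.k0)) = 0 by ring]
      exact dvd_zero _) (by omega) (by omega), if_pos (by omega)]
  · unfold Cfg.ver vs us
    rw [ph_at (t := A.p - A.k0 + A.q * Y - A.q * s + A.q * A.h) (by
      show _ ∣ (A.cfg 0).U s + A.p - A.k0 + A.q * Y - ((A.cfg 0).U s + A.q * s - A.q * A.h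
        + (A.p - A.k0 + A.q * Y - A.q * s + A.q * A.h))
      rw [show (A.cfg 0).U s + A.p - A.k0 + A.q * Y - ((A.cfg 0).U s + A.q * s - A.q * A.h
        + (A.p - A.k0 + A.q * Y - A.q * s + A.q * A.h)) = 0 by ring]
      exact dvd_zero _) (by omega) (by omega), if_pos (by omega)]

theorem g_eq (c : C3 A T) {Y s : ℤ} (s0 : Y + A.w ≤ s) (s1 : s < Y + A.h) :
    (A.cfg 0).g Y (us A s) = 1 + (A.cfg 0).f Y (vs A Y s) := by
  have h1 := (A.cfg 0).gid_top Y (vs A Y s)
  have e : vs A Y s - ((A.cfg 0).q : ℤ) * Y = us A s := by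
    show us A s + A.q * Y - A.q * Y = us A s
    ring
  rw [e] at h1
  have S := T.sc c.hn
  have h2 := S.visR (v := vs A Y s) (us_n1 A s)
  have h3 := (A.cfg 0).R_pos_of_In (c.s_in s0 s1)
  omega

end C3

end TAp

namespace TAp

variable {A : TAp} {T : A.Tie}

namespace C3

theorem W2 (c : C3 A T) : A.q * (A.w : ℤ) + A.sg + A.q - 1 ≤ A.q * A.h ∧
    0 < A.q * (A.w : ℤ) + A.sg := by
  have hq := A.q_pos'
  have hpq : (A.p : ℤ) < A.q := by exact_mod_cast A.pq
  have w2 := A.w2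
  have hw := A.hw
  have h1 : (A.q : ℤ) * (A.w + 1) ≤ A.q * A.h :=
    mul_le_mul_of_nonneg_left (by have := c.hwh; omega) hq.le
  have h2 : (A.q : ℤ) * 2 ≤ A.q * A.w := mul_le_mul_of_nonneg_left (by omega) hq.le
  rw [mul_add, mul_one] at h1
  rcases A.hsg with h | h <;> rw [h] <;> constructor <;> omega

theorem nd {x : ℤ} (h0 : x ≠ 0) (h1 : -(A.p : ℤ) < x) (h2 : x < A.p) : ¬ (A.p : ℤ) ∣ x := by
  intro h
  exact h0 (Int.eq_zero_of_abs_lt_dvd h (by rw [abs_lt]; constructor <;> omega))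

/-- position of a low crossing -/
theorem low_pos (c : C3 A T) {Y k s : ℤ} (k0 : Y ≤ k) (k1 : k < Y + A.w) (s0 : Y + A.w ≤ s)
    (s1 : s < Y + A.h) (hl : lo A k (vs A Y s) = 1) :
    ∃ x, (A.p : ℤ) * A.q ∣ (A.cfg 0).U k - (A.cfg 0).U s - x ∧ A.q * A.w + A.sg ≤ x ∧
      x ≤ A.lmk k - (A.q * A.w + A.sg) := by
  have hp := A.p_pos'
  have hq := A.q_pos'
  have hN := (A.cfg 0).N_pos
  have hNe : (A.cfg 0).N = (A.p : ℤ) * A.q := rfl
  have hpq : (A.p : ℤ) < A.q := by exact_mod_cast A.pq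
  have w2 := A.w2
  have h2 := A.h2
  have hw := A.hw
  have hk := A.k0_cases
  have hwh := c.hwh
  have G := A.cfg_gen 0
  obtain ⟨W2a, W2b⟩ := c.W2
  unfold lo at hl
  rw [ph_eq_one_iff] at hl
  have e0 := Int.emod_nonneg (vs A Y s - ((A.cfg 0).V k - A.lmk k)) hN.ne'
  have ee := Int.emod_add_mul_ediv (vs A Y s - ((A.cfg 0).V k - A.lmk k)) (A.cfg 0).N
  set e := (vs A Y s - ((A.cfg 0).V k - A.lmk k)) % (A.cfg 0).N
  set z := (vs A Y s - ((A.cfg 0).V k - A.lmk k)) / (A.cfg 0).N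
  have hVk : (A.cfg 0).V k = (A.cfg 0).U k + A.q * k := rfl
  rw [hVk, hNe] at ee
  unfold vs us at ee
  obtain ⟨x, hx⟩ : ∃ x, x = A.lmk k + A.p - A.k0 - A.q * (k - Y) - e := ⟨_, rfl⟩
  have hd : (A.p : ℤ) * A.q ∣ (A.cfg 0).U k - (A.cfg 0).U s - x :=
    ⟨-z, by rw [hx]; linear_combination ee⟩
  have px : (A.p : ℤ) ∣ x := by
    have h1 := (dvd_mul_right (A.p : ℤ) A.q).trans hd
    have h2 := dvd_sub (A.U_dvd 0 k) (A.U_dvd 0 s)
    have := dvd_sub h2 h1
    rwa [sub_sub_cancel] at this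
  have b1 : (A.q : ℤ) * (k - Y) ≤ A.q * (A.w - 1) := mul_le_mul_of_nonneg_left (by omega) hq.le
  have b2 : 0 ≤ (A.q : ℤ) * (k - Y) := mul_nonneg hq.le (by omega)
  rw [mul_sub (A.q : ℤ) A.w 1, mul_one] at b1
  -- lower bound
  have x1 : A.q * A.w + A.sg ≤ x := by
    rcases lt_trichotomy x 0 with hlt | heq | hgt
    · exfalso
      have b3 : (A.q : ℤ) * (k - Y) + A.q * (s - k) ≤ A.q * (A.h - 1) := by
        rw [← mul_add]
        exact mul_le_mul_of_nonneg_left (by omega) hq.le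
      rw [mul_sub (A.q : ℤ) A.h 1, mul_one] at b3
      have b4 : 0 ≤ (A.q : ℤ) * (s - k) := mul_nonneg hq.le (by omega)
      have := T.gap c.hs c.hn (s := s) (s' := k) (δ := -x) (by
        have := (dvd_neg).2 hd
        rwa [show -((A.cfg 0).U k - (A.cfg 0).U s - x) = (A.cfg 0).U s - (A.cfg 0).U k - -x by
          ring] at this) (by omega) (fun _ => ⟨by omega, by omega⟩)
      rcases hk with ⟨h3, h4⟩ | ⟨h3, h4⟩ <;> rcases this with h5 | h5 <;> omega
    · exfalso
      rw [heq, sub_zero] at hd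
      exact nd (by omega) (by omega) (by omega) (G.UU k s hd)
    · have b3 : (A.q : ℤ) * (k - s) ≤ A.q * (-1) := mul_le_mul_of_nonneg_left (by omega) hq.le
      have b4 : (A.q : ℤ) * (-(A.h - 1)) ≤ A.q * (k - s) :=
        mul_le_mul_of_nonneg_left (by omega) hq.le
      have e4 : (A.q : ℤ) * (-(A.h - 1)) = -(A.q * A.h) + A.q := by ring
      have := T.gap c.hs c.hn (s := k) (s' := s) (δ := x) hd hgt
        (fun _ => ⟨by omega, by omega⟩)
      rcases this with h5 | h5 <;> omega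
  -- upper bound
  have hd2 : (A.p : ℤ) * A.q ∣ (A.cfg 0).U s - (A.cfg 0).U (k + A.h) - (A.lmk k - x) := by
    have := dvd_sub (A.lmk_cong k) hd
    rwa [show (A.cfg 0).U k - (A.cfg 0).U (k + A.h) - A.lmk k
      - ((A.cfg 0).U k - (A.cfg 0).U s - x)
      = (A.cfg 0).U s - (A.cfg 0).U (k + A.h) - (A.lmk k - x) by ring] at this
  have py : (A.p : ℤ) ∣ A.lmk k - x := dvd_sub (c.lp k) px
  have x2 : A.q * A.w + A.sg ≤ A.lmk k - x := by
    have y0 : -(A.p : ℤ) < A.lmk k - x := by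
      rcases hk with ⟨h3, h4⟩ | ⟨h3, h4⟩ <;> omega
    rcases lt_trichotomy (A.lmk k - x) 0 with hlt | heq | hgt
    · exfalso
      exact nd (by omega) y0 (by omega) py
    · exfalso
      rw [heq, sub_zero] at hd2
      exact nd (by omega) (by omega) (by omega) (G.UU s (k + A.h) hd2)
    · have b3 : (A.q : ℤ) * (s - (k + A.h)) ≤ A.q * (-1) :=
        mul_le_mul_of_nonneg_left (by omega) hq.le
      have b4 : (A.q : ℤ) * (-(A.h - 1)) ≤ A.q * (s - (k + A.h)) :=
        mul_le_mul_of_nonneg_left (by omega) hq.le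
      have e4 : (A.q : ℤ) * (-(A.h - 1)) = -(A.q * A.h) + A.q := by ring
      have := T.gap c.hs c.hn (s := s) (s' := k + A.h) (δ := A.lmk k - x) hd2 hgt
        (fun _ => ⟨by omega, by omega⟩)
      rcases this with h5 | h5 <;> omega
  exact ⟨x, hd, x1, by omega⟩

/-- number of low crossings of one arc -/
theorem low_bd (c : C3 A T) {Y k : ℤ} (k0 : Y ≤ k) (k1 : k < Y + A.w) (S : Finset ℤ)
    (hS : ∀ s ∈ S, (Y + A.w ≤ s ∧ s < Y + A.h) ∧ lo A k (vs A Y s) = 1) :
    A.q * A.w * ((S.card : ℤ) + 1) + 1 ≤ A.lmk k := by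
  have hp := A.p_pos'
  have hq := A.q_pos'
  have hN := (A.cfg 0).N_pos
  have hNe : (A.cfg 0).N = (A.p : ℤ) * A.q := rfl
  have hpq : (A.p : ℤ) < A.q := by exact_mod_cast A.pq
  have w2 := A.w2
  have h2 := A.h2
  have hw := A.hw
  have hwh := c.hwh
  have G := A.cfg_gen 0
  have l0 := c.l0 k
  have l1 := c.l1 k
  have l2 := c.l2 k
  obtain ⟨W2a, W2b⟩ := c.W2
  set P : ℤ → ℤ := fun s => -(((A.cfg 0).U k - (A.cfg 0).U s) % ((A.p : ℤ) * A.q)) with hP
  have Pc : ∀ s, (A.p : ℤ) * A.q ∣ (A.cfg 0).U s - (A.cfg 0).U k - P s := by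
    intro s
    have := Int.emod_add_mul_ediv ((A.cfg 0).U k - (A.cfg 0).U s) ((A.p : ℤ) * A.q)
    refine ⟨-(((A.cfg 0).U k - (A.cfg 0).U s) / ((A.p : ℤ) * A.q)), ?_⟩
    simp only [hP]
    linear_combination this
  have Pk : P k = 0 := by simp only [hP]; simp
  have Pa : P (k + A.h) = -A.lmk k := rfl
  have Ps : ∀ s ∈ S, A.q * A.w + A.sg - A.lmk k ≤ P s ∧ P s ≤ -(A.q * A.w + A.sg) := by
    intro s hs
    obtain ⟨⟨s0, s1⟩, s2⟩ := hS s hs
    obtain ⟨x, x0, x1, x2⟩ := c.low_pos k0 k1 s0 s1 s2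
    have : P s = -x := by
      simp only [hP]
      rw [emod_congr x0, Int.emod_eq_of_lt (by omega) (by omega)]
    omega
  have rows : ∀ x ∈ insert (k + A.h) (insert k S), ∀ y ∈ insert (k + A.h) (insert k S),
      P x < P y → -(A.h : ℤ) ≤ y - x ∧ y - x ≤ A.h - A.w - 1 := by
    intro x hx y hy hxy
    simp only [Finset.mem_insert] at hx hy
    rcases hx with rfl | rfl | hx <;> rcases hy with rfl | rfl | hy
    · omega
    · omega
    · have := hS y hy; omega
    · omega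
    · omega
    · have := Ps y hy; omega
    · have := Ps x hx; omega
    · have := hS x hx; omega
    · have := hS x hx; have := hS y hy; omega
  have step : ∀ x ∈ insert (k + A.h) (insert k S), ∀ y ∈ insert (k + A.h) (insert k S),
      P x < P y → (P y = P x + (A.q * A.w + A.sg) ∧ A.ix y = A.ix x + T.ep * T.t) ∨
        P x + (A.q * A.w + A.sg) + A.p ≤ P y := by
    intro x hx y hy hxy
    obtain ⟨r0, r1⟩ := rows x hx y hy hxy
    have b3 : (A.q : ℤ) * (y - x) ≤ A.q * (A.h - A.w - 1) := mul_le_mul_of_nonneg_left r1 hq.le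
    have b4 : (A.q : ℤ) * (-A.h) ≤ A.q * (y - x) := mul_le_mul_of_nonneg_left r0 hq.le
    have e3 : (A.q : ℤ) * (A.h - A.w - 1) = A.q * A.h - A.q * A.w - A.q := by ring
    have e4 : (A.q : ℤ) * (-A.h) = -(A.q * A.h) := by ring
    have := T.gap c.hs c.hn (s := y) (s' := x) (δ := P y - P x) (by
      have := dvd_sub (Pc y) (Pc x)
      rwa [show (A.cfg 0).U y - (A.cfg 0).U k - P y - ((A.cfg 0).U x - (A.cfg 0).U k - P x)
        = (A.cfg 0).U y - (A.cfg 0).U x - (P y - P x) by ring] at this) (by omega)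
      (fun _ => ⟨by omega, by have := A.hsg; omega⟩)
    rcases this with ⟨h5, h6⟩ | h5
    · left; exact ⟨by omega, h6⟩
    · right; omega
  have main := pack (e := A.p) hp.le P A.ix (k + A.h) S.card S k rfl
    (fun x hx => by have := Ps x hx; rw [Pa, Pk]; omega) (by rw [Pa, Pk]; omega) step
    (fun x hx y hy hxy h => by
      have h3 := dvd_sub (Pc x) (Pc y)
      rw [h, show (A.cfg 0).U x - (A.cfg 0).U k - P y - ((A.cfg 0).U y - (A.cfg 0).U k - P y)
        = (A.cfg 0).U x - (A.cfg 0).U y by ring] at h3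
      have := hS x hx; have := hS y hy
      exact nd (by omega) (by omega) (by omega) (G.UU x y h3))
  rw [Pa, Pk] at main
  set n : ℤ := (S.card : ℤ) + 1 with hn
  have n1 : 1 ≤ n := by omega
  have nlt : n * (A.q * A.w + A.sg) ≤ A.lmk k → n < A.p := by
    intro h
    by_contra hc
    have h3 : (A.p : ℤ) * (A.q * A.w + A.sg) ≤ n * (A.q * A.w + A.sg) :=
      mul_le_mul_of_nonneg_right (by omega) (by omega)
    have h4 : (A.p : ℤ) * A.q ≤ A.p * (A.q * A.w + A.sg) := by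
      apply mul_le_mul_of_nonneg_left _ hp.le
      have : (A.q : ℤ) * 2 ≤ A.q * A.w := mul_le_mul_of_nonneg_left (by omega) hq.le
      have := A.hsg
      omega
    omega
  rcases main with ⟨h3, h4⟩ | h3
  · exfalso
    have nt : n * T.t < A.p := by
      have i0 := A.ix_nonneg k; have i1 := A.ix_lt k
      have i2 := A.ix_nonneg (k + A.h); have i3 := A.ix_lt (k + A.h)
      have e : n * (T.ep * T.t) = T.ep * (n * T.t) := by ring
      rw [e] at h4
      rcases T.hep with h | h <;> rw [h] at h4 <;> omega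
    have h5 := c.hc n (by omega) nt
    have h6 : (A.p : ℤ) ∣ n * (A.w - T.x) - A.h := by
      obtain ⟨z1, hz1⟩ := T.row
      obtain ⟨z2, hz2⟩ := A.ix_row k
      obtain ⟨z3, hz3⟩ := A.ix_row (k + A.h)
      have e2 : T.ep * T.ep = 1 := by rcases T.hep with h | h <;> rw [h] <;> norm_num
      exact ⟨n * T.ep * z1 - z2 + z3, by
        linear_combination n * T.ep * hz1 - hz2 + hz3 + A.e * h4 + n * (T.x - A.w) * e2⟩
    have h7 : 0 ≤ n * (A.w - T.x) := mul_nonneg (by omega) (by have := c.hx; omega)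
    exact nd (by omega) (by omega) (by omega) h6
  · have h4 := nlt (by linarith)
    have e : n * (A.q * A.w + A.sg) = A.q * A.w * n + n * A.sg := by ring
    have h5 : -n ≤ n * A.sg := by rcases A.hsg with h | h <;> rw [h] <;> omega
    rw [e] at h3
    omega

end C3

end TAp

namespace TAp

variable {A : TAp} {T : A.Tie}

namespace C3

/-- one rectangle covers the whole low arc over the test column of a high crossing -/
theorem run (c : C3 A T) {Y k s : ℤ} (k0 : Y ≤ k) (k1 : k < Y + A.w) (s0 : Y + A.w ≤ s)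
    (s1 : s < Y + A.h) (hf : (A.cfg 0).f Y (vs A Y s) = A.w) :
    ∃ i : ℕ, i < A.p ∧ ∀ t : ℕ, (t : ℤ) < A.lmk k →
      (A.cfg 0).In i (us A s) ((A.cfg 0).V k - A.lmk k + t) := by
  have hN := (A.cfg 0).N_pos
  have hNe : (A.cfg 0).N = (A.p : ℤ) * A.q := rfl
  have S := T.sc c.hn
  have hg := c.g_eq s0 s1
  rw [hf] at hg
  have l0 := c.l0 k
  have l2 := c.l2 k
  have R1 : ∀ t : ℕ, (t : ℤ) < A.lmk k →
      1 ≤ (A.cfg 0).R (us A s) ((A.cfg 0).V k - A.lmk k + t) := by
    intro t ht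
    have h1 := (abs_le.1 (c.fl.all 0 (us A s) ((A.cfg 0).V k - A.lmk k + t) Y (us_vis A s))).1
    rw [hg, c.f_eq] at h1
    have h2 : (1 : ℤ) ≤ ∑ i ∈ range A.w, lo A (Y + i) ((A.cfg 0).V k - A.lmk k + t) := by
      have h3 : lo A k ((A.cfg 0).V k - A.lmk k + t) = 1 := by
        unfold lo
        rw [ph_at (t := t) (by
          rw [show (A.cfg 0).V k - A.lmk k + t - ((A.cfg 0).V k - A.lmk k + t) = 0 by ring]
          exact dvd_zero _) (by omega) (by omega), if_pos ht]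
      have h4 := Finset.single_le_sum
        (f := fun i : ℕ => lo A (Y + i) ((A.cfg 0).V k - A.lmk k + t))
        (fun i _ => by rcases lo01 A (Y + i) ((A.cfg 0).V k - A.lmk k + t) with h | h <;> omega)
        (Finset.mem_range.2 (show (k - Y).toNat < A.w by omega))
      rw [Int.toNat_of_nonneg (by omega), show Y + (k - Y) = k by ring, h3] at h4
      exact h4
    omega
  obtain ⟨j, hj⟩ := (A.cfg 0).exists_In (R1 0 (by push_cast; omega))
  obtain ⟨i, hi, hji⟩ := (A.cfg 0).exists_mod j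
  refine ⟨i, hi, ?_⟩
  intro t
  induction t with
  | zero =>
    intro _
    exact Cfg.In_congr hji (by simp) (by simp) hj
  | succ t ih =>
    intro ht
    push_cast at ht ⊢
    have h1 := ih (by omega)
    obtain ⟨j', hj'⟩ := (A.cfg 0).exists_In (R1 (t + 1) (by push_cast; omega))
    push_cast at hj'
    rw [← add_assoc] at hj' ⊢
    obtain ⟨x, x1, x2⟩ := Cfg.near_ver S.G h1.2 hj'.2
    have := S.visEq (us_n1 A s) ⟨hj'.1, x2⟩ ⟨h1.1, x1⟩
    exact Cfg.In_congr this (by simp) (by simp) hj'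

theorem off_bd {i : ℤ} {s : ℤ} (h : (A.cfg 0).hor i (us A s) = 1) :
    ∃ o, (A.p : ℤ) * A.q ∣ (A.cfg 0).U s - (A.cfg 0).U i - o ∧ 0 ≤ o ∧
      o + A.p ≤ A.q * A.w + A.sg := by
  have hp := A.p_pos'
  have hN := (A.cfg 0).N_pos
  have hNe : (A.cfg 0).N = (A.p : ℤ) * A.q := rfl
  have hW : (A.cfg 0).W = A.q * A.w := rfl
  have hk := A.k0_cases
  have w2 := A.w2
  have hw := A.hw
  unfold Cfg.hor at h
  rw [ph_eq_one_iff] at h
  have e0 := Int.emod_nonneg (us A s - (A.cfg 0).U i) hN.ne'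
  have ee := Int.emod_add_mul_ediv (us A s - (A.cfg 0).U i) (A.cfg 0).N
  set e := (us A s - (A.cfg 0).U i) % (A.cfg 0).N
  set z := (us A s - (A.cfg 0).U i) / (A.cfg 0).N
  rw [hW] at h
  rw [hNe] at ee
  unfold us at ee
  have hd : (A.p : ℤ) * A.q ∣ (A.cfg 0).U s - (A.cfg 0).U i - (e - A.p + A.k0) :=
    ⟨z, by linear_combination -ee⟩
  have po : (A.p : ℤ) ∣ e - A.p + A.k0 := by
    have h1 := (dvd_mul_right (A.p : ℤ) A.q).trans hd
    have h2 := dvd_sub (A.U_dvd 0 s) (A.U_dvd 0 i)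
    have := dvd_sub h2 h1
    rwa [sub_sub_cancel] at this
  refine ⟨e - A.p + A.k0, hd, ?_, ?_⟩
  · by_contra hc
    exact nd (A := A) (x := e - A.p + A.k0) (by omega)
      (by rcases hk with ⟨h3, h4⟩ | ⟨h3, h4⟩ <;> omega) (by omega) po
  · by_contra hc
    have h5 := dvd_sub po A.hpw
    exact nd (A := A) (x := e + A.k0 - (A.q * A.w + A.sg))
      (by rcases hk with ⟨h3, h4⟩ | ⟨h3, h4⟩ <;> omega)
      (by rcases hk with ⟨h3, h4⟩ | ⟨h3, h4⟩ <;> omega)
      (by rcases hk with ⟨h3, h4⟩ | ⟨h3, h4⟩ <;> omega) (by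
        have := dvd_add h5 (dvd_refl (A.p : ℤ))
        rwa [show e - A.p + A.k0 - (A.q * A.w + A.sg) + A.p
          = e + A.k0 - (A.q * A.w + A.sg) by ring] at this)

/-- number of high crossings -/
theorem high_le (c : C3 A T) {Y k : ℤ} (k0 : Y ≤ k) (k1 : k < Y + A.w) (S : Finset ℤ)
    (hS : ∀ s ∈ S, (Y + A.w ≤ s ∧ s < Y + A.h) ∧ (A.cfg 0).f Y (vs A Y s) = A.w) :
    (S.card : ℤ) ≤ ∑ i ∈ range (A.cfg 0).p, ph (A.cfg 0).N ((A.cfg 0).V k)
      (((A.cfg 0).V (k + (A.cfg 0).h) - (A.cfg 0).V k) % (A.cfg 0).N) ((A.cfg 0).V i) := by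
  have hp := A.p_pos'
  have hq := A.q_pos'
  have hN := (A.cfg 0).N_pos
  have hNe : (A.cfg 0).N = (A.p : ℤ) * A.q := rfl
  have hpq : (A.p : ℤ) < A.q := by exact_mod_cast A.pq
  have hH : (A.cfg 0).H = A.q * A.h := rfl
  have hHl := (A.cfg 0).H_lt
  have w2 := A.w2
  have h2 := A.h2
  have hw := A.hw
  have hwh := c.hwh
  have G := A.cfg_gen 0
  have l0 := c.l0 k
  have l1 := c.l1 k
  have l2 := c.l2 k
  obtain ⟨W2a, W2b⟩ := c.W2
  rw [c.vdiff]
  have h2H : 2 * (A.q * (A.h : ℤ)) ≤ A.p * A.q := by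
    have := mul_le_mul_of_nonneg_left (show 2 * (A.h : ℤ) ≤ A.p by omega) hq.le
    have e : (A.q : ℤ) * (2 * A.h) = 2 * (A.q * A.h) := by ring
    have e' : (A.q : ℤ) * A.p = A.p * A.q := by ring
    omega
  have ex : ∀ s : ℤ, ∃ i : ℕ, s ∈ S → (i < A.p ∧ (A.cfg 0).hor i (us A s) = 1 ∧
      ph (A.cfg 0).N ((A.cfg 0).V k) (A.q * A.h - A.lmk k) ((A.cfg 0).V i) = 1) := by
    intro s
    by_cases hsS : s ∈ S
    swap
    · exact ⟨0, fun h => absurd h hsS⟩
    obtain ⟨⟨s0, s1⟩, s2⟩ := hS s hsS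
    obtain ⟨i, hi, hr⟩ := c.run k0 k1 s0 s1 s2
    refine ⟨i, fun _ => ⟨hi, (hr 0 (by push_cast; omega)).1, ?_⟩⟩
    -- offset
    have b1 := (hr 0 (by push_cast; omega)).2
    have b2 := (hr (A.lmk k - 1).toNat (by omega)).2
    rw [Int.toNat_of_nonneg (by omega)] at b2
    unfold Cfg.ver at b1 b2
    rw [ph_eq_one_iff] at b1
    push_cast at b1
    rw [add_zero] at b1
    have e0 := Int.emod_nonneg ((A.cfg 0).V k - A.lmk k - ((A.cfg 0).V i - (A.cfg 0).H)) hN.ne'
    have ee := Int.emod_add_mul_ediv ((A.cfg 0).V k - A.lmk k - ((A.cfg 0).V i - (A.cfg 0).H))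
      (A.cfg 0).N
    set e := ((A.cfg 0).V k - A.lmk k - ((A.cfg 0).V i - (A.cfg 0).H)) % (A.cfg 0).N
    set z := ((A.cfg 0).V k - A.lmk k - ((A.cfg 0).V i - (A.cfg 0).H)) / (A.cfg 0).N
    rw [ph_at (t := e + A.lmk k - 1) ⟨z, by linear_combination -ee⟩ (by omega) (by omega)] at b2
    have b3 : e + A.lmk k - 1 < (A.cfg 0).H := by
      by_contra hc
      rw [if_neg hc] at b2
      omega
    have e1 : e ≠ 0 := by
      intro he
      rw [he, zero_add] at ee
      -- then `i = k + h`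
      have h3 : (A.cfg 0).N ∣ (A.cfg 0).V i - (A.cfg 0).V (k + A.h) := by
        obtain ⟨z1, hz1⟩ := A.lmk_cong k
        rw [hNe] at ee ⊢
        rw [hH] at ee
        refine ⟨-z + z1, ?_⟩
        have e7 : (A.cfg 0).V (k + A.h) = (A.cfg 0).U (k + A.h) + A.q * (k + A.h) := rfl
        have e8 : (A.cfg 0).V k = (A.cfg 0).U k + A.q * k := rfl
        rw [e7]
        rw [e8] at ee
        linear_combination ee + hz1
      have h4 := G.VV _ _ h3
      have h5 := (hr 0 (by push_cast; omega)).1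
      rw [(A.cfg 0).hor_congr h4 (by simp : (A.cfg 0).N ∣ us A s - us A s)] at h5
      obtain ⟨o, o0, o1, o2⟩ := off_bd h5
      rcases o1.eq_or_lt with h6 | h6
      · rw [← h6, sub_zero] at o0
        exact nd (by omega) (by omega) (by omega) (G.UU s (k + A.h) o0)
      · have b3 : (A.q : ℤ) * (s - (k + A.h)) ≤ A.q * (-1) :=
          mul_le_mul_of_nonneg_left (by omega) hq.le
        have b4 : (A.q : ℤ) * (-(A.h - 1)) ≤ A.q * (s - (k + A.h)) :=
          mul_le_mul_of_nonneg_left (by omega) hq.le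
        have e4 : (A.q : ℤ) * (-(A.h - 1)) = -(A.q * A.h) + A.q := by ring
        have := T.gap c.hs c.hn (s := s) (s' := k + A.h) (δ := o) o0 h6
          (fun _ => ⟨by omega, by omega⟩)
        rcases this with h7 | h7 <;> omega
    rw [ph_at (t := A.q * A.h - A.lmk k - e) ⟨-z, by rw [← hH]; linear_combination ee⟩
      (by omega) (by omega), if_pos (by omega)]
  choose φ hφ using ex
  have card : S.card ≤ ((range (A.cfg 0).p).filter (fun i : ℕ => ph (A.cfg 0).N ((A.cfg 0).V k)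
      (A.q * A.h - A.lmk k) ((A.cfg 0).V i) = 1)).card := by
    apply Finset.card_le_card_of_injOn φ
    · intro s hsS
      have := hφ s hsS
      exact Finset.mem_coe.2 (Finset.mem_filter.2 ⟨Finset.mem_range.2 this.1, this.2.2⟩)
    · intro s hsS s' hsS' heq
      by_contra hne
      have h3 := (hφ s hsS).2.1
      have h4 := (hφ s' hsS').2.1
      rw [heq] at h3
      obtain ⟨o, o0, o1, o2⟩ := off_bd h3
      obtain ⟨o', p0, p1, p2⟩ := off_bd h4
      have r1 := (hS s hsS).1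
      have r2 := (hS s' hsS').1
      have key : ∀ a b : ℤ, (Y + A.w ≤ a ∧ a < Y + A.h) → (Y + A.w ≤ b ∧ b < Y + A.h) →
          ∀ x y : ℤ, (A.p : ℤ) * A.q ∣ (A.cfg 0).U a - (A.cfg 0).U (φ s') - x →
          (A.p : ℤ) * A.q ∣ (A.cfg 0).U b - (A.cfg 0).U (φ s') - y → 0 ≤ x →
          y + A.p ≤ A.q * A.w + A.sg → x < y → False := by
        intro a b ra rb x y hx hy x0 y1 hxy
        have b3 : (A.q : ℤ) * (b - a) ≤ A.q * (A.h - A.w - 1) :=
          mul_le_mul_of_nonneg_left (by omega) hq.le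
        have b4 : (A.q : ℤ) * (-(A.h - 1)) ≤ A.q * (b - a) :=
          mul_le_mul_of_nonneg_left (by omega) hq.le
        have e3 : (A.q : ℤ) * (A.h - A.w - 1) = A.q * A.h - A.q * A.w - A.q := by ring
        have e4 : (A.q : ℤ) * (-(A.h - 1)) = -(A.q * A.h) + A.q := by ring
        have := T.gap c.hs c.hn (s := b) (s' := a) (δ := y - x) (by
          have := dvd_sub hy hx
          rwa [show (A.cfg 0).U b - (A.cfg 0).U (φ s') - y
            - ((A.cfg 0).U a - (A.cfg 0).U (φ s') - x)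
            = (A.cfg 0).U b - (A.cfg 0).U a - (y - x) by ring] at this) (by omega)
          (fun _ => ⟨by omega, by have := A.hsg; omega⟩)
        rcases this with h7 | h7 <;> omega
      rcases lt_trichotomy o o' with h5 | h5 | h5
      · exact key s s' r1 r2 o o' o0 p0 o1 p2 h5
      · have h6 := dvd_sub o0 p0
        rw [h5, show (A.cfg 0).U s - (A.cfg 0).U (φ s') - o'
          - ((A.cfg 0).U s' - (A.cfg 0).U (φ s') - o')
          = (A.cfg 0).U s - (A.cfg 0).U s' by ring] at h6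
        exact nd (by omega) (by omega) (by omega) (G.UU s s' h6)
      · exact key s' s r2 r1 o' o p0 o0 p1 o2 h5
  calc (S.card : ℤ) ≤ (((range (A.cfg 0).p).filter (fun i : ℕ => ph (A.cfg 0).N ((A.cfg 0).V k)
      (A.q * A.h - A.lmk k) ((A.cfg 0).V i) = 1)).card : ℤ) := by exact_mod_cast card
    _ = ∑ i ∈ (range (A.cfg 0).p).filter (fun i : ℕ => ph (A.cfg 0).N ((A.cfg 0).V k)
      (A.q * A.h - A.lmk k) ((A.cfg 0).V i) = 1), ph (A.cfg 0).N ((A.cfg 0).V k)
      (A.q * A.h - A.lmk k) ((A.cfg 0).V i) := by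
        rw [Finset.sum_congr rfl (fun i hi => (Finset.mem_filter.1 hi).2), Finset.sum_const,
          nsmul_eq_mul, mul_one]
    _ ≤ _ := Finset.sum_le_sum_of_subset_of_nonneg (Finset.filter_subset _ _)
        (fun _ _ _ => ph_nonneg _ _ _ _)

end C3

end TAp

namespace TAp

variable {A : TAp} {T : A.Tie}

theorem sum2_period (p : ℕ) (F : ℤ → ℤ) (hF : ∀ k, F (k + p) = F k) (w : ℕ) :
    ∑ Y ∈ range p, ∑ j ∈ range w, F (Y + j) = w * ∑ k ∈ range p, F k := by
  rw [Finset.sum_comm]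
  have : ∀ j ∈ range w, ∑ Y ∈ range p, F (Y + j) = ∑ k ∈ range p, F k := by
    intro j _
    rw [← sum_period p F hF j]
    exact Finset.sum_congr rfl fun i _ => by rw [add_comm]
  rw [Finset.sum_congr rfl this, Finset.sum_const, Finset.card_range, nsmul_eq_mul]

/-- **the counting theorem** -/
theorem C3.false (c : C3 A T) : False := by
  have hp := A.p_pos'
  have hq := A.q_pos'
  have hN := (A.cfg 0).N_pos
  have hw := A.hw
  have hwh := c.hwh
  set F : ℤ → ℤ := fun k => ∑ i ∈ range (A.cfg 0).p, ph (A.cfg 0).N ((A.cfg 0).V k)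
      (((A.cfg 0).V (k + (A.cfg 0).h) - (A.cfg 0).V k) % (A.cfg 0).N) ((A.cfg 0).V i) with hF
  set G : ℤ → ℤ := fun k => ((A.cfg 0).V (k + (A.cfg 0).h) - (A.cfg 0).V k) % (A.cfg 0).N with hG
  have hGv : ∀ k, G k = A.q * A.h - A.lmk k := fun k => c.vdiff k
  have pp : ∀ k : ℤ, (A.cfg 0).N ∣ (A.cfg 0).V (k + A.p) - (A.cfg 0).V k := fun k =>
    (A.cfg 0).V_congr (by rw [add_sub_cancel_left]; exact dvd_refl _)
  have Gper : ∀ k, G (k + A.p) = G k := by
    intro k
    simp only [hG]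
    apply emod_congr
    have := dvd_sub (pp (k + (A.cfg 0).h)) (pp k)
    rwa [show (A.cfg 0).V (k + (A.cfg 0).h + A.p) - (A.cfg 0).V (k + (A.cfg 0).h)
      - ((A.cfg 0).V (k + A.p) - (A.cfg 0).V k)
      = (A.cfg 0).V (k + A.p + (A.cfg 0).h) - (A.cfg 0).V (k + A.p)
        - ((A.cfg 0).V (k + (A.cfg 0).h) - (A.cfg 0).V k) by
      rw [show k + (A.cfg 0).h + (A.p : ℤ) = k + A.p + (A.cfg 0).h by ring]; ring] at this
  have Fper : ∀ k, F (k + A.p) = F k := by
    intro k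
    simp only [hF]
    refine Finset.sum_congr rfl fun i _ => ?_
    have h1 := Gper k
    simp only [hG] at h1
    rw [h1]
    apply ph_congr
    have := (dvd_neg).2 (pp k)
    rwa [show (A.cfg 0).V i - (A.cfg 0).V (k + A.p) - ((A.cfg 0).V i - (A.cfg 0).V k)
      = -((A.cfg 0).V (k + A.p) - (A.cfg 0).V k) by ring]
  have total : (A.q : ℤ) * ∑ k ∈ range A.p, F k = ∑ k ∈ range A.p, G k := sum_arcs (A.cfg 0)
  -- one level
  have level : ∀ Y : ℤ, ∑ j ∈ range A.w, G (Y + j) + A.w ≤ A.q * ∑ j ∈ range A.w, F (Y + j) := by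
    intro Y
    set Hs : Finset ℤ := (Finset.Ico (Y + A.w) (Y + A.h)).filter
      (fun s => (A.cfg 0).f Y (vs A Y s) = A.w) with hHs
    set Ls : ℕ → Finset ℤ := fun j => (Finset.Ico (Y + A.w) (Y + A.h)).filter
      (fun s => lo A (Y + j) (vs A Y s) = 1) with hLs
    have cov : Finset.Ico (Y + A.w) (Y + A.h) ⊆ Hs ∪ (range A.w).biUnion Ls := by
      intro s hs
      by_cases h : (A.cfg 0).f Y (vs A Y s) = A.w
      · exact Finset.mem_union_left _ (Finset.mem_filter.2 ⟨hs, h⟩)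
      · apply Finset.mem_union_right
        rw [c.f_eq] at h
        have h1 : ∑ i ∈ range A.w, lo A (Y + i) (vs A Y s) ≠ 0 := fun h2 => h (by rw [h2]; ring)
        obtain ⟨j, hj, hj'⟩ := Finset.exists_ne_zero_of_sum_ne_zero h1
        refine Finset.mem_biUnion.2 ⟨j, hj, Finset.mem_filter.2 ⟨hs, ?_⟩⟩
        rcases lo01 A (Y + j) (vs A Y s) with h2 | h2
        · exact absurd h2 hj'
        · exact h2
    have c1 := Finset.card_le_card cov
    have c2 := Finset.card_union_le Hs ((range A.w).biUnion Ls)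
    have c3 := Finset.card_biUnion_le (s := range A.w) (t := Ls)
    rw [Int.card_Ico] at c1
    have c4 : (A.h : ℤ) - A.w ≤ Hs.card + ∑ j ∈ range A.w, ((Ls j).card : ℤ) := by
      have : ((∑ j ∈ range A.w, (Ls j).card : ℕ) : ℤ) = ∑ j ∈ range A.w, ((Ls j).card : ℤ) := by
        push_cast; rfl
      omega
    have c5 : (A.w : ℤ) * Hs.card ≤ ∑ j ∈ range A.w, F (Y + j) := by
      have : ∀ j ∈ range A.w, (Hs.card : ℤ) ≤ F (Y + j) := by
        intro j hj
        have hj := Finset.mem_range.1 hj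
        exact c.high_le (Y := Y) (k := Y + j) (by omega) (by omega) Hs (fun s hs => by
          have h1 := Finset.mem_filter.1 hs
          have h2 := Finset.mem_Ico.1 h1.1
          exact ⟨h2, h1.2⟩)
      have := Finset.sum_le_sum this
      rw [Finset.sum_const, Finset.card_range, nsmul_eq_mul] at this
      exact this
    have c6 : ∑ j ∈ range A.w, (A.q * A.w * (((Ls j).card : ℤ) + 1) + 1)
        ≤ ∑ j ∈ range A.w, A.lmk (Y + j) := by
      apply Finset.sum_le_sum
      intro j hj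
      have hj := Finset.mem_range.1 hj
      exact c.low_bd (Y := Y) (k := Y + j) (by omega) (by omega) (Ls j) (fun s hs => by
        have h1 := Finset.mem_filter.1 hs
        have h2 := Finset.mem_Ico.1 h1.1
        exact ⟨h2, h1.2⟩)
    have c7 : ∑ j ∈ range A.w, (A.q * A.w * (((Ls j).card : ℤ) + 1) + 1)
        = A.q * A.w * ∑ j ∈ range A.w, ((Ls j).card : ℤ) + A.w * (A.q * A.w + 1) := by
      rw [Finset.sum_add_distrib, ← Finset.mul_sum, Finset.sum_add_distrib]
      simp only [Finset.sum_const, Finset.card_range, nsmul_eq_mul, mul_one]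
      ring
    have c8 : ∑ j ∈ range A.w, G (Y + j) = A.w * (A.q * A.h) - ∑ j ∈ range A.w, A.lmk (Y + j) := by
      rw [Finset.sum_congr rfl (fun (j : ℕ) _ => hGv (Y + j)), Finset.sum_sub_distrib,
        Finset.sum_const, Finset.card_range, nsmul_eq_mul]
    have d1 : (A.q : ℤ) * (A.w * Hs.card) ≤ A.q * ∑ j ∈ range A.w, F (Y + j) :=
      mul_le_mul_of_nonneg_left c5 hq.le
    have d2 : (A.q * A.w : ℤ) * (A.h - A.w) ≤ A.q * A.w * (Hs.card + ∑ j ∈ range A.w, ((Ls j).card : ℤ)) :=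
      mul_le_mul_of_nonneg_left c4 (by positivity)
    rw [c7] at c6
    rw [c8]
    have e1 : (A.q * A.w : ℤ) * (A.h - A.w) = A.w * (A.q * A.h) - A.w * (A.q * A.w) := by ring
    have e2 : (A.q * A.w : ℤ) * (Hs.card + ∑ j ∈ range A.w, ((Ls j).card : ℤ))
      = A.q * (A.w * Hs.card) + A.q * A.w * ∑ j ∈ range A.w, ((Ls j).card : ℤ) := by ring
    have e3 : (A.w : ℤ) * (A.q * A.w + 1) = A.w * (A.q * A.w) + A.w := by ring
    rw [e1, e2] at d2
    rw [e3] at c6
    linarith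
  have fin := Finset.sum_le_sum (s := range A.p) (fun (Y : ℕ) _ => level Y)
  rw [Finset.sum_add_distrib, ← Finset.mul_sum, sum2_period A.p G Gper, sum2_period A.p F Fper,
    Finset.sum_const, Finset.card_range, nsmul_eq_mul, ← total] at fin
  have e1 : (A.w : ℤ) * (A.q * ∑ k ∈ range A.p, F k) = A.q * (A.w * ∑ k ∈ range A.p, F k) := by
    ring
  rw [e1] at fin
  have : 0 < (A.p : ℤ) * A.w := by positivity
  linarith

/-- **theorem III** (counting theorem), form of helper78 -/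
theorem Tie.countIII (F : A.Fl) (T : A.Tie) (hs : T.Single) (hn : T.NoOv) (hx : T.x < 0)
    (hwh : (A.w : ℤ) < A.h)
    (hc : ∀ n : ℤ, 0 ≤ n → n * T.t < A.p → n * (A.w - T.x) < A.h)
    {m mu f : ℤ} (c : A.Cls m mu f A.h) (h0 : mu < 0) (h1 : A.D < A.q * (mu + A.h) + f) :
    False := by
  have hp := A.p_pos'
  have hq := A.q_pos'
  have f0 := c.2.2.1
  have f1 := c.2.2.2.1
  have D0 := A.D_nonneg
  have l0 : A.q * mu + f < 0 := by
    have : (A.q : ℤ) * mu ≤ A.q * (-1) := mul_le_mul_of_nonneg_left (by omega) hq.le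
    omega
  have e : A.q * (mu + A.h) + f = A.q * mu + f + A.q * A.h := by ring
  rw [e] at h1
  have hHp : (A.q : ℤ) * A.h ≤ A.p * A.q := by
    have := mul_le_mul_of_nonneg_left (show (A.h : ℤ) ≤ A.p by have := A.h2; omega) hq.le
    have e' : (A.q : ℤ) * A.p = A.p * A.q := by ring
    omega
  have hm : A.ix A.h = m := ix_of (by have := c.1; omega) c.2.1 c.2.2.2.2.2
  have key : ∀ k, A.lmk k = -(A.q * mu + f) ∨ A.lmk k = -(A.q * mu + f) + A.D := by
    intro k
    have i0 := A.ix_nonneg k; have i1 := A.ix_lt k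
    have i2 := A.ix_nonneg (k + A.h); have i3 := A.ix_lt (k + A.h)
    have hix : A.ix (k + A.h) = A.ix k + m ∨ A.ix (k + A.h) = A.ix k + m - A.p := by
      have h2 : (A.ix (k + A.h) - A.ix k) % A.p = m := by
        rw [← hm]
        unfold ix
        rw [← Int.sub_emod]
        congr 1; ring
      have h3 := Int.emod_add_mul_ediv (A.ix (k + A.h) - A.ix k) A.p
      rw [h2] at h3
      have h4 := c.1
      have h5 := c.2.1
      set z := (A.ix (k + A.h) - A.ix k) / (A.p : ℤ)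
      have hz : z = 0 ∨ z = -1 := by
        rcases lt_trichotomy z 0 with h | h | h
        · right
          by_contra hc'
          have : z ≤ -2 := by omega
          have := mul_le_mul_of_nonneg_left this hp.le
          omega
        · left; exact h
        · exfalso
          have : 1 ≤ z := h
          have := mul_le_mul_of_nonneg_left this hp.le
          omega
      rcases hz with h | h <;> rw [h] at h3
      · left; omega
      · right; omega
    unfold lmk
    rcases hix with h | h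
    · left
      rw [emod_congr (b := -(A.q * mu + f)), Int.emod_eq_of_lt (by omega) (by omega)]
      obtain ⟨z, hz⟩ := c.2.2.2.2.1
      rw [A.ix_U, A.ix_U, h]
      exact ⟨-z, by linear_combination -hz⟩
    · right
      rw [emod_congr (b := -(A.q * mu + f) + A.D), Int.emod_eq_of_lt (by omega) (by omega)]
      obtain ⟨z, hz⟩ := c.2.2.2.2.1
      obtain ⟨z', hz'⟩ := A.hd
      rw [A.ix_U, A.ix_U, h]
      have hD : A.D = A.q * A.md + A.fd := rfl
      exact ⟨-z + z', by rw [hD]; linear_combination -hz + hz'⟩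
  exact C3.false (T := T) ⟨F, hs, hn, hx, hc, hwh, fun k => by rcases key k with h | h <;> omega,
    fun k => by rcases key k with h | h <;> omega⟩

end TAp

end Pool.Agent.H78.Tie
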