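import Pool.Agent.H98.Tie.StatWAp

/-!
# `ep = 1`, `x < 0`, `w + |x| ≤ h` : the chain of the tie passes the height `h`

Case V2 of helper78: `j sig < h < (j+1) sig`, `(j+1) t < p`.
-/

namespace Pool.Agent.H78.Tie

open Finset
open Pool.Agent.H98.Flat
open Pool.Agent.H67.Flat

set_option linter.unusedVariables false
set_option linter.dupNamespace false

namespace TAp

variable {A : TAp}

/-- `NoOv` for arbitrary lifts -/
theorem Tie.nov' {T : A.Tie} (hn : T.NoOv) {i X s : ℤ} (i0 : 0 < i) (i1 : i < A.p) (it : i ≠ T.t)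
    (hX : (A.p : ℤ) * A.q ∣ X - A.a * i) (hs : (A.p : ℤ) ∣ A.e * i - s)
    (x0 : -(A.q * (A.w : ℤ)) ≤ X) (x1 : X < A.q * A.w) :
    ¬ (-(A.q * (A.h : ℤ)) ≤ X + A.q * s ∧ X + A.q * s < A.q * A.h) := by
  rintro ⟨y0, y1⟩
  have hq := A.q_pos'
  have f0 := Int.emod_nonneg X hq.ne'
  have f1 := Int.emod_lt_of_pos X hq
  have fe := Int.emod_add_mul_ediv X A.q
  obtain ⟨c, hc⟩ := hX
  have fne : X % A.q ≠ 0 := by
    intro hf
    refine A.gen i i0.ne' (by rw [abs_of_pos i0]; omega) ?_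
    rw [hf] at fe
    exact ⟨X / A.q - A.p * c, by linear_combination -fe - hc⟩
  have bd : ∀ y n : ℤ, A.q * y + X % A.q = n → ∀ c : ℤ, (-(A.q * c) ≤ n → -c ≤ y) ∧
      (n < A.q * c → y < c) := by
    intro y n h c
    constructor
    · intro h1
      have h2 : A.q * (-c) < A.q * (y + 1) := by rw [mul_neg, mul_add]; omega
      have := lt_of_mul_lt_mul_left h2 hq.le
      omega
    · intro h1
      have h2 : A.q * y < A.q * c := by omega
      exact lt_of_mul_lt_mul_left h2 hq.le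
  refine hn i (X / A.q) (X % A.q) s
    ⟨i0, i1, by omega, f1, ⟨-c, by linear_combination -fe - hc⟩, hs⟩ it ⟨?_, ?_, ?_, ?_⟩
  · exact (bd _ _ (by omega) A.w).1 x0
  · exact (bd _ _ (by omega) A.w).2 x1
  · exact (bd (X / A.q + s) (X + A.q * s) (by rw [mul_add]; omega) A.h).1 y0
  · exact (bd (X / A.q + s) (X + A.q * s) (by rw [mul_add]; omega) A.h).2 y1

/-- multiples of `p` -/
theorem D_dvd (A : TAp) : (A.p : ℤ) ∣ A.D := by
  have h1 : (A.p : ℤ) ∣ A.a * A.p - A.D := (dvd_mul_right _ _).trans A.hd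
  have h2 : (A.p : ℤ) ∣ A.a * A.p := dvd_mul_left _ _
  have := dvd_sub h2 h1
  rwa [sub_sub_cancel] at this

/-- **V2**: the chain of the tie passes the height `h` strictly -/
theorem Tie.V2 (F : A.Fl) (T : A.Tie) (hn : T.NoOv) (hep : T.ep = 1) (hx : T.x < 0)
    (hs : (A.w : ℤ) - T.x ≤ A.h) {j : ℤ} (h1 : j * (A.w - T.x) < A.h)
    (h2 : A.h < (j + 1) * (A.w - T.x)) (h3 : (j + 1) * T.t < A.p) : False := by
  have hp := A.p_pos'
  have hq := A.q_pos'
  have hpq : (A.p : ℤ) < A.q := by exact_mod_cast A.pq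
  have hw : (2 : ℤ) ≤ A.w := by have := A.hw; omega
  have hh : (2 : ℤ) ≤ A.h := by have := A.hh; omega
  have w2 : 2 * (A.w : ℤ) < A.p := by have := A.w2; omega
  have h2' : 2 * (A.h : ℤ) < A.p := by have := A.h2; omega
  have t0 := T.t0
  have tp := T.tp
  have md0 := A.hmd
  have md2 := A.hmd2
  have fd0 := A.hfd
  have fd1 := A.hfd2
  have hsg := A.hsg
  obtain ⟨ξ, hξ⟩ : ∃ ξ, ξ = -T.x := ⟨_, rfl⟩
  obtain ⟨σ, hσ⟩ : ∃ σ, σ = (A.w : ℤ) - T.x := ⟨_, rfl⟩
  rw [← hσ] at h1 h2 hs
  have hσ' : σ = A.w + ξ := by omega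
  have ξ1 : 1 ≤ ξ := by omega
  have j0 : 1 ≤ j := by
    by_contra hc
    have : j + 1 ≤ 1 := by omega
    have := mul_le_mul_of_nonneg_right this (show (0 : ℤ) ≤ σ by omega)
    rw [one_mul] at this
    omega
  have jp : j + 1 < A.p := by
    have := mul_le_mul_of_nonneg_left (show (1 : ℤ) ≤ T.t by omega) (show (0 : ℤ) ≤ j + 1 by omega)
    rw [mul_one] at this
    omega
  -- the tie
  obtain ⟨zt, hzt⟩ := T.tie
  obtain ⟨zr, hzr⟩ := T.row
  rw [hep] at hzt hzr
  obtain ⟨zd, hzd⟩ := A.hd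
  set W1 : ℤ := A.q * A.w + A.sg with hW1
  have pW1 : (A.p : ℤ) ∣ W1 := A.hpw
  have hrow : (A.p : ℤ) ∣ A.e * T.t + σ := ⟨zr, by rw [hσ]; linear_combination hzr⟩
  have hDD : A.D = A.q * A.md + A.fd := rfl
  -- products
  have eJ : j * σ = j * A.w + j * ξ := by rw [hσ']; ring
  have eK : (j + 1) * σ = j * σ + σ := by ring
  rw [eK] at h2
  have jw : 2 ≤ j * (A.w : ℤ) := by
    have := mul_le_mul j0 hw (by norm_num) (by omega)
    omega
  have jx : 1 ≤ j * ξ := by
    have := mul_le_mul j0 ξ1 (by norm_num) (by omega)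
    omega
  have jw' : A.w ≤ j * (A.w : ℤ) := by
    have := mul_le_mul_of_nonneg_right j0 (show (0 : ℤ) ≤ A.w by omega)
    omega
  have jx' : ξ ≤ j * ξ := by
    have := mul_le_mul_of_nonneg_right j0 (show (0 : ℤ) ≤ ξ by omega)
    omega
  have W1pos : 0 < W1 := by
    have := mul_le_mul_of_nonneg_left hw hq.le
    rcases hsg with h | h <;> omega
  have qle : ∀ {x y : ℤ}, x ≤ y → A.q * x ≤ A.q * y := fun h => mul_le_mul_of_nonneg_left h hq.le
  -- classes `p - k t`
  have clsE : ∀ k : ℤ, (A.p : ℤ) * A.q ∣ A.D - k * W1 - A.a * (A.p - k * T.t) ∧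
      (A.p : ℤ) ∣ A.e * (A.p - k * T.t) - k * σ := by
    intro k
    constructor
    · exact ⟨k * zt - zd, by rw [hDD]; linear_combination k * hzt - hzd⟩
    · obtain ⟨z, hz⟩ := hrow
      exact ⟨A.e - k * z, by linear_combination -k * hz⟩
  have genE : ∀ k : ℤ, k * T.t < A.p → 0 ≤ k → A.D ≠ k * W1 := by
    intro k hk hk0 hc
    have := (clsE k).1
    rw [hc, sub_self, zero_sub] at this
    have h4 := (dvd_neg).1 this
    have kt : 0 ≤ k * T.t := mul_nonneg hk0 t0.le
    exact A.gen (A.p - k * T.t) (by omega) (by rw [abs_le]; constructor <;> omega)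
      ((dvd_mul_left _ _).trans h4)
  -- claim 1
  have c1 : j * W1 + A.p ≤ A.D := by
    obtain ⟨k0, δ, hk, δ0, δ1⟩ : ∃ k0 δ, A.D = W1 * k0 + δ ∧ 0 ≤ δ ∧ δ < W1 :=
      ⟨A.D / W1, A.D % W1, by have := Int.emod_add_mul_ediv A.D W1; omega,
        Int.emod_nonneg _ W1pos.ne', Int.emod_lt_of_pos _ W1pos⟩
    have Dp : 0 < A.D := by rw [hDD]; positivity
    have k00 : 0 ≤ k0 := by
      by_contra hc
      have : k0 ≤ -1 := by omega
      have := mul_le_mul_of_nonneg_left this W1pos.le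
      omega
    rcases lt_or_ge k0 j with hlt | hge
    · exfalso
      have hk1 : (k0 + 1) * T.t < A.p := by
        have := mul_le_mul_of_nonneg_right (show k0 + 1 ≤ j + 1 by omega) t0.le
        omega
      have hk1' : 0 < (k0 + 1) * T.t := mul_pos (by omega) t0
      have hδ : δ ≠ 0 := by
        intro hc
        apply genE k0 _ k00
        · rw [hk, hc]; ring
        · have := mul_le_mul_of_nonneg_right (show k0 ≤ k0 + 1 by omega) t0.le
          omega
      have pδ : (A.p : ℤ) ∣ δ := by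
        have := dvd_sub A.D_dvd (pW1.mul_right k0)
        rwa [hk, add_sub_cancel_left] at this
      have δp : (A.p : ℤ) ≤ δ := Int.le_of_dvd (by omega) pδ
      have a1 : (k0 + 1) * σ ≤ j * σ := mul_le_mul_of_nonneg_right (by omega) (by omega)
      have hit : A.p - (k0 + 1) * T.t ≠ T.t := by
        intro hc
        have hd : (A.p : ℤ) ∣ (k0 + 2) * σ := by
          obtain ⟨z, hz⟩ := hrow
          exact ⟨(k0 + 2) * z - A.e, by linear_combination (k0 + 2) * hz + A.e * hc⟩
        have := Int.le_of_dvd (mul_pos (by omega) (by omega)) hd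
        have e : (k0 + 2) * σ = (k0 + 1) * σ + σ := by ring
        omega
      refine Tie.nov' hn (i := A.p - (k0 + 1) * T.t) (by omega) (by omega) hit (clsE (k0 + 1)).1
        (clsE (k0 + 1)).2 ?_ ?_ ?_
      · have : (k0 + 1) * W1 = W1 * k0 + W1 := by ring
        rcases hsg with h | h <;> omega
      · have : (k0 + 1) * W1 = W1 * k0 + W1 := by ring
        have : 0 < A.q * (A.w : ℤ) := by positivity
        omega
      · have e1 : A.D - (k0 + 1) * W1 + A.q * ((k0 + 1) * σ)
          = A.D + (k0 + 1) * (A.q * ξ - A.sg) := by rw [hW1, hσ']; ring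
        have e2 : (k0 + 1) * W1 = W1 * k0 + W1 := by ring
        have b1 := qle a1
        have b2 := qle (show j * σ + 1 ≤ A.h by omega)
        rw [mul_add, mul_one] at b2
        constructor
        · rw [e1]
          have : 0 ≤ (k0 + 1) * (A.q * ξ - A.sg) := by
            apply mul_nonneg (by omega)
            have := qle ξ1
            rw [mul_one] at this
            rcases hsg with h | h <;> omega
          have : 0 ≤ A.q * (A.h : ℤ) := by positivity
          omega
        · omega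
    · have a1 : W1 * j ≤ W1 * k0 := mul_le_mul_of_nonneg_left hge W1pos.le
      have e : j * W1 = W1 * j := mul_comm _ _
      have hne := genE j (by
        have := mul_le_mul_of_nonneg_right (show j ≤ j + 1 by omega) t0.le
        omega) (by omega)
      have pd : (A.p : ℤ) ∣ A.D - j * W1 := dvd_sub A.D_dvd (pW1.mul_left j)
      have := Int.le_of_dvd (by omega) pd
      omega
  -- bounds on `D`
  have D2 : 2 * A.D < A.q * (A.p + 1) := by
    have b := qle (show 2 * A.md + 2 ≤ A.p + 1 by omega)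
    have e : A.q * (2 * A.md + 2) = 2 * (A.q * A.md) + 2 * A.q := by ring
    omega
  have sgk : ∀ k : ℤ, 0 ≤ k → -k ≤ k * A.sg ∧ k * A.sg ≤ k := by
    intro k hk
    rcases hsg with h | h <;> rw [h] <;> constructor <;> omega
  -- claim 2
  have c2 : A.D < (j + 1) * W1 → A.D + (j + 1) * (A.q * ξ - A.sg) + A.q * A.h < A.p * A.q := by
    intro hlt
    have hkt : 0 < (j + 1) * T.t := mul_pos (by omega) t0
    have eW : (j + 1) * W1 = j * W1 + W1 := by ring
    have hit : A.p - (j + 1) * T.t ≠ T.t := by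
      intro hc
      obtain ⟨z1, hz1⟩ := (clsE (j + 1)).1
      have hd : (A.p : ℤ) * A.q ∣ (j + 2) * W1 - A.D := by
        exact ⟨-z1 - zt, by linear_combination -hz1 - hzt - A.a * hc⟩
      have e : (j + 2) * W1 = j * W1 + 2 * W1 := by ring
      have := Int.le_of_dvd (by omega) hd
      have b := qle (show 2 * (A.w : ℤ) + 1 ≤ A.p by omega)
      rw [mul_add, mul_one] at b
      have e2 : A.q * (2 * (A.w : ℤ)) = 2 * (A.q * A.w) := by ring
      have e3 : (A.p : ℤ) * A.q = A.q * A.p := mul_comm _ _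
      rcases hsg with h | h <;> omega
    have key := Tie.nov' hn (i := A.p - (j + 1) * T.t) (X := A.D - (j + 1) * W1)
      (s := (j + 1) * σ - A.p) (by omega) (by omega) hit (clsE (j + 1)).1 (by
        obtain ⟨z, hz⟩ := (clsE (j + 1)).2
        exact ⟨z + 1, by linear_combination hz⟩) (by rcases hsg with h | h <;> omega) (by
        have : 0 < A.q * (A.w : ℤ) := by positivity
        omega)
    have e1 : A.D - (j + 1) * W1 + A.q * ((j + 1) * σ - A.p)
      = A.D + (j + 1) * (A.q * ξ - A.sg) - A.p * A.q := by rw [hW1, hσ']; ring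
    rw [e1] at key
    have e3 : (j + 1) * (A.q * ξ - A.sg) = A.q * (j * ξ) + A.q * ξ - (j + 1) * A.sg := by ring
    have b1 := qle (show j * ξ + ξ + A.p + 1 ≤ 2 * A.h + A.p - 2 by omega)
    have s1 := sgk (j + 1) (by omega)
    have b2 := qle (show 4 * (A.h : ℤ) + A.p - 1 ≤ 4 * A.h + 2 * A.p by omega)
    have : 2 * (A.D + (j + 1) * (A.q * ξ - A.sg)) < 2 * (A.p * A.q) + 2 * (A.q * A.h) := by
      rw [e3]
      have b3 := qle (show (A.p + 1) + 2 * (j * ξ) + 2 * ξ + 2 ≤ 2 * A.p + 2 * (A.h : ℤ) by omega)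
      have e4 : A.q * ((A.p + 1) + 2 * (j * ξ) + 2 * ξ + 2) = A.q * (A.p + 1)
        + 2 * (A.q * (j * ξ)) + 2 * (A.q * ξ) + 2 * A.q := by ring
      have e5 : A.q * (2 * A.p + 2 * (A.h : ℤ)) = 2 * (A.p * A.q) + 2 * (A.q * A.h) := by ring
      omega
    omega
  -- the rule
  obtain ⟨m, f, ι, hmf, f0, f1, g0, g1, v0, v1, hι, hι'⟩ : ∃ m f ι : ℤ,
      A.q * m + f = (j + 1) * W1 ∧ 0 < f ∧ f < A.q ∧ 0 < f - A.sg ∧ f - A.sg < A.q ∧
      0 < f + A.sg ∧ f + A.sg < A.q ∧ ι = (if f < f + A.sg then 1 else 0) ∧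
      ((A.sg = 1 ∧ ι = 1) ∨ (A.sg = -1 ∧ ι = 0)) := by
    rcases hsg with h | h
    · refine ⟨(j + 1) * A.w, j + 1, 1, by rw [hW1, h]; ring, by omega, by omega, by omega,
        by omega, by omega, by omega, ?_, Or.inl ⟨h, rfl⟩⟩
      rw [if_pos (by omega)]
    · refine ⟨(j + 1) * A.w - 1, A.q - (j + 1), 0, by rw [hW1, h]; ring, by omega, by omega,
        by omega, by omega, by omega, by omega, ?_, Or.inr ⟨h, rfl⟩⟩
      rw [if_neg (by omega)]
  have hjt : 0 < j * T.t := mul_pos (by omega) t0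
  have hkt : (j + 1) * T.t = j * T.t + T.t := by ring
  have cl : A.Cls ((j + 1) * T.t) m f (-(j * σ + σ)) := by
    refine ⟨by omega, h3, f0, f1, ?_, ?_⟩
    · exact ⟨(j + 1) * zt, by linear_combination (j + 1) * hzt - hmf⟩
    · obtain ⟨z, hz⟩ := hrow
      exact ⟨(j + 1) * z, by linear_combination (j + 1) * hz⟩
  have cr : A.Cls (j * T.t) (m - A.w) (f - A.sg) (-(j * σ)) := by
    refine ⟨by omega, by omega, g0, g1, ?_, ?_⟩
    · exact ⟨j * zt, by linear_combination j * hzt - hmf + hW1⟩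
    · obtain ⟨z, hz⟩ := hrow
      exact ⟨j * z, by linear_combination j * hz⟩
  obtain ⟨r, hr⟩ : ∃ r, r = -(j * σ + σ) - A.h + ξ := ⟨_, rfl⟩
  obtain ⟨y, hy0, hy1, hy2, hy3⟩ : ∃ y : ℤ, A.h ≤ y ∧ y < A.w + A.h ∧ j * σ + σ - ξ ≤ y ∧
      y < j * σ + σ := by
    rcases le_or_gt (A.h : ℤ) (j * σ + σ - ξ) with h | h
    · exact ⟨j * σ + σ - ξ, h, by omega, le_refl _, by omega⟩
    · exact ⟨A.h, le_refl _, by omega, h.le, by omega⟩
  have chir : A.chi (-(j * σ + σ)) (-(j * σ)) r = 1 := by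
    unfold chi
    rw [if_pos ((InA_iff (by omega) (by omega) (by omega)).2 (by omega)),
      if_neg (fun h => by rw [InA_iff (by omega) (by omega) (by omega)] at h; omega)]
    norm_num
  have chiY : A.chi (-(j * σ + σ)) (-(j * σ)) (-y) = -1 := by
    unfold chi
    rw [if_neg (fun h => by rw [InA_iff (by omega) (by omega) (by omega)] at h; omega),
      if_pos ((InA_iff (by omega) (by omega) (by omega)).2 (by omega))]
    norm_num
  have E := E0v F cl cr v0 v1 (by rcases hsg with h | h <;> omega)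
    (by rcases hsg with h | h <;> omega) (mv := r + m - ι) (r := r) (by rw [← hι]; ring) (-y)
    (by rw [chir, chiY]; norm_num)
  -- positions
  have hN := A.N_pos'
  have evm : A.q * (r + m - ι) + (f + A.sg) = (j + 2) * A.sg - A.q * (j * ξ) - A.q * A.h
      - A.q * ι := by
    rw [hr, hσ']
    linear_combination hmf + (j + 1) * hW1
  have evm' : A.q * (r + m - ι + A.h) + (f + A.sg) = (j + 2) * A.sg - A.q * (j * ξ)
      - A.q * ι := by
    linear_combination evm
  have qι : A.q * ι = ι * A.q := mul_comm _ _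
  have s2 := sgk (j + 2) (by omega)
  have neg : ∀ z : ℤ, -(A.p * A.q) + A.D ≤ z → z < 0 → ¬ z % ((A.p : ℤ) * A.q) < A.q * A.md + A.fd := by
    intro z z0 z1 hc
    rw [← hDD, ← Int.add_emod_right, Int.emod_eq_of_lt (by have := A.D_nonneg; omega) (by omega)] at hc
    omega
  have qjx : A.q * (j * ξ + 3) ≤ A.q * A.h := qle (by omega)
  rw [mul_add] at qjx
  have qh1 : A.q * (2 * (A.h : ℤ) + 1) ≤ A.q * A.p := qle (by omega)
  rw [mul_add, mul_one] at qh1
  have qh2 : A.q * (2 * (A.h : ℤ)) = 2 * (A.q * A.h) := by ring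
  have hpq' : (A.p : ℤ) * A.q = A.q * A.p := mul_comm _ _
  have qp1 : (A.q : ℤ) * (A.p + 1) = A.q * A.p + A.q := by ring
  have qjx0 : 0 ≤ (A.q : ℤ) * (j * ξ) := by positivity
  -- `b + h` is not inside
  have P2 : ¬ A.InL (r + m - ι + A.h) (f + A.sg) := by
    unfold InL
    rw [evm']
    apply neg
    · rcases hι' with ⟨h, h'⟩ | ⟨h, h'⟩ <;> rw [h, h'] <;> rw [h] at s2 <;> omega
    · rcases hι' with ⟨h, h'⟩ | ⟨h, h'⟩ <;> rw [h, h'] <;> rw [h] at s2 <;> omega
  -- `c - w` is inside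
  have P1 : A.InL (m - A.w) f := by
    unfold InL
    have e : A.q * (m - A.w) + f = j * W1 + A.sg := by linear_combination hmf + hW1
    have jW : 0 < j * W1 := mul_pos (by omega) W1pos
    have p5 : (5 : ℤ) ≤ A.p := by omega
    rw [e, ← hDD, Int.emod_eq_of_lt (by rcases hsg with h | h <;> omega) (by
      have := A.D_nonneg
      have := qle (show (1 : ℤ) ≤ A.p by omega)
      rcases hsg with h | h <;> omega)]
    rcases hsg with h | h <;> omega
  -- values
  have a1 : ¬ InA A.p (-y) (-A.h) A.h := fun h => by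
    rw [InA_iff (by omega) (by omega) (by omega)] at h; omega
  have a2 : InA A.p (-y) (-A.w - A.h) A.h :=
    (InA_iff (by omega) (by omega) (by omega)).2 (by omega)
  have a3 : ¬ InA A.p (-y) (-A.w) A.w := fun h => by
    rw [InA_iff (by omega) (by omega) (by omega)] at h; omega
  have b2 : ¬ InA A.p r (-A.w - A.h) A.h := fun h => by
    rw [InA_iff (by omega) (by omega) (by omega)] at h; omega
  have P1' : A.InL (m - A.w) f ∧ InA A.p (-y) (-A.w - A.h) A.h := ⟨P1, a2⟩
  have n1 : ¬ (A.InL m f ∧ InA A.p (-y) (-A.h) A.h) := fun h => a1 h.2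
  have n3 : ¬ (A.InL (r + m - ι) (f + A.sg) ∧ InA A.p (-y) (-A.w) A.w) := fun h => a3 h.2
  have n4 : ¬ (A.InL (r + m - ι + A.h) (f + A.sg) ∧ InA A.p (-y) (-A.w - A.h) A.w) :=
    fun h => P2 h.1
  have n5 : ¬ (A.InL (m - A.w) f ∧ InA A.p r (-A.w - A.h) A.h) := fun h => b2 h.2
  have n6 : ¬ (A.InL (r + m - ι + A.h) (f + A.sg) ∧ InA A.p r (-A.w - A.h) A.w) :=
    fun h => P2 h.1
  unfold Phi at E
  rw [if_neg n1, if_pos P1', if_neg n3, if_neg n4, if_neg n5, if_neg n6] at E
  by_cases hb : A.InL (r + m - ι) (f + A.sg) ∧ InA A.p r (-A.w) A.w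
  · have hc : A.InL m f ∧ InA A.p r (-A.h) A.h := by
      constructor
      · by_contra hcc
        have hD : A.D < (j + 1) * W1 := by
          by_contra hc3
          apply hcc
          unfold InL
          have jW : 0 < (j + 1) * W1 := mul_pos (by omega) W1pos
          have := A.D_nonneg
          have ne := genE (j + 1) h3 (by omega)
          rw [hmf, ← hDD, Int.emod_eq_of_lt jW.le (by omega)]
          omega
        have c2' := c2 hD
        have e3 : (j + 1) * (A.q * ξ - A.sg) = A.q * (j * ξ) + A.q * ξ - (j + 1) * A.sg := by ring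
        rw [e3] at c2'
        have e4 : (j + 2) * A.sg = (j + 1) * A.sg + A.sg := by ring
        have qx := qle ξ1
        rw [mul_one] at qx
        refine absurd hb.1 ?_
        unfold InL
        rw [evm]
        apply neg
        · rcases hι' with ⟨h, h'⟩ | ⟨h, h'⟩ <;> rw [h, h'] <;> rw [h] at e4 s2 c2' <;> omega
        · rcases hι' with ⟨h, h'⟩ | ⟨h, h'⟩ <;> rw [h, h'] <;> rw [h] at s2 <;> omega
      · have := hb.2
        rw [InA_iff (by omega) (by omega) (by omega)] at this ⊢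
        omega
    rw [if_pos hb, if_pos hc] at E
    omega
  · rw [if_neg hb] at E
    split_ifs at E <;> omega

end TAp

end Pool.Agent.H78.Tie
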