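import Pool.Agent.H78.Tie.StatAp

/-!
# Static rule for ties with `w ≤ x < h`

`SC.gapL`: on a level with two values of `g` which differ by two, a visible column with the small
value is not covered by any rectangle.
-/

namespace Pool.Agent.H78.Tie

open Finset
open Pool.Agent.H98.Flat
open Pool.Agent.H67.Flat

namespace SC

variable {C : Cfg} {sg : ℤ}

theorem visR (S : SC C sg) {u v : ℤ} (n1 : sg = -1 → ¬ (C.p : ℤ) ∣ u) : C.R u v ≤ 1 := by
  by_cases h : C.R u v = 0
  · omega
  · have h0 := C.R_nonneg u v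
    obtain ⟨k, hk⟩ := C.exists_In (u := u) (v := v) (by omega)
    apply R_le_of (a := k)
    intro j hj
    by_contra hc
    have := S.dj j k u v hc hj hk
    exact n1 this.1 this.2

theorem visEq (S : SC C sg) {u v k j : ℤ} (n1 : sg = -1 → ¬ (C.p : ℤ) ∣ u) (a : C.In k u v)
    (b : C.In j u v) : (C.p : ℤ) ∣ k - j := by
  by_contra hc
  have := S.dj k j u v hc a b
  exact n1 this.1 this.2

/-- **the gap lemma** -/
theorem gapL (S : SC C sg) (hwh : C.w ≤ C.h) {y u0 u1 : ℤ} (n1 : sg = -1 → ¬ (C.p : ℤ) ∣ u1)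
    (fl0 : ∀ v, |Fq C y u0 v| ≤ 1) (fl1 : ∀ v, |Fq C y u1 v| ≤ 1)
    (hg : C.g y u0 + 2 ≤ C.g y u1) (k0 : ℤ) : C.hor k0 u0 = 0 := by
  have G := S.G
  have hN := C.N_pos
  have hHp := C.H_pos
  have hHl := C.H_lt
  rcases C.hor01 k0 u0 with h | hk
  · exact h
  exfalso
  have fA : ∀ v, C.R u0 v + C.f y v ≤ C.g y u0 + 1 := by
    intro v
    have := (abs_le.1 (fl0 v)).2
    unfold Fq at this
    omega
  have fB : ∀ v, C.g y u0 + 1 ≤ C.R u1 v + C.f y v := by
    intro v
    have := (abs_le.1 (fl1 v)).1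
    unfold Fq at this
    omega
  have fR : ∀ v, C.R u1 v ≤ 1 := fun v => S.visR n1
  have row : ∀ v, C.ver k0 v = 1 → C.f y v ≤ C.g y u0 ∧ 1 ≤ C.R u1 v := by
    intro v hv
    have h1 := C.R_pos_of_In (k := k0) ⟨hk, hv⟩
    have h2 := fA v
    have h3 := fB v
    omega
  have verk : ∀ t, 0 ≤ t → t < C.H → C.ver k0 (C.V k0 - C.H + t) = 1 := by
    intro t t0 t1
    exact S.ver_of (t := t) (by simp) t0 t1
  obtain ⟨k1, hk1⟩ := C.exists_In (row _ (verk 0 le_rfl hHp)).2
  have cst : ∀ n : ℕ, (n : ℤ) < C.H → C.In k1 u1 (C.V k0 - C.H + n) := by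
    intro n
    induction n with
    | zero => intro _; exact_mod_cast hk1
    | succ n ih =>
      intro hn
      push_cast at hn ⊢
      have h1 := ih (by omega)
      obtain ⟨k2, hk2⟩ := C.exists_In (row _ (verk (n + 1) (by omega) hn)).2
      have h3 : C.ver k2 (C.V k0 - C.H + n + 1) = 1 := by
        have := hk2.2
        rwa [← add_assoc] at this
      obtain ⟨x, x1, x2⟩ := C.near_ver G h1.2 h3
      have h4 := S.visEq n1 (⟨h1.1, x1⟩ : C.In k1 u1 x) ⟨hk2.1, x2⟩
      exact C.In_congr (by rw [← dvd_neg, neg_sub]; exact h4) (by simp) (by simp) hk2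
  -- `k1` is `k0`
  have e1 : (C.V k0 - C.H - (C.V k1 - C.H)) % C.N = 0 := by
    by_contra hne
    have r0 := Int.emod_nonneg (C.V k0 - C.H - (C.V k1 - C.H)) hN.ne'
    have r1 : (C.V k0 - C.H - (C.V k1 - C.H)) % C.N < C.H := by
      have := (cst 0 hHp).2
      rw [Nat.cast_zero, add_zero] at this
      exact ph_eq_one_iff.1 this
    have re := Int.emod_add_mul_ediv (C.V k0 - C.H - (C.V k1 - C.H)) C.N
    set r := (C.V k0 - C.H - (C.V k1 - C.H)) % C.N
    have h1 := (cst (C.H - r).toNat (by omega)).2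
    rw [Int.toNat_of_nonneg (by omega)] at h1
    have h2 : C.ver k1 (C.V k0 - C.H + (C.H - r)) = 0 := by
      apply S.ver_not (t := C.H) _ le_rfl hHl
      exact ⟨(C.V k0 - C.H - (C.V k1 - C.H)) / C.N, by linear_combination -re⟩
    omega
  have e2 : (C.p : ℤ) ∣ k0 - k1 := by
    apply G.VV
    have := Int.dvd_of_emod_eq_zero e1
    rwa [sub_sub_sub_cancel_right] at this
  have hk0 : C.hor k0 u1 = 1 := by
    rw [C.hor_congr e2 (by simp : C.N ∣ u1 - u1)]; exact hk1.1
  -- the top
  have top : C.f y (C.V k0 - 1) < C.f y (C.V k0) := by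
    have v1 : C.ver k0 (C.V k0 - 1) = 1 := by
      have := verk (C.H - 1) (by omega) (by omega)
      rwa [show C.V k0 - C.H + (C.H - 1) = C.V k0 - 1 by ring] at this
    have v0 : C.ver k0 (C.V k0) = 0 := by
      apply S.ver_not (t := C.H) _ le_rfl hHl
      rw [show C.V k0 - (C.V k0 - C.H + C.H) = 0 by ring]; exact dvd_zero _
    have h1 : C.R u1 (C.V k0) = 0 := by
      apply R_zero_of
      intro k2 hk2
      have h3 : C.ver k2 (C.V k0 - 1 + 1) = 1 := by rw [sub_add_cancel]; exact hk2.2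
      obtain ⟨x, x1, x2⟩ := C.near_ver G v1 h3
      have h4 := S.visEq n1 (⟨hk0, x1⟩ : C.In k0 u1 x) ⟨hk2.1, x2⟩
      have := hk2.2
      rw [← C.ver_congr h4 (by simp : C.N ∣ C.V k0 - C.V k0), v0] at this
      omega
    have h2 := fB (C.V k0)
    have h3 := (row _ v1).1
    omega
  have bot : C.f y (C.V k0 - C.H) < C.f y (C.V k0 - C.H - 1) := by
    have v1 : C.ver k0 (C.V k0 - C.H) = 1 := by
      have := verk 0 le_rfl hHp
      rwa [add_zero] at this
    have v0 : C.ver k0 (C.V k0 - C.H - 1) = 0 := by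
      apply S.ver_not (t := C.N - 1) _ (by omega) (by omega)
      rw [show C.V k0 - C.H - 1 - (C.V k0 - C.H + (C.N - 1)) = -C.N by ring]
      exact (dvd_neg).2 (dvd_refl _)
    have h1 : C.R u1 (C.V k0 - C.H - 1) = 0 := by
      apply R_zero_of
      intro k2 hk2
      have h3 : C.ver k0 (C.V k0 - C.H - 1 + 1) = 1 := by rw [sub_add_cancel]; exact v1
      obtain ⟨x, x1, x2⟩ := C.near_ver G hk2.2 h3
      have h4 := S.visEq n1 (⟨hk2.1, x1⟩ : C.In k2 u1 x) ⟨hk0, x2⟩
      have := hk2.2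
      rw [C.ver_congr h4 (by simp : C.N ∣ C.V k0 - C.H - 1 - (C.V k0 - C.H - 1)), v0] at this
      omega
    have h2 := fB (C.V k0 - C.H - 1)
    have h3 := (row _ v1).1
    omega
  obtain ⟨i, hi, hi'⟩ := C.f_up top
  obtain ⟨j, hj, hj'⟩ := C.f_down bot
  have d1 := G.VV _ _ hi'
  rw [show C.V k0 - C.H - (C.V (y + C.h + j) - C.H) = C.V k0 - C.V (y + C.h + j) by ring] at hj'
  have d2 := G.VV _ _ hj'
  have d3 := dvd_sub d1 d2
  rw [show k0 - (y + (i : ℤ)) - (k0 - (y + C.h + j)) = C.h + j - i by ring] at d3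
  have w2 := S.w2
  have h2 := S.h2
  exact ndvd (by omega) (by omega) d3

/-- `f` is constant along the chord of `k` up to its top -/
theorem chord (S : SC C sg) (hwh : C.w ≤ C.h) {k n κ : ℤ}
    (hκ : (sg = 1 ∧ κ = 2) ∨ (sg = -1 ∧ κ = 1)) (n0 : 0 ≤ n) (n1 : n < C.w) :
    C.f (k - n) (C.V k - C.q * n - κ) = C.f (k - n) (C.V k - 1) := by
  have G := S.G
  have hN := C.N_pos
  have hq : (3 : ℤ) ≤ C.q := by exact_mod_cast S.q3
  have hWe : C.W = C.q * C.w := rfl
  have hHe : C.H = C.q * C.h := rfl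
  have hV : C.V k = C.U k + C.q * k := rfl
  obtain ⟨z1, z2, z3, z4⟩ := S.size
  have h1 : 0 ≤ (C.q : ℤ) * n := by positivity
  have h2 : (C.q : ℤ) * (n + 1) ≤ C.q * C.w := mul_le_mul_of_nonneg_left (by omega) (by omega)
  have h3 : (C.q : ℤ) * C.w ≤ C.q * C.h :=
    mul_le_mul_of_nonneg_left (by exact_mod_cast hwh) (by omega)
  rw [mul_add, mul_one, ← hWe] at h2
  rw [← hWe, ← hHe] at h3
  have hY : (C.q : ℤ) * (k - n) = C.q * k - C.q * n := by ring
  have step : ∀ β, C.V k - C.q * n - κ < β → β ≤ C.V k - 1 →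
      C.f (k - n) β = C.f (k - n) (β - 1) := by
    intro β b1 b2
    by_contra hne
    obtain ⟨j, i, hi, hj⟩ := f_ne hne
    have c0 := f_ne_hor hi hj (c := 0) le_rfl (by omega)
    have c1 := f_ne_hor hi hj (c := 1) (by omega) (by omega)
    obtain ⟨v', hv', jv⟩ := f_ne_ver hj
    rw [add_zero] at c0
    have a1 : C.hor k (β - C.q * (k - n) + 1) = 1 := by
      apply S.hor_of (t := β - C.V k + C.q * n + 1) _ (by omega) (by omega)
      rw [show β - C.q * (k - n) + 1 - (C.U k + (β - C.V k + C.q * n + 1)) = 0 by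
        rw [hV]; ring]
      exact dvd_zero _
    have av : C.ver k v' = 1 := by
      apply S.ver_of (t := v' - (C.V k - C.H)) _ (by omega) (by omega)
      rw [show v' - (C.V k - C.H + (v' - (C.V k - C.H))) = 0 by ring]; exact dvd_zero _
    by_cases hjk : (C.p : ℤ) ∣ j - k
    · have hVj := C.V_congr hjk
      rcases hj with ⟨_, hj⟩ | ⟨_, hj⟩
      · have := dvd_add hj hVj
        rw [show β - C.V j + (C.V j - C.V k) = -(C.V k - β) by ring, dvd_neg] at this
        exact ndvd (by omega) (by omega) this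
      · have := dvd_add hj hVj
        rw [show β - (C.V j - C.H) + (C.V j - C.V k) = β - (C.V k - C.H) by ring] at this
        exact ndvd (by omega) (by omega) this
    · have h5 := S.dj j k _ v' hjk ⟨c1, jv⟩ ⟨a1, av⟩
      have a0 : C.hor k (β - C.q * (k - n)) = 1 := by
        apply S.hor_of (t := β - C.V k + C.q * n) _ (by omega) (by omega)
        rw [show β - C.q * (k - n) - (C.U k + (β - C.V k + C.q * n)) = 0 by
          rw [hV]; ring]
        exact dvd_zero _
      exact S.two hjk c0 c1 a0 a1 jv av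
  have cst : ∀ m : ℕ, C.V k - C.q * n - κ ≤ C.V k - 1 - m →
      C.f (k - n) (C.V k - 1 - m) = C.f (k - n) (C.V k - 1) := by
    intro m
    induction m with
    | zero => intro _; simp
    | succ m ih =>
      intro hm
      push_cast at hm ⊢
      rw [← ih (by omega), step (C.V k - 1 - m) (by omega) (by omega)]
      congr 1; ring
  have := cst (C.q * n + κ - 1).toNat (by omega)
  rwa [Int.toNat_of_nonneg (by omega),
    show C.V k - 1 - (C.q * n + κ - 1) = C.V k - C.q * n - κ by ring] at this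

/-- the value of `g` in front of the left wall -/
theorem gleft (_S : SC C sg) {k n κ : ℤ} :
    C.g (k - n) (C.U k - κ) = C.R (C.U k - κ) (C.V k - C.q * n - κ)
      + C.f (k - n) (C.V k - C.q * n - κ) := by
  have hV : C.V k = C.U k + C.q * k := rfl
  have hq : (0 : ℤ) < C.q := by exact_mod_cast C.hq
  have := C.gid (k - n) (C.U k - κ) (C.q * (k - n)) (by nlinarith) le_rfl
  rwa [show C.U k - κ + C.q * (k - n) = C.V k - C.q * n - κ by rw [hV]; ring] at this

/-- from the top of `a` to the line of a pair `w ≤ x` -/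
theorem cross (S : SC C sg) {a b x n κ : ℤ} (T : TP C sg a b x) (hx : C.w ≤ x) (hx' : x < C.h)
    (hκ : (sg = 1 ∧ κ = 2) ∨ (sg = -1 ∧ κ = 1)) (n0 : 0 ≤ n) (n1 : n < C.w)
    (hE : n = C.w - 1 ∨ ∀ j, C.hor j (C.U a - κ) = 0) :
    C.f (a - n) (C.V a) = C.f (a - n) (C.V a + C.q * (C.w - n - 1)) := by
  have G := S.G
  have hN := C.N_pos
  have hp : (0 : ℤ) < C.p := by exact_mod_cast C.p_pos
  have hq : (3 : ℤ) ≤ C.q := by exact_mod_cast S.q3
  have hWe : C.W = C.q * C.w := rfl
  have hHe : C.H = C.q * C.h := rfl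
  have hVa' : C.V a = C.U a + C.q * a := rfl
  have hUa := T.hU
  have hVb := T.hV
  obtain ⟨z1, z2, z3, z4⟩ := S.size
  have hw2 := S.hw
  have w2 := S.w2
  rcases hE with hE | hE
  · rw [hE]; congr 1; ring
  have q1 : (C.q : ℤ) * C.w ≤ C.q * x := mul_le_mul_of_nonneg_left hx (by omega)
  have q2 : (C.q : ℤ) * (x + 1) ≤ C.q * C.h := mul_le_mul_of_nonneg_left (by omega) (by omega)
  have q3 : 0 ≤ (C.q : ℤ) * n := by positivity
  have q4 : (C.q : ℤ) * (n + 1) ≤ C.q * C.w := mul_le_mul_of_nonneg_left (by omega) (by omega)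
  rw [← hWe] at q1
  rw [mul_add, mul_one, ← hHe] at q2
  rw [mul_add, mul_one, ← hWe] at q4
  have hL : (C.q : ℤ) * (C.w - n - 1) = C.W - C.q * n - C.q := by rw [hWe]; ring
  have step : ∀ β, C.V a < β → β ≤ C.V a + C.q * (C.w - n - 1) →
      C.f (a - n) β = C.f (a - n) (β - 1) := by
    intro β b1 b2
    rw [hL] at b2
    by_contra hne
    obtain ⟨j, i, hi, hj⟩ := f_ne hne
    have c0 := f_ne_hor hi hj (c := 0) le_rfl (by omega)
    obtain ⟨v', hv', jv⟩ := f_ne_ver hj
    rw [add_zero, show β - C.q * (a - n) = C.U a + (β - C.V a + C.q * n) by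
      rw [hVa']; ring] at c0
    set τ := β - C.V a + C.q * n with hτ
    -- position of the left wall of `j`
    have r1 : (C.U a + τ - C.U j) % C.N < C.W := ph_eq_one_iff.1 c0
    have r0 := Int.emod_nonneg (C.U a + τ - C.U j) hN.ne'
    have re := Int.emod_add_mul_ediv (C.U a + τ - C.U j) C.N
    set r := (C.U a + τ - C.U j) % C.N
    have r2 : r < τ + κ := by
      by_contra hc
      have h1 : C.hor j (C.U a - κ) = 1 := by
        apply S.hor_of (t := r - τ - κ) _ (by omega) (by omega)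
        exact ⟨(C.U a + τ - C.U j) / C.N, by linear_combination -re⟩
      rw [hE j] at h1
      omega
    have hδ : C.N ∣ C.U j - (C.U a + (τ - r)) :=
      ⟨-((C.U a + τ - C.U j) / C.N), by linear_combination re⟩
    have hpδ : (C.p : ℤ) ∣ τ - r := by
      have h1 : (C.p : ℤ) ∣ C.N := ⟨C.q, rfl⟩
      have h2 := dvd_sub (dvd_sub (S.res j) (S.res a)) (h1.trans hδ)
      rwa [show C.U j - C.U a - (C.U j - (C.U a + (τ - r))) = τ - r by ring] at h2
    have δ0 : 0 ≤ τ - r := by
      by_contra hc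
      have h1 := (dvd_neg).2 hpδ
      exact ndvd (by omega) (by omega) h1
    by_cases hja : (C.p : ℤ) ∣ j - a
    · have hVj := C.V_congr hja
      rcases hj with ⟨_, hj⟩ | ⟨_, hj⟩
      · have := dvd_add hj hVj
        rw [sub_add_sub_cancel] at this
        exact ndvd (by omega) (by omega) this
      · have := dvd_add hj hVj
        rw [show β - (C.V j - C.H) + (C.V j - C.V a) = β - (C.V a - C.H) by ring] at this
        exact ndvd (by omega) (by omega) this
    · have δ1 : (C.p : ℤ) ≤ τ - r := by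
        have : τ - r ≠ 0 := by
          intro h1
          apply hja
          apply G.UU
          rwa [h1, add_zero] at hδ
        exact Int.le_of_dvd (by omega) hpδ
      have jb : ∀ c, 0 ≤ c → c ≤ 1 → C.hor j (C.U b + c) = 1 := by
        intro c c0 c1
        apply S.hor_of (t := C.W + sg + c - (τ - r)) _ (by omega) (by
          rcases hκ with h | h <;> omega)
        have h1 := (dvd_neg).2 (dvd_add hUa hδ)
        rwa [show -(C.U a - (C.U b - C.W - sg) + (C.U j - (C.U a + (τ - r))))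
          = C.U b + c - (C.U j + (C.W + sg + c - (τ - r))) by ring] at h1
      have bb : ∀ c, 0 ≤ c → c ≤ 1 → C.hor b (C.U b + c) = 1 := by
        intro c c0 c1
        apply S.hor_of (t := c) _ c0 (by omega)
        simp
      have bv : C.ver b v' = 1 := by
        apply S.ver_of (t := v' - (C.V a + C.q * x + sg - C.H)) _ (by
          rcases hκ with h | h <;> omega) (by rcases hκ with h | h <;> omega)
        rwa [show v' - (C.V b - C.H + (v' - (C.V a + C.q * x + sg - C.H)))
          = C.V a - (C.V b - C.q * x - sg) by ring]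
      have hjb : ¬ (C.p : ℤ) ∣ j - b := by
        intro h1
        have h2 := dvd_sub (dvd_sub (C.U_congr h1) hδ) (dvd_neg.2 hUa)
        rw [show C.U j - C.U b - (C.U j - (C.U a + (τ - r))) - -(C.U a - (C.U b - C.W - sg))
          = -(C.W + sg - (τ - r) - 2 * (C.U a - (C.U b - C.W - sg))) by ring, dvd_neg] at h2
        have h3 := dvd_add h2 (hUa.mul_left 2)
        rw [sub_add_cancel] at h3
        exact ndvd (by rcases hκ with h | h <;> omega) (by rcases hκ with h | h <;> omega) h3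
      exact S.two hjb (by simpa using jb 0 le_rfl (by omega)) (jb 1 (by omega) le_rfl)
        (by simpa using bb 0 le_rfl (by omega)) (bb 1 (by omega) le_rfl) jv bv
  have cst : ∀ m : ℕ, (m : ℤ) ≤ C.q * (C.w - n - 1) →
      C.f (a - n) (C.V a + m) = C.f (a - n) (C.V a) := by
    intro m
    induction m with
    | zero => intro _; simp
    | succ m ih =>
      intro hm
      push_cast at hm ⊢
      rw [← ih (by omega), step (C.V a + (m + 1)) (by omega) (by omega)]
      congr 1; ring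
  have := cst (C.q * (C.w - n - 1)).toNat (by omega)
  rw [Int.toNat_of_nonneg (by omega)] at this
  exact this.symm

/-- `g` behind the line of a pair `w ≤ x` -/
theorem gright (S : SC C sg) {a b x n u1 : ℤ} (T : TP C sg a b x) (hx : C.w ≤ x) (hx' : x < C.h)
    (n0 : 0 ≤ n) (n1 : n < C.w) (hu : RC C sg b u1) :
    C.f (a - n) (C.V a + C.q * (C.w - n - 1)) + 1 ≤ C.g (a - n) u1 := by
  have G := S.G
  have hN := C.N_pos
  have hq : (3 : ℤ) ≤ C.q := by exact_mod_cast S.q3
  have hWe : C.W = C.q * C.w := rfl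
  have hHe : C.H = C.q * C.h := rfl
  have hVa' : C.V a = C.U a + C.q * a := rfl
  have hVb' : C.V b = C.U b + C.q * b := rfl
  have hUa := T.hU
  have hra := T.row
  obtain ⟨z1, z2, z3, z4⟩ := S.size
  have hw2 := S.hw
  have q1 : (C.q : ℤ) * C.w ≤ C.q * x := mul_le_mul_of_nonneg_left hx (by omega)
  have q2 : (C.q : ℤ) * (x + 1) ≤ C.q * C.h := mul_le_mul_of_nonneg_left (by omega) (by omega)
  have q3 : 0 ≤ (C.q : ℤ) * n := by positivity
  have q4 : (C.q : ℤ) * (n + 1) ≤ C.q * C.w := mul_le_mul_of_nonneg_left (by omega) (by omega)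
  rw [← hWe] at q1
  rw [mul_add, mul_one, ← hHe] at q2
  rw [mul_add, mul_one, ← hWe] at q4
  have hL : (C.q : ℤ) * (C.w - n - 1) = C.W - C.q * n - C.q := by rw [hWe]; ring
  have gi := C.gid (a - n) (C.U b - (if sg = 1 then 1 else -1)) (C.q * (a - n - 1))
    le_rfl (by nlinarith)
  have e1 : C.N ∣ C.U b - (if sg = 1 then 1 else -1) + C.q * (a - n - 1)
      - (C.V a + C.q * (C.w - n - 1)) := by
    have h1 := (dvd_neg).2 hUa
    rcases S.hsg with h | h
    · rw [if_pos h]
      rwa [show C.U b - 1 + C.q * (a - n - 1) - (C.V a + C.q * (C.w - n - 1))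
        = -(C.U a - (C.U b - C.W - sg)) by rw [hVa', hWe, h]; ring]
    · rw [if_neg (by omega)]
      rwa [show C.U b - -1 + C.q * (a - n - 1) - (C.V a + C.q * (C.w - n - 1))
        = -(C.U a - (C.U b - C.W - sg)) by rw [hVa', hWe, h]; ring]
  rw [C.f_congr (y' := a - n) (by simp) e1] at gi
  have r0 := C.R_nonneg (C.U b - (if sg = 1 then 1 else -1))
    (C.U b - (if sg = 1 then 1 else -1) + C.q * (a - n - 1))
  rcases hu with ⟨hs, hu⟩ | ⟨hs, hu⟩
  · rw [if_pos hs] at gi r0
    have h4 : C.g (a - n) (u1 - 1) + 1 ≤ C.g (a - n) u1 := by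
      apply C.g_up_of G (i := (x - C.w + n).toNat) (by omega)
      rw [Int.toNat_of_nonneg (by omega), show a - n + (x - C.w + n) = b by rw [hra]; ring, hu]
      simp
    rw [hu] at h4 ⊢
    omega
  · rw [if_neg (by omega)] at gi r0
    have h6 : 1 ≤ C.R (C.U b - -1) (C.U b - -1 + C.q * (a - n - 1)) := by
      apply C.R_pos_of_In (k := b)
      refine ⟨?_, ?_⟩
      · apply S.hor_of (t := 1) _ (by omega) (by omega); simp
      · apply S.ver_of (t := C.H + C.W - C.q * n - C.q - C.q * x + 1) _ (by omega) (by omega)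
        rw [show C.U b - -1 + C.q * (a - n - 1) - (C.V b - C.H
          + (C.H + C.W - C.q * n - C.q - C.q * x + 1)) = 0 by rw [hVb', hWe, hra]; ring]
        exact dvd_zero _
    rw [hu, show C.U b + 1 = C.U b - -1 by ring]
    omega

theorem vis_rc (S : SC C sg) {b u1 : ℤ} (hu : RC C sg b u1) : sg = -1 → ¬ (C.p : ℤ) ∣ u1 := by
  intro hs h
  rcases hu with ⟨h1, _⟩ | ⟨_, hu⟩
  · omega
  · apply S.one_not
    have := dvd_sub h (S.res b)
    rwa [hu, add_sub_cancel_left] at this

/-- `g` jumps by two from the column before `a` to the column behind the line -/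
theorem gjump (S : SC C sg) {a b x n κ u1 : ℤ} (T : TP C sg a b x) (hx : C.w ≤ x)
    (hx' : x < C.h) (hκ : (sg = 1 ∧ κ = 2) ∨ (sg = -1 ∧ κ = 1)) (n0 : 0 ≤ n) (n1 : n < C.w)
    (hu : RC C sg b u1)
    (nl : ∀ k v, C.hor k (C.U a - κ) = 1 → C.ver k v = 1 → C.ver a v = 1 → False)
    (hE : n = C.w - 1 ∨ ∀ j, C.hor j (C.U a - κ) = 0) :
    C.g (a - n) (C.U a - κ) + 2 ≤ C.g (a - n) u1 ∧
      C.g (a - n) (C.U a - κ) = C.f (a - n) (C.V a - 1) := by
  have hwh : C.w ≤ C.h := by omega
  have hWe : C.W = C.q * C.w := rfl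
  have hHe : C.H = C.q * C.h := rfl
  have hq : (3 : ℤ) ≤ C.q := by exact_mod_cast S.q3
  obtain ⟨z1, z2, z3, z4⟩ := S.size
  have q3 : 0 ≤ (C.q : ℤ) * n := by positivity
  have q4 : (C.q : ℤ) * (n + 1) ≤ C.q * C.w := mul_le_mul_of_nonneg_left (by omega) (by omega)
  have q5 : (C.q : ℤ) * C.w ≤ C.q * C.h :=
    mul_le_mul_of_nonneg_left (by exact_mod_cast hwh) (by omega)
  rw [mul_add, mul_one, ← hWe] at q4
  rw [← hWe, ← hHe] at q5
  have h1 := S.gleft (k := a) (n := n) (κ := κ)
  have h2 : C.R (C.U a - κ) (C.V a - C.q * n - κ) = 0 := by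
    apply R_zero_of
    intro k hk
    refine nl k _ hk.1 hk.2 ?_
    apply S.ver_of (t := C.H - C.q * n - κ) _ (by rcases hκ with h | h <;> omega)
      (by rcases hκ with h | h <;> omega)
    rw [show C.V a - C.q * n - κ - (C.V a - C.H + (C.H - C.q * n - κ)) = 0 by ring]
    exact dvd_zero _
  rw [h2, zero_add, S.chord hwh hκ n0 n1] at h1
  have h3 : C.f (a - n) (C.V a - 1) + 1 ≤ C.f (a - n) (C.V a) := by
    apply C.f_up_of S.G (i := n.toNat) (by omega)
    rw [Int.toNat_of_nonneg n0, sub_add_cancel]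
    simp
  have h4 := S.cross T hx hx' hκ n0 n1 hE
  have h5 := S.gright T hx hx' n0 n1 hu
  exact ⟨by omega, h1⟩

/-- **main static lemma** for `w ≤ x` : the column before the rectangles `a`, `a + 1`, `a - 1`
is empty -/
theorem colW (S : SC C sg) {a b x κ u1 : ℤ} (T : TP C sg a b x) (hx : C.w ≤ x)
    (hx' : x < C.h) (hκ : (sg = 1 ∧ κ = 2) ∨ (sg = -1 ∧ κ = 1)) (hu : RC C sg b u1)
    (nl : ∀ k v, C.hor k (C.U a - κ) = 1 → C.ver k v = 1 → C.ver a v = 1 → False)
    (tc : ∀ k j v, C.hor j (C.U k - κ) = 1 → C.ver j v = 1 → C.ver k v = 1 →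
      C.N ∣ C.V j - (C.V k - C.q * x - sg))
    (fl : ∀ k v Y, |Fq C Y (C.U k - κ) v| ≤ 1) (fl1 : ∀ v Y, |Fq C Y u1 v| ≤ 1) :
    ∀ k, (k = a ∨ k = a + 1 ∨ k = a - 1) → ∀ j, C.hor j (C.U k - κ) = 0 := by
  have hwh : C.w ≤ C.h := by omega
  have hw := S.hw
  have hWe : C.W = C.q * C.w := rfl
  have hHe : C.H = C.q * C.h := rfl
  have hq : (3 : ℤ) ≤ C.q := by exact_mod_cast S.q3
  have hN := C.N_pos
  have n1 := S.vis_rc hu
  obtain ⟨z1, z2, z3, z4⟩ := S.size
  have E : ∀ j, C.hor j (C.U a - κ) = 0 :=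
    S.gapL hwh n1 (fun v => fl a v _) (fun v => fl1 v _)
      (S.gjump T hx hx' hκ (n := C.w - 1) (by omega) (by omega) hu nl (Or.inl rfl)).1
  -- the general step
  have key : ∀ n i : ℤ, 0 ≤ n → n < C.w → 0 ≤ i → i < C.w →
      ∀ j, C.hor j (C.U (a - n + i) - κ) = 0 := by
    intro n i n0 n2 i0 i1
    obtain ⟨g1, g2⟩ := S.gjump T hx hx' hκ n0 n2 hu nl (Or.inr E)
    set k := a - n + i with hk
    have hy : k - i = a - n := by rw [hk]; ring
    -- `f` takes two values
    have f1 : C.f (a - n) (C.V k) ≤ C.g (a - n) (C.U a - κ) + 1 := by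
      have := (abs_le.1 (fl a (C.V k) (a - n))).2
      have := C.R_nonneg (C.U a - κ) (C.V k)
      unfold Fq at *
      omega
    have f2 : C.g (a - n) (C.U a - κ) ≤ C.f (a - n) (C.V k - 1) := by
      have := (abs_le.1 (fl1 (C.V k - 1) (a - n))).1
      have := S.visR n1 (v := C.V k - 1)
      unfold Fq at *
      omega
    have f3 : C.f (a - n) (C.V k - 1) + 1 ≤ C.f (a - n) (C.V k) := by
      apply C.f_up_of S.G (i := i.toNat) (by omega)
      rw [Int.toNat_of_nonneg i0, ← hk]
      simp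
    have h1 := S.gleft (k := k) (n := i) (κ := κ)
    have q3 : 0 ≤ (C.q : ℤ) * i := by positivity
    have q4 : (C.q : ℤ) * (i + 1) ≤ C.q * C.w := mul_le_mul_of_nonneg_left (by omega) (by omega)
    have q5 : (C.q : ℤ) * C.w ≤ C.q * C.h :=
      mul_le_mul_of_nonneg_left (by exact_mod_cast hwh) (by omega)
    have q6 : (C.q : ℤ) * C.w ≤ C.q * x := mul_le_mul_of_nonneg_left hx (by omega)
    have q7 : (C.q : ℤ) * (x + 1) ≤ C.q * C.h := mul_le_mul_of_nonneg_left (by omega) (by omega)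
    rw [mul_add, mul_one, ← hWe] at q4
    rw [← hWe, ← hHe] at q5
    rw [← hWe] at q6
    rw [mul_add, mul_one, ← hHe] at q7
    have h2 : C.R (C.U k - κ) (C.V k - C.q * i - κ) = 0 := by
      apply R_zero_of
      intro j hj
      have kv : C.ver k (C.V k - C.q * i - κ) = 1 := by
        apply S.ver_of (t := C.H - C.q * i - κ) _ (by rcases hκ with h | h <;> omega)
          (by rcases hκ with h | h <;> omega)
        rw [show C.V k - C.q * i - κ - (C.V k - C.H + (C.H - C.q * i - κ)) = 0 by ring]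
        exact dvd_zero _
      have h3 := tc k j _ hj.1 hj.2 kv
      have h4 : C.ver j (C.V k - C.q * i - κ) = 0 := by
        apply S.ver_not (t := C.H + C.q * x + sg - C.q * i - κ) _
          (by rcases hκ with h | h <;> omega) (by rcases hκ with h | h <;> omega)
        have := (dvd_neg).2 h3
        rwa [show C.V k - C.q * i - κ - (C.V j - C.H + (C.H + C.q * x + sg - C.q * i - κ))
          = -(C.V j - (C.V k - C.q * x - sg)) by ring]
      have := hj.2
      omega
    rw [h2, zero_add, S.chord hwh hκ i0 i1, hy] at h1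
    exact S.gapL (y := a - n) hwh n1 (fun v => fl k v _) (fun v => fl1 v _) (by omega)
  intro k hk
  rcases hk with rfl | rfl | rfl
  · exact E
  · have := key 0 1 le_rfl (by omega) (by omega) (by omega)
    rwa [sub_zero] at this
  · have := key 1 0 (by omega) (by omega) (by omega) (by omega)
    rwa [add_zero] at this

end SC

end Pool.Agent.H78.Tie
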