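import Pool.Agent.H98.Tie.StatW

/-!
# Ties with `w ≤ x < h` do not exist (disjoint case)
-/

namespace Pool.Agent.H78.Tie

open Finset
open Pool.Agent.H98.Flat
open Pool.Agent.H67.Flat

set_option linter.dupNamespace false

namespace TAp

variable {A : TAp}

/-- left contacts are main partners -/
theorem Tie.touch (T : A.Tie) (hs : T.Single) (hn : T.NoOv) {a k v : ℤ}
    (hk : (A.cfg 0).hor k ((A.cfg 0).U a - A.k0) = 1) (kv : (A.cfg 0).ver k v = 1)
    (av : (A.cfg 0).ver a v = 1) : A.ix a - A.ix k = T.ep * T.t := by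
  have hN := (A.cfg 0).N_pos
  have hq := A.q_pos'
  have hp := A.p_pos'
  have hW : (A.cfg 0).W = A.q * A.w := rfl
  have hH : (A.cfg 0).H = A.q * A.h := rfl
  have hNe : (A.cfg 0).N = (A.p : ℤ) * A.q := rfl
  have t0 := T.t0
  have w2 : 2 * (A.w : ℤ) + 1 ≤ A.p := by have := A.w2; omega
  have hw := A.hw
  have b1 : 2 * (A.q * (A.w : ℤ)) + A.q ≤ A.p * A.q := by nlinarith
  have q2 : (4 : ℤ) < A.q := by
    have : (A.p : ℤ) < A.q := by exact_mod_cast A.pq
    omega
  have i0 := A.ix_nonneg a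
  have i1 := A.ix_lt a
  have k0' := A.ix_nonneg k
  have k1' := A.ix_lt k
  -- the offset
  have r1 : ((A.cfg 0).U a - A.k0 - (A.cfg 0).U k) % (A.cfg 0).N < (A.cfg 0).W :=
    ph_eq_one_iff.1 hk
  have r0 := Int.emod_nonneg ((A.cfg 0).U a - A.k0 - (A.cfg 0).U k) hN.ne'
  have re := Int.emod_add_mul_ediv ((A.cfg 0).U a - A.k0 - (A.cfg 0).U k) (A.cfg 0).N
  set r := ((A.cfg 0).U a - A.k0 - (A.cfg 0).U k) % (A.cfg 0).N with hr
  set z := ((A.cfg 0).U a - A.k0 - (A.cfg 0).U k) / (A.cfg 0).N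
  rw [hW] at r1
  have hk0 := A.k0_cases
  have d1 : (A.p : ℤ) * A.q ∣ ((A.cfg 0).U a - (A.cfg 0).U k) - (r + A.k0) :=
    ⟨z, by rw [hNe] at re; linear_combination -re⟩
  -- consequences for the class `t`
  have key : ∀ σ : ℤ, (σ = 1 ∨ σ = -1) → (A.p : ℤ) * A.q ∣ A.a * T.t - σ * (r + A.k0) →
      σ = T.ep := by
    intro σ hσ h
    by_contra hne
    have h2 := T.tie
    have h3 := dvd_sub h2 h
    have hσ2 : σ = -T.ep := by
      rcases hσ with h4 | h4 <;> rcases T.hep with h5 | h5 <;>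
        first
        | exact absurd (h4.trans h5.symm) hne
        | (rw [h4, h5]; try norm_num)
    rw [hσ2, show A.a * T.t - T.ep * (A.q * A.w + A.sg) - (A.a * T.t - -T.ep * (r + A.k0))
      = -(T.ep * (A.q * A.w + A.sg + (r + A.k0))) by ring, dvd_neg] at h3
    have h4 : (A.p : ℤ) * A.q ∣ A.q * A.w + A.sg + (r + A.k0) := by
      rcases T.hep with h5 | h5 <;> rw [h5] at h3
      · rwa [one_mul] at h3
      · rwa [neg_one_mul, dvd_neg] at h3
    refine SC.ndvd ?_ ?_ h4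
    · rcases hk0 with ⟨h5, h6⟩ | ⟨h5, h6⟩ <;> rw [h5, h6] <;> nlinarith
    · rcases hk0 with ⟨h5, h6⟩ | ⟨h5, h6⟩ <;> rw [h5, h6] <;> omega
  by_cases hr2 : r + A.k0 < A.q * A.w
  · -- overlap
    obtain ⟨δv, d5, d6, d7, -⟩ := ph_diff av kv hN
    rw [sub_sub_sub_cancel_right] at d5
    rw [hH] at d6 d7
    rcases lt_trichotomy (A.ix k) (A.ix a) with h | h | h
    · obtain ⟨m, f, s, hc, c1, c2, c3, c4, c5⟩ := cls_of (A := A) d1 d5 h
        (by rcases hk0 with ⟨h5, h6⟩ | ⟨h5, h6⟩ <;> omega) hr2 (by omega) d7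
      have ht : A.ix a - A.ix k = T.t := by
        by_contra hne
        exact hn _ m f s hc hne ⟨c1, c2, c3, c4⟩
      have h1 : (1 : ℤ) = T.ep := by
        apply key 1 (Or.inl rfl)
        rw [A.ix_U, A.ix_U, ← mul_sub, ht] at d1
        rwa [one_mul]
      rw [← h1, one_mul]; exact ht
    · exfalso
      have h1 := ix_inj h
      have h2 := (A.cfg 0).U_congr h1
      have h3 := dvd_add d1 h2
      rw [show (A.cfg 0).U a - (A.cfg 0).U k - (r + A.k0) + ((A.cfg 0).U k - (A.cfg 0).U a)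
        = -(r + A.k0) by ring, dvd_neg] at h3
      refine SC.ndvd ?_ ?_ h3 <;> rcases hk0 with ⟨h5, h6⟩ | ⟨h5, h6⟩ <;> omega
    · have d1' : (A.p : ℤ) * A.q ∣ ((A.cfg 0).U k - (A.cfg 0).U a) - -(r + A.k0) := by
        have := (dvd_neg).2 d1
        rwa [show -((A.cfg 0).U a - (A.cfg 0).U k - (r + A.k0))
          = (A.cfg 0).U k - (A.cfg 0).U a - -(r + A.k0) by ring] at this
      have d5' : (A.p : ℤ) * A.q ∣ ((A.cfg 0).V k - (A.cfg 0).V a) - -δv := by
        have := (dvd_neg).2 d5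
        rwa [show -((A.cfg 0).V a - (A.cfg 0).V k - δv)
          = (A.cfg 0).V k - (A.cfg 0).V a - -δv by ring] at this
      obtain ⟨m, f, s, hc, c1, c2, c3, c4, c5⟩ := cls_of (A := A) d1' d5' h
        (by omega) (by rcases hk0 with ⟨h5, h6⟩ | ⟨h5, h6⟩ <;> omega) (by omega) (by omega)
      have ht : A.ix k - A.ix a = T.t := by
        by_contra hne
        exact hn _ m f s hc hne ⟨c1, c2, c3, c4⟩
      have h1 : (-1 : ℤ) = T.ep := by
        apply key (-1) (Or.inr rfl)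
        rw [A.ix_U, A.ix_U, ← mul_sub, ht] at d1'
        rwa [neg_one_mul]
      rw [← h1, neg_one_mul]; omega
  · -- the walls touch
    have hne : r + A.k0 ≠ A.q * A.w := by
      intro h
      apply (A.cfg_gen 0).UW a k
      rw [h] at d1
      rwa [hNe, hW, show (A.cfg 0).U a - ((A.cfg 0).U k + A.q * (A.w : ℤ))
        = (A.cfg 0).U a - (A.cfg 0).U k - A.q * A.w by ring]
    have h1 : A.sg = 1 ∧ A.k0 = 2 ∧ r + A.k0 = A.q * A.w + 1 := by
      rcases hk0 with ⟨h5, h6⟩ | ⟨h5, h6⟩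
      · exact ⟨h5, h6, by omega⟩
      · exfalso; omega
    obtain ⟨h5, h6, h7⟩ := h1
    have hpart : (A.p : ℤ) * A.q ∣ A.a * (A.ix a - A.ix k) - (A.q * A.w + A.sg) := by
      rw [h7, A.ix_U, A.ix_U] at d1
      rwa [h5, mul_sub]
    rcases T.partner hpart (by rw [abs_le]; constructor <;> omega) with h | h
    · omega
    · exfalso
      rcases hs with h1 | ⟨h1, h2⟩
      · rcases T.hep with h3 | h3 <;> rw [h3] at h <;> omega
      · have hrow := T.sec_row (A.ix_row a) (A.ix_row k) h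
        refine ver_far (C := A.cfg 0) (jl := a) (jr := k) (cl := (A.cfg 0).U a)
          (cr := (A.cfg 0).U a - 1) (by simp) ?_ (Or.inr (by ring)) ?_ ?_ av kv
        · rw [h7] at d1
          rwa [hNe, hW, show (A.cfg 0).U a - 1 - ((A.cfg 0).U k + A.q * (A.w : ℤ))
            = (A.cfg 0).U a - (A.cfg 0).U k - (A.q * A.w + 1) by ring]
        · change (A.h : ℤ) < (a - k + A.w) % A.p
          rw [hrow]; exact h1
        · change (a - k + (A.w : ℤ)) % A.p < A.p - A.h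
          rw [hrow]; exact h2

/-- the position of the main partner -/
theorem Tie.part_V (T : A.Tie) {k j : ℤ} (h : A.ix k - A.ix j = T.ep * T.t) :
    (A.cfg 0).N ∣ (A.cfg 0).V j - ((A.cfg 0).V k - (A.cfg 0).q * T.x - A.sg) := by
  obtain ⟨z1, hz1⟩ := T.tie
  obtain ⟨z2, hz2⟩ := T.row
  obtain ⟨z3, hz3⟩ := A.ix_row k
  obtain ⟨z4, hz4⟩ := A.ix_row j
  have e2 : T.ep * T.ep = 1 := by rcases T.hep with h | h <;> rw [h] <;> norm_num
  have hVk : (A.cfg 0).V k = A.a * A.ix k + A.q * k := by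
    rw [← A.ix_U]; rfl
  have hVj : (A.cfg 0).V j = A.a * A.ix j + A.q * j := by
    rw [← A.ix_U]; rfl
  have hNe : (A.cfg 0).N = (A.p : ℤ) * A.q := rfl
  have hqe : (((A.cfg 0).q : ℕ) : ℤ) = A.q := rfl
  rw [hVk, hVj, hNe, hqe]
  refine ⟨-T.ep * z1 - (T.ep * z2 - z3 + z4), ?_⟩
  linear_combination (-T.ep) * hz1 - A.q * T.ep * hz2 + A.q * hz3 - A.q * hz4
    - (A.a + A.q * A.e) * h - (A.sg + A.q * T.x) * e2

/-- the leftmost pair -/
theorem Tie.pairL' (T : A.Tie) : ∃ a b, SC.TP (A.cfg 0) A.sg a b T.x ∧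
    ((T.ep = 1 ∧ A.ix a = 0) ∨ (T.ep = -1 ∧ A.ix a = A.p - 1)) := by
  have U0 : (A.cfg 0).U 0 = 0 := A.U00
  have t0 := T.t0
  have tp := T.tp
  have hW : (A.cfg 0).W = A.q * A.w := rfl
  rcases T.hep with hep | hep
  · have h1 := T.row
    rw [hep, one_mul] at h1
    have Ut : (A.cfg 0).U (T.x - A.w) = A.a * T.t := U_of_idx (by omega) (by omega) h1
    refine ⟨0, T.x - A.w, ⟨?_, ?_⟩, Or.inl ⟨hep, ?_⟩⟩
    · have := T.tie
      rw [hep] at this
      rw [U0, Ut, hW]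
      have := (dvd_neg).2 this
      rwa [show (0 : ℤ) - (A.a * T.t - A.q * A.w - A.sg)
        = -(A.a * T.t - 1 * (A.q * A.w + A.sg)) by ring]
    · change (0 : ℤ) = T.x - A.w + A.w - T.x
      ring
    · exact ix_of (A := A) (i := 0) (s := 0) le_rfl (by omega) (by simp)
  · have h1 := T.row
    rw [hep, neg_one_mul, neg_sub] at h1
    have r1 : (A.p : ℤ) ∣ A.e * (A.p - 1) - (-A.e) := ⟨A.e, by ring⟩
    have r2 : (A.p : ℤ) ∣ A.e * (A.p - 1 - T.t) - (-A.e + (T.x - A.w)) := by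
      have := dvd_sub r1 h1
      rwa [show A.e * (A.p - 1) - -A.e - (A.e * T.t - (A.w - T.x))
        = A.e * (A.p - 1 - T.t) - (-A.e + (T.x - A.w)) by ring] at this
    have U1 : (A.cfg 0).U (-A.e) = A.a * (A.p - 1) := U_of_idx (by omega) (by omega) r1
    have U2 : (A.cfg 0).U (-A.e + (T.x - A.w)) = A.a * (A.p - 1 - T.t) :=
      U_of_idx (by omega) (by omega) r2
    refine ⟨-A.e, -A.e + (T.x - A.w), ⟨?_, ?_⟩, Or.inr ⟨hep, ?_⟩⟩
    · have := T.tie
      rw [hep] at this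
      rw [U1, U2, hW]
      rwa [show A.a * (A.p - 1) - (A.a * (A.p - 1 - T.t) - A.q * A.w - A.sg)
        = A.a * T.t - -1 * (A.q * A.w + A.sg) by ring]
    · change -A.e = -A.e + (T.x - A.w) + A.w - T.x
      ring
    · exact ix_of (A := A) (i := A.p - 1) (s := -A.e) (by omega) (by omega) r1

/-- pigeonhole: some difference of at most `M + 1` consecutive classes is shorter than `w` -/
theorem pig (A : TAp) {M : ℤ} (hM : (A.p : ℤ) ≤ 2 * M) (hMp : M ≤ A.p)
    (h1 : ∀ δ : ℤ, 0 < δ → δ ≤ M → (A.q : ℤ) * A.w ≤ (A.a * δ - A.k0) % ((A.p : ℤ) * A.q))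
    (h2 : ∀ δ : ℤ, 0 < δ → δ ≤ M → (A.q : ℤ) * A.w ≤ (-(A.a * δ) - A.k0) % ((A.p : ℤ) * A.q)) :
    False := by
  have hq := A.q_pos'
  have hp := A.p_pos'
  have hw := A.hw
  have w2 := A.w2
  have hN : (0 : ℤ) < (A.p : ℤ) * A.q := by positivity
  have hW : (0 : ℤ) < (A.q : ℤ) * A.w := by
    have : (0 : ℤ) < A.w := by omega
    positivity
  have hWN : (A.q : ℤ) * A.w < (A.p : ℤ) * A.q := by
    rw [mul_comm (A.p : ℤ)]
    exact mul_lt_mul_of_pos_left (by omega) hq
  have bin : ∀ z : ℤ, 0 ≤ (A.a * z % ((A.p : ℤ) * A.q)) / (A.q * A.w) ∧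
      (A.a * z % ((A.p : ℤ) * A.q)) / (A.q * A.w) ≤ ((A.p - 1) / 2 : ℕ) := by
    intro z
    have r0 := Int.emod_nonneg (A.a * z) hN.ne'
    have r1 := Int.emod_lt_of_pos (A.a * z) hN
    set r := A.a * z % ((A.p : ℤ) * A.q)
    have v0 : 0 ≤ r / (A.q * A.w) := Int.ediv_nonneg r0 hW.le
    refine ⟨v0, ?_⟩
    have v1 : r / (A.q * A.w) * (A.q * A.w) ≤ r := Int.ediv_mul_le _ hW.ne'
    set v := r / (A.q * (A.w : ℤ))
    have v2 : (A.q : ℤ) * (v * A.w) < A.q * A.p := by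
      calc (A.q : ℤ) * (v * A.w) = v * (A.q * A.w) := by ring
        _ ≤ r := v1
        _ < A.p * A.q := r1
        _ = A.q * A.p := by ring
    have v3 : v * A.w < A.p := lt_of_mul_lt_mul_left v2 hq.le
    have v4 : v * 2 ≤ v * A.w := mul_le_mul_of_nonneg_left (by omega) v0
    omega
  obtain ⟨x, hx, y, hy, hxy, hf⟩ := Finset.exists_ne_map_eq_of_card_lt_of_maps_to
    (s := Finset.range (M.toNat + 1)) (t := Finset.range ((A.p - 1) / 2 + 1))
    (f := fun i : ℕ => ((A.a * i % ((A.p : ℤ) * A.q)) / (A.q * A.w)).toNat)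
    (by rw [Finset.card_range, Finset.card_range]; omega)
    (by
      intro i _
      have := bin i
      simp only [Finset.coe_range, Set.mem_Iio]
      omega)
  have hx' := Finset.mem_range.1 hx
  have hy' := Finset.mem_range.1 hy
  have bx := bin x
  have by' := bin y
  have hf' : (A.a * x % ((A.p : ℤ) * A.q)) / (A.q * A.w)
      = (A.a * y % ((A.p : ℤ) * A.q)) / (A.q * A.w) := by
    have h3 : ((A.a * x % ((A.p : ℤ) * A.q)) / (A.q * A.w)).toNat
      = ((A.a * y % ((A.p : ℤ) * A.q)) / (A.q * A.w)).toNat := hf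
    omega
  have rx0 := Int.emod_nonneg (A.a * x) hN.ne'
  have ry0 := Int.emod_nonneg (A.a * y) hN.ne'
  have rx1 := Int.emod_lt_of_pos (A.a * x) hN
  have ry1 := Int.emod_lt_of_pos (A.a * y) hN
  have rxe := Int.emod_add_mul_ediv (A.a * x) ((A.p : ℤ) * A.q)
  have rye := Int.emod_add_mul_ediv (A.a * y) ((A.p : ℤ) * A.q)
  have px : (A.p : ℤ) ∣ A.a * x % ((A.p : ℤ) * A.q) := by
    have h3 : (A.p : ℤ) ∣ A.a * x := A.hpa.mul_right _
    have h4 : (A.p : ℤ) ∣ (A.p : ℤ) * A.q * (A.a * x / ((A.p : ℤ) * A.q)) :=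
      ((dvd_mul_right _ _).mul_right _)
    exact (Int.dvd_iff_dvd_of_dvd_add (by rw [rxe]; exact h3)).2 h4
  have py : (A.p : ℤ) ∣ A.a * y % ((A.p : ℤ) * A.q) := by
    have h3 : (A.p : ℤ) ∣ A.a * y := A.hpa.mul_right _
    have h4 : (A.p : ℤ) ∣ (A.p : ℤ) * A.q * (A.a * y / ((A.p : ℤ) * A.q)) :=
      ((dvd_mul_right _ _).mul_right _)
    exact (Int.dvd_iff_dvd_of_dvd_add (by rw [rye]; exact h3)).2 h4
  set α := A.a * x % ((A.p : ℤ) * A.q) with hα
  set β := A.a * y % ((A.p : ℤ) * A.q) with hβ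
  set zx := A.a * x / ((A.p : ℤ) * A.q)
  set zy := A.a * y / ((A.p : ℤ) * A.q)
  have ax0 := Int.ediv_mul_le α hW.ne'
  have ax1 := Int.lt_ediv_add_one_mul_self α hW
  have ay0 := Int.ediv_mul_le β hW.ne'
  have ay1 := Int.lt_ediv_add_one_mul_self β hW
  rw [add_mul, one_mul] at ax1 ay1
  rw [hf'] at ax0 ax1
  have hab : α ≠ β := by
    intro h3
    apply A.gen ((x : ℤ) - y) (by omega) (by rw [abs_le]; constructor <;> omega)
    exact ⟨A.p * (zx - zy), by linear_combination -rxe + rye + h3⟩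
  have hk0 := A.k0_cases
  have p4 : (4 : ℤ) < A.p := by omega
  -- the final contradiction
  have fin : ∀ (γ δ z : ℤ), (A.p : ℤ) ∣ γ → 0 < γ → γ < A.q * A.w →
      A.a * δ = γ + A.p * A.q * z →
      (A.q : ℤ) * A.w ≤ (A.a * δ - A.k0) % ((A.p : ℤ) * A.q) → False := by
    intro γ δ z g1 g2 g3 g4 g5
    have g6 := Int.le_of_dvd g2 g1
    rw [show A.a * δ - A.k0 = γ - A.k0 + A.p * A.q * z by rw [g4]; ring,
      Int.add_mul_emod_self_left, Int.emod_eq_of_lt (by omega) (by omega)] at g5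
    omega
  have pd : (A.p : ℤ) ∣ α - β := dvd_sub px py
  rcases lt_or_gt_of_ne hab with h3 | h3
  · rcases lt_or_gt_of_ne hxy with h4 | h4
    · refine fin (β - α) (y - x) (zy - zx) ?_ (by omega) (by omega) ?_ (h1 _ (by omega) (by omega))
      · have := (dvd_neg).2 pd; rwa [neg_sub] at this
      · linear_combination -rye + rxe
    · refine fin (β - α) (-(x - y)) (zy - zx) ?_ (by omega) (by omega) ?_ ?_
      · have := (dvd_neg).2 pd; rwa [neg_sub] at this
      · linear_combination -rye + rxe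
      · have := h2 ((x : ℤ) - y) (by omega) (by omega)
        rwa [← mul_neg] at this
  · rcases lt_or_gt_of_ne hxy with h4 | h4
    · refine fin (α - β) (-(y - x)) (zx - zy) pd (by omega) (by omega) ?_ ?_
      · linear_combination -rxe + rye
      · have := h2 ((y : ℤ) - x) (by omega) (by omega)
        rwa [← mul_neg] at this
    · refine fin (α - β) (x - y) (zx - zy) pd (by omega) (by omega) ?_ (h1 _ (by omega) (by omega))
      linear_combination -rxe + rye

/-- **W** : a tie without overlaps has `x < w` or `h ≤ x` -/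
theorem Tie.W (F : A.Fl) (T : A.Tie) (hs : T.Single) (hn : T.NoOv) (hx : A.w ≤ T.x)
    (hx' : T.x < A.h) : False := by
  have hp := A.p_pos'
  have hw := A.hw
  have w2 := A.w2
  obtain ⟨a, b, hT, hm⟩ := T.pairL'
  obtain ⟨u1, hu⟩ := A.rc_exists b
  have S := T.sc hn
  have E := S.colW (κ := A.k0) hT hx hx' A.k0_cases hu
    (fun k v h1 h2 h3 => by
      have h4 := T.touch hs hn h1 h2 h3
      have k0 := A.ix_nonneg k
      have k1 := A.ix_lt k
      have t0 := T.t0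
      rcases hm with ⟨h5, h6⟩ | ⟨h5, h6⟩ <;> rw [h5] at h4 <;> omega)
    (fun k j v h1 h2 h3 => T.part_V (T.touch hs hn h1 h2 h3))
    (fun k v Y => F.zero 0 (by rw [sub_add_cancel]; exact A.U_dvd 0 k) v Y)
    (fun v Y => F.rc hu v Y)
  -- translation to indices
  have col : ∀ k, (k = a ∨ k = a + 1 ∨ k = a - 1) → ∀ i : ℤ, 0 ≤ i → i < A.p →
      (A.q : ℤ) * A.w ≤ (A.a * (A.ix k - i) - A.k0) % ((A.p : ℤ) * A.q) := by
    intro k hk i i0 i1
    have h1 := E k hk (A.e * i)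
    have h2 : A.ix (A.e * i) = i := ix_of i0 i1 (by simp)
    by_contra hc
    have h3 : (A.cfg 0).hor (A.e * i) ((A.cfg 0).U k - A.k0) = 1 := by
      apply ph_eq_one_iff.2
      change ((A.cfg 0).U k - A.k0 - (A.cfg 0).U (A.e * i)) % ((A.p : ℤ) * A.q) < A.q * A.w
      rw [A.ix_U, A.ix_U, h2, show A.a * A.ix k - A.k0 - A.a * i = A.a * (A.ix k - i) - A.k0 by ring]
      omega
    rw [h1] at h3
    omega
  have l0 := A.ix_nonneg a
  have l1 := A.ix_lt a
  have ra := A.ix_row a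
  have rp := A.ix_row (a + 1)
  have rm := A.ix_row (a - 1)
  have p0 := A.ix_nonneg (a + 1)
  have p1 := A.ix_lt (a + 1)
  have m0 := A.ix_nonneg (a - 1)
  have m1 := A.ix_lt (a - 1)
  have hpo : ∀ c : ℤ, (c = 1 ∨ c = -1) → ¬ (A.p : ℤ) ∣ c := by
    intro c hc h
    rcases hc with rfl | rfl
    · have := Int.le_of_dvd (by norm_num) h; omega
    · have := Int.le_of_dvd (by norm_num) ((dvd_neg).2 h); omega
  have npa : A.ix (a + 1) ≠ A.ix a := fun h => by
    have := ix_inj h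
    rw [add_sub_cancel_left] at this
    exact hpo 1 (Or.inl rfl) this
  have nma : A.ix (a - 1) ≠ A.ix a := fun h => by
    have := ix_inj h
    rw [sub_sub_cancel_left] at this
    exact hpo (-1) (Or.inr rfl) this
  have sum : (A.p : ℤ) ∣ A.ix (a + 1) + A.ix (a - 1) - 2 * A.ix a := by
    obtain ⟨z1, hz1⟩ := ra
    obtain ⟨z2, hz2⟩ := rp
    obtain ⟨z3, hz3⟩ := rm
    obtain ⟨z4, hz4⟩ := A.inv
    refine ⟨A.e' * (z2 + z3 - 2 * z1) - z4 * (A.ix (a + 1) + A.ix (a - 1) - 2 * A.ix a), ?_⟩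
    linear_combination A.e' * (hz2 + hz3 - 2 * hz1)
      - (A.ix (a + 1) + A.ix (a - 1) - 2 * A.ix a) * hz4
  have main : ∀ k, (k = a ∨ k = a + 1 ∨ k = a - 1) → ∀ M : ℤ,
      ((T.ep = 1 ∧ A.ix a = 0 ∧ A.ix k = M) ∨ (T.ep = -1 ∧ A.ix a = A.p - 1 ∧
        A.ix k = A.p - 1 - M)) → (A.p : ℤ) ≤ 2 * M → False := by
    intro k hk M h1 h2
    have k0 := A.ix_nonneg k
    have k1 := A.ix_lt k
    rcases h1 with ⟨-, h3, h4⟩ | ⟨-, h3, h4⟩
    · apply A.pig h2 (by omega)
      · intro δ d0 d1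
        have := col k hk (M - δ) (by omega) (by omega)
        rwa [h4, sub_sub_cancel] at this
      · intro δ d0 d1
        have := col a (Or.inl rfl) δ (by omega) (by omega)
        rwa [h3, zero_sub, mul_neg] at this
    · apply A.pig h2 (by omega)
      · intro δ d0 d1
        have := col a (Or.inl rfl) (A.p - 1 - δ) (by omega) (by omega)
        rwa [h3, sub_sub_cancel] at this
      · intro δ d0 d1
        have := col k hk (A.p - 1 - M + δ) (by omega) (by omega)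
        rwa [h4, sub_add_cancel_left, mul_neg] at this
  obtain ⟨z, hz⟩ := sum
  rcases hm with ⟨h5, h6⟩ | ⟨h5, h6⟩
  · have hz1 : z = 1 := by
      have h7 : 0 < z := by
        by_contra hc
        have : A.p * z ≤ 0 := by nlinarith
        omega
      have h8 : z < 2 := by
        by_contra hc
        have : (A.p : ℤ) * 2 ≤ A.p * z := mul_le_mul_of_nonneg_left (by omega) hp.le
        omega
      omega
    rw [hz1, mul_one] at hz
    rcases le_total (A.ix (a - 1)) (A.ix (a + 1)) with h | h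
    · exact main (a + 1) (Or.inr (Or.inl rfl)) _ (Or.inl ⟨h5, h6, rfl⟩) (by omega)
    · exact main (a - 1) (Or.inr (Or.inr rfl)) _ (Or.inl ⟨h5, h6, rfl⟩) (by omega)
  · have hz1 : z = -1 := by
      have h7 : z < 0 := by
        by_contra hc
        have : 0 ≤ A.p * z := by
          have : 0 ≤ z := by omega
          positivity
        omega
      have h8 : -2 < z := by
        by_contra hc
        have : (A.p : ℤ) * z ≤ A.p * (-2) := mul_le_mul_of_nonneg_left (by omega) hp.le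
        omega
      omega
    rw [hz1] at hz
    rcases le_total (A.ix (a - 1)) (A.ix (a + 1)) with h | h
    · exact main (a - 1) (Or.inr (Or.inr rfl)) (A.p - 1 - A.ix (a - 1))
        (Or.inr ⟨h5, h6, by ring⟩) (by omega)
    · exact main (a + 1) (Or.inr (Or.inl rfl)) (A.p - 1 - A.ix (a + 1))
        (Or.inr ⟨h5, h6, by ring⟩) (by omega)

end TAp

end Pool.Agent.H78.Tie
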