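import Pool.Agent.H98.Tie.StatWAp

/-!
# Region `x < 0`, `w + |x| ≤ h`, `ep = -1` : positions on a level

`A.Q δ` is the position of label `δ` relative to label `0` when label `0` is the first class of
the window.  `dd k m` is the distance from the left wall of `k` to the left wall of `m`.
-/

namespace Pool.Agent.H78.Tie

open Finset
open Pool.Agent.H98.Flat
open Pool.Agent.H67.Flat

set_option linter.dupNamespace false
set_option linter.unusedVariables false

namespace TAp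

variable {A : TAp}

/-- rectangle `0`, moved along the diagonal up to rectangle `p`, does not pass through the
rectangles of the other classes -/
def Tie.NoPass (T : A.Tie) : Prop := ∀ i m f s, A.Cls i m f s → i ≠ T.t → 0 < s →
  s < A.w + A.h →
  ¬ (-(A.w : ℤ) ≤ m ∧ A.q * m + f < A.D + A.q * min (A.w : ℤ) (A.h - s))

/-- region `x < 0`, `w + |x| ≤ h`, `ep = -1` -/
structure VR (A : TAp) (T : A.Tie) : Prop where
  fl : A.Fl
  nov : T.NoOv
  ep : T.ep = -1
  x0 : T.x < 0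
  hs : (A.w : ℤ) - T.x ≤ A.h
  np : T.NoPass

def Q (A : TAp) (δ : ℤ) : ℤ := (A.a * A.ix δ) % ((A.p : ℤ) * A.q)
/-- number of labels of a level -/
def nn (A : TAp) : ℤ := A.w + A.h
/-- width of a rectangle and the tie gap -/
def W1 (A : TAp) : ℤ := A.q * A.w + A.sg
def NN (A : TAp) : ℤ := (A.p : ℤ) * A.q
def dd (A : TAp) (k m : ℤ) : ℤ := ((A.cfg 0).U m - (A.cfg 0).U k) % A.NN
def Tie.sig (T : A.Tie) : ℤ := A.w - T.x

theorem NN_pos (A : TAp) : 0 < A.NN := A.N_pos'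
theorem Q_nonneg (A : TAp) (δ : ℤ) : 0 ≤ A.Q δ := Int.emod_nonneg _ A.N_pos'.ne'
theorem Q_lt (A : TAp) (δ : ℤ) : A.Q δ < A.NN := Int.emod_lt_of_pos _ A.N_pos'
theorem Q_cong (A : TAp) (δ : ℤ) : A.NN ∣ A.Q δ - A.a * A.ix δ := by
  unfold Q NN
  have := Int.emod_add_mul_ediv (A.a * A.ix δ) ((A.p : ℤ) * A.q)
  exact ⟨-(A.a * A.ix δ / ((A.p : ℤ) * A.q)), by linear_combination this⟩
theorem p_NN (A : TAp) : (A.p : ℤ) ∣ A.NN := ⟨A.q, rfl⟩
theorem Q_dvd (A : TAp) (δ : ℤ) : (A.p : ℤ) ∣ A.Q δ := by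
  have h1 := A.p_NN.trans (A.Q_cong δ)
  have h2 : (A.p : ℤ) ∣ A.a * A.ix δ := A.hpa.mul_right _
  have := dvd_add h1 h2
  rwa [sub_add_cancel] at this

theorem p5 (A : TAp) : (5 : ℤ) ≤ A.p := by have := A.hw; have := A.w2; omega
theorem q6 (A : TAp) : (6 : ℤ) ≤ A.q := by
  have := A.p5
  have : (A.p : ℤ) < A.q := by exact_mod_cast A.pq
  omega
theorem pq' (A : TAp) : (A.p : ℤ) < A.q := by exact_mod_cast A.pq

theorem nn_lt (A : TAp) : A.nn < A.p := by
  have := A.w2; have := A.h2; unfold nn; omega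
theorem nn_ge (A : TAp) : 4 ≤ A.nn := by
  have := A.hw; have := A.hh; unfold nn; omega

theorem W1_bd (A : TAp) : 2 * A.q - 1 ≤ A.W1 ∧ 2 * A.W1 + A.q - 2 ≤ A.NN := by
  have hq := A.q_pos'
  have w2 : 2 * (A.w : ℤ) + 1 ≤ A.p := by have := A.w2; omega
  have hw : (2 : ℤ) ≤ A.w := by have := A.hw; omega
  have hsg := A.hsg
  unfold W1 NN
  constructor
  · have : (A.q : ℤ) * 2 ≤ A.q * A.w := mul_le_mul_of_nonneg_left hw hq.le
    rcases hsg with h | h <;> rw [h] <;> omega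
  · have : (A.q : ℤ) * (2 * A.w + 1) ≤ A.q * A.p := mul_le_mul_of_nonneg_left w2 hq.le
    have e : (A.q : ℤ) * (2 * A.w + 1) = 2 * (A.q * A.w) + A.q := by ring
    have e' : (A.p : ℤ) * A.q = A.q * A.p := mul_comm _ _
    rcases hsg with h | h <;> rw [h] <;> omega

theorem p_W1 (A : TAp) : (A.p : ℤ) ∣ A.W1 := A.hpw

theorem D_pos (A : TAp) : 0 < A.D := by
  have := A.hmd; have := A.hfd; have := A.q_pos'
  unfold D; positivity

theorem p_D (A : TAp) : (A.p : ℤ) ∣ A.D := by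
  have h1 : (A.p : ℤ) ∣ A.a * A.p - A.D := A.p_NN.trans A.hd
  have h2 : (A.p : ℤ) ∣ A.a * A.p := dvd_mul_left _ _
  have := dvd_sub h2 h1
  rwa [sub_sub_cancel] at this

theorem D_cong (A : TAp) : A.NN ∣ A.a * A.p - A.D := A.hd

theorem D_ge (A : TAp) : (A.p : ℤ) ≤ A.D := Int.le_of_dvd A.D_pos A.p_D

/-- multiples of `p` -/
theorem dvd_gap {p x y : ℤ} (hx : p ∣ x) (hy : p ∣ y) (h : x < y + p) : x ≤ y := by
  have h1 := dvd_sub hx hy
  by_contra hc
  have := Int.le_of_dvd (by omega) h1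
  omega

theorem ix_sub (A : TAp) (m k : ℤ) : (A.ix m - A.ix k) % A.p = A.ix (m - k) := by
  unfold ix
  rw [← Int.sub_emod, mul_sub]

theorem ix_zero (A : TAp) : A.ix 0 = 0 := by unfold ix; simp

theorem ix_ne {k m : ℤ} (h : ¬ (A.p : ℤ) ∣ m - k) : A.ix m ≠ A.ix k := by
  intro hc
  exact h (ix_inj hc)

/-- small differences are not divisible by `p` -/
theorem nd_small {δ : ℤ} (h0 : δ ≠ 0) (h1 : -A.nn < δ) (h2 : δ < A.nn) : ¬ (A.p : ℤ) ∣ δ := by
  intro h
  have := A.nn_lt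
  exact h0 (Int.eq_zero_of_abs_lt_dvd h (by rw [abs_lt]; constructor <;> omega))

theorem ix_sub_ge {m k : ℤ} (h : A.ix k ≤ A.ix m) : A.ix (m - k) = A.ix m - A.ix k := by
  rw [← A.ix_sub, Int.emod_eq_of_lt (by omega)]
  have := A.ix_lt m; have := A.ix_nonneg k; omega

theorem ix_sub_lt {m k : ℤ} (h : A.ix m < A.ix k) : A.ix (m - k) = A.ix m - A.ix k + A.p := by
  have h1 := A.ix_lt k; have h2 := A.ix_nonneg m
  rw [← A.ix_sub, ← Int.add_emod_right, Int.emod_eq_of_lt (by omega) (by omega)]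

theorem cls_Q {δ : ℤ} (h : ¬ (A.p : ℤ) ∣ δ) (z : ℤ) :
    A.Cls (A.ix δ) (A.Q δ / A.q + A.p * z) (A.Q δ % A.q) δ := by
  have hq := A.q_pos'
  have i0 : A.ix δ ≠ 0 := by
    intro hc
    apply h
    have := ix_inj (A := A) (k := δ) (j := 0) (by rw [hc, A.ix_zero])
    rwa [sub_zero] at this
  have n0 := A.ix_nonneg δ
  have n1 := A.ix_lt δ
  have f0 := Int.emod_nonneg (A.Q δ) hq.ne'
  have f1 := Int.emod_lt_of_pos (A.Q δ) hq
  have fe := Int.emod_add_mul_ediv (A.Q δ) A.q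
  obtain ⟨c, hc⟩ := A.Q_cong δ
  unfold NN at hc
  have fne : A.Q δ % A.q ≠ 0 := by
    intro hf
    refine A.gen (A.ix δ) i0 (by rw [abs_of_nonneg n0]; omega) ?_
    rw [hf] at fe
    exact ⟨A.Q δ / A.q - A.p * c, by linear_combination -fe - hc⟩
  exact ⟨by omega, n1, by omega, f1, ⟨-c - z, by linear_combination -fe - hc⟩, A.ix_row δ⟩

theorem Tie.sig_pos (T : A.Tie) (hx : T.x < 0) : (A.w : ℤ) + 1 ≤ T.sig := by
  unfold Tie.sig; omega

namespace VR

variable {T : A.Tie}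

theorem ix_sig (h : VR A T) : A.ix T.sig = T.t := by
  have := T.row
  rw [h.ep] at this
  apply ix_of T.t0.le T.tp
  unfold Tie.sig
  rwa [show A.e * T.t - (A.w - T.x) = A.e * T.t - -1 * (T.x - A.w) by ring]

theorem ix_nsig (h : VR A T) : A.ix (-T.sig) = A.p - T.t := by
  have h1 := T.row
  rw [h.ep] at h1
  have t0 := T.t0
  have tp := T.tp
  apply ix_of (by omega) (by omega)
  unfold Tie.sig
  obtain ⟨z, hz⟩ := h1
  exact ⟨A.e - z, by linear_combination -hz⟩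

theorem at_cong (h : VR A T) : A.NN ∣ A.a * T.t + A.W1 := by
  have := T.tie
  rw [h.ep] at this
  unfold NN W1
  rwa [show A.a * T.t + (A.q * A.w + A.sg) = A.a * T.t - -1 * (A.q * A.w + A.sg) by ring]

/-- `NoPass` for arbitrary lifts -/
theorem np' (h : VR A T) {δ x : ℤ} (d0 : 0 < δ) (d1 : δ < A.nn) (hne : A.ix δ ≠ T.t)
    (hx : A.NN ∣ x - A.a * A.ix δ) (x0 : -(A.q * (A.w : ℤ)) ≤ x) :
    A.D + A.q * min (A.w : ℤ) (A.h - δ) ≤ x := by
  by_contra hc
  have hq := A.q_pos'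
  have hd : ¬ (A.p : ℤ) ∣ δ := nd_small (by omega) (by have := A.nn_ge; omega) d1
  have f0 := Int.emod_nonneg x hq.ne'
  have f1 := Int.emod_lt_of_pos x hq
  have fe := Int.emod_add_mul_ediv x A.q
  have i0 : A.ix δ ≠ 0 := by
    intro hcc
    apply hd
    have := ix_inj (A := A) (k := δ) (j := 0) (by rw [hcc, A.ix_zero])
    rwa [sub_zero] at this
  have n0 := A.ix_nonneg δ
  have n1 := A.ix_lt δ
  obtain ⟨c, hc'⟩ := hx
  unfold NN at hc'
  have fne : x % A.q ≠ 0 := by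
    intro hf
    refine A.gen (A.ix δ) i0 (by rw [abs_of_nonneg n0]; omega) ?_
    rw [hf] at fe
    exact ⟨x / A.q - A.p * c, by linear_combination -fe - hc'⟩
  refine h.np (A.ix δ) (x / A.q) (x % A.q) δ
    ⟨by omega, n1, by omega, f1, ⟨-c, by linear_combination -fe - hc'⟩, A.ix_row δ⟩ hne d0
    (by unfold nn at d1; omega) ⟨?_, ?_⟩
  · by_contra hm
    have h3 : x / A.q + 1 ≤ -(A.w : ℤ) := by omega
    have h4 : (A.q : ℤ) * (x / A.q + 1) ≤ A.q * -(A.w : ℤ) := mul_le_mul_of_nonneg_left h3 hq.le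
    rw [mul_add, mul_one, mul_neg] at h4
    omega
  · omega

theorem DW0 (h : VR A T) : A.D + 2 * (A.q * (A.w : ℤ)) < A.NN := by
  have n4 := A.nn_ge
  have hp := A.p5
  have hn : A.nn = A.w + A.h := rfl
  have hx0 := h.x0
  have hs := h.hs
  have h2 := A.h2
  have q0 := A.Q_nonneg 1
  have ql := A.Q_lt 1
  have hq := A.q_pos'
  have hD := A.D_pos
  have hqw : (0 : ℤ) ≤ A.q * A.w := by positivity
  have hne : A.ix 1 ≠ T.t := by
    rw [← h.ix_sig]
    intro hc
    have h1 := ix_inj hc.symm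
    have := Int.le_of_dvd (by unfold Tie.sig; have := A.hw; omega) h1
    unfold Tie.sig at this
    omega
  have e : min (A.w : ℤ) (A.h - 1) = A.w := by omega
  have h1 := h.np' (x := A.Q 1) one_pos (by omega) hne (A.Q_cong 1) (by omega)
  rw [e] at h1
  by_contra hc
  have h3 := h.np' (x := A.Q 1 - A.NN) one_pos (by omega) hne (by
    have := dvd_sub (A.Q_cong 1) (dvd_refl A.NN)
    rwa [show A.Q 1 - A.a * A.ix 1 - A.NN = A.Q 1 - A.NN - A.a * A.ix 1 by ring] at this)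
    (by omega)
  rw [e] at h3
  omega

theorem DW (h : VR A T) : A.D + 2 * A.W1 ≤ A.NN := by
  have h1 := h.DW0
  have hsg := A.hsg
  have hW1 : A.W1 = A.q * A.w + A.sg := rfl
  have p5 := A.p5
  have := dvd_gap (dvd_add A.p_D (A.p_W1.mul_left 2)) A.p_NN (by
    rcases hsg with h | h <;> rw [h] at hW1 <;> omega)
  exact this

theorem Q_t (h : VR A T) {δ : ℤ} (hi : A.ix δ = T.t) : A.Q δ = A.NN - A.W1 := by
  have w := A.W1_bd
  have hN := A.NN_pos
  have q6 := A.q6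
  unfold Q
  rw [hi]
  change A.a * T.t % A.NN = _
  rw [emod_congr (b := A.NN - A.W1), Int.emod_eq_of_lt (by omega) (by omega)]
  have := dvd_sub h.at_cong (dvd_refl A.NN)
  rwa [show A.a * T.t + A.W1 - A.NN = A.a * T.t - (A.NN - A.W1) by ring] at this

theorem Q_pt (h : VR A T) {δ : ℤ} (hi : A.ix δ + T.t = A.p) : A.Q δ = A.W1 + A.D := by
  have w := A.W1_bd
  have hN := A.NN_pos
  have q6 := A.q6
  have hD := A.D_pos
  have dw := h.DW
  unfold Q
  rw [show A.ix δ = A.p - T.t by omega]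
  change A.a * (A.p - T.t) % A.NN = _
  rw [emod_congr (b := A.W1 + A.D), Int.emod_eq_of_lt (by omega) (by omega)]
  have := dvd_sub A.D_cong h.at_cong
  rwa [show A.a * A.p - A.D - (A.a * T.t + A.W1) = A.a * (A.p - T.t) - (A.W1 + A.D) by ring]
    at this

theorem Q_sig (h : VR A T) : A.Q T.sig = A.NN - A.W1 := h.Q_t h.ix_sig
theorem Q_nsig (h : VR A T) : A.Q (-T.sig) = A.W1 + A.D := h.Q_pt (by rw [h.ix_nsig]; omega)

end VR

/-- `Q` of a difference -/
theorem Q_diff_ge (A : TAp) {x y : ℤ} (h : A.ix y ≤ A.ix x) :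
    A.NN ∣ A.Q (x - y) - (A.Q x - A.Q y) := by
  have h1 := A.Q_cong (x - y)
  rw [ix_sub_ge h] at h1
  have h2 := A.Q_cong x
  have h3 := A.Q_cong y
  have := dvd_add (dvd_sub h1 h2) h3
  rwa [show A.Q (x - y) - A.a * (A.ix x - A.ix y) - (A.Q x - A.a * A.ix x)
    + (A.Q y - A.a * A.ix y) = A.Q (x - y) - (A.Q x - A.Q y) by ring] at this

theorem Q_diff_lt (A : TAp) {x y : ℤ} (h : A.ix x < A.ix y) :
    A.NN ∣ A.Q (x - y) - (A.Q x - A.Q y + A.D) := by
  have h1 := A.Q_cong (x - y)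
  rw [ix_sub_lt h] at h1
  have h2 := A.Q_cong x
  have h3 := A.Q_cong y
  have := dvd_add (dvd_add (dvd_sub h1 h2) h3) A.D_cong
  rwa [show A.Q (x - y) - A.a * (A.ix x - A.ix y + A.p) - (A.Q x - A.a * A.ix x)
    + (A.Q y - A.a * A.ix y) + (A.a * A.p - A.D) = A.Q (x - y) - (A.Q x - A.Q y + A.D) by ring]
    at this

/-- lifts in the fundamental interval are unique -/
theorem eq_of_dvd {N x y : ℤ} (h : N ∣ x - y) (h1 : x - y < N) (h2 : y - x < N) : x = y := by
  have := Int.eq_zero_of_abs_lt_dvd h (by rw [abs_lt]; constructor <;> omega)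
  omega

theorem dd_nonneg (A : TAp) (k m : ℤ) : 0 ≤ A.dd k m := Int.emod_nonneg _ A.N_pos'.ne'
theorem dd_lt (A : TAp) (k m : ℤ) : A.dd k m < A.NN := Int.emod_lt_of_pos _ A.N_pos'
theorem dd_cong (A : TAp) (k m : ℤ) :
    A.NN ∣ A.dd k m - ((A.cfg 0).U m - (A.cfg 0).U k) := by
  unfold dd
  have := Int.emod_add_mul_ediv ((A.cfg 0).U m - (A.cfg 0).U k) A.NN
  exact ⟨-(((A.cfg 0).U m - (A.cfg 0).U k) / A.NN), by linear_combination this⟩
theorem dd_dvd (A : TAp) (k m : ℤ) : (A.p : ℤ) ∣ A.dd k m := by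
  have h1 := A.p_NN.trans (A.dd_cong k m)
  have h2 := dvd_sub (A.U_dvd 0 m) (A.U_dvd 0 k)
  have := dvd_add h1 h2
  rwa [sub_add_cancel] at this

/-- offset of the start of the crossing -/
def kap (A : TAp) (s : ℤ) : ℤ := max 0 (s - A.h)
/-- position of the crossing of `s'` relative to the one of `s` -/
def P (A : TAp) (s s' : ℤ) : ℤ := (A.Q (s' - s) + A.q * (A.kap s' - A.kap s)) % A.NN
/-- start of the crossing of label `y + s` with level `y` -/
def cs (A : TAp) (y s : ℤ) : ℤ := (A.cfg 0).U (y + s) + A.q * A.kap s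
def cd (A : TAp) (y s s' : ℤ) : ℤ := (A.cs y s' - A.cs y s) % A.NN

theorem kap0 (A : TAp) {s : ℤ} (h : s ≤ A.h) : A.kap s = 0 := by unfold kap; omega
theorem kapb (A : TAp) {s : ℤ} (h : s < A.nn) : 0 ≤ A.kap s ∧ A.kap s ≤ A.w - 1 := by
  have := A.hw
  unfold kap nn at *; omega
theorem kaph (A : TAp) {s : ℤ} (h : A.h ≤ s) : A.kap s = s - A.h := by unfold kap; omega

theorem P_nonneg (A : TAp) (s s' : ℤ) : 0 ≤ A.P s s' := Int.emod_nonneg _ A.N_pos'.ne'
theorem P_lt (A : TAp) (s s' : ℤ) : A.P s s' < A.NN := Int.emod_lt_of_pos _ A.N_pos'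
theorem P_cong (A : TAp) (s s' : ℤ) :
    A.NN ∣ A.P s s' - (A.Q (s' - s) + A.q * (A.kap s' - A.kap s)) := by
  unfold P
  have := Int.emod_add_mul_ediv (A.Q (s' - s) + A.q * (A.kap s' - A.kap s)) A.NN
  exact ⟨-((A.Q (s' - s) + A.q * (A.kap s' - A.kap s)) / A.NN), by linear_combination this⟩
theorem P_cong' (A : TAp) (s s' : ℤ) :
    A.NN ∣ A.P s s' - A.q * (A.kap s' - A.kap s) - A.a * A.ix (s' - s) := by
  have := dvd_add (A.P_cong s s') (A.Q_cong (s' - s))
  rwa [show A.P s s' - (A.Q (s' - s) + A.q * (A.kap s' - A.kap s))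
    + (A.Q (s' - s) - A.a * A.ix (s' - s))
    = A.P s s' - A.q * (A.kap s' - A.kap s) - A.a * A.ix (s' - s) by ring] at this

theorem cd_nonneg (A : TAp) (y s s' : ℤ) : 0 ≤ A.cd y s s' := Int.emod_nonneg _ A.N_pos'.ne'
theorem cd_lt (A : TAp) (y s s' : ℤ) : A.cd y s s' < A.NN := Int.emod_lt_of_pos _ A.N_pos'
theorem cd_cong (A : TAp) (y s s' : ℤ) : A.NN ∣ A.cd y s s' - (A.cs y s' - A.cs y s) := by
  unfold cd
  have := Int.emod_add_mul_ediv (A.cs y s' - A.cs y s) A.NN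
  exact ⟨-((A.cs y s' - A.cs y s) / A.NN), by linear_combination this⟩

/-- positions of different classes are never equal modulo `q` -/
theorem q_ne (A : TAp) {i c : ℤ} (i0 : i ≠ 0) (i1 : -(A.p : ℤ) ≤ i) (i2 : i ≤ A.p) :
    ¬ (A.q : ℤ) ∣ A.a * i + A.q * c := by
  intro h
  refine A.gen i i0 (by rw [abs_le]; constructor <;> omega) ?_
  have := dvd_sub h (dvd_mul_right (A.q : ℤ) c)
  rwa [add_sub_cancel_right] at this

theorem q_NN (A : TAp) : (A.q : ℤ) ∣ A.NN := ⟨A.p, by unfold NN; ring⟩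

theorem ix_pos {δ : ℤ} (h : ¬ (A.p : ℤ) ∣ δ) : 0 < A.ix δ := by
  have := A.ix_nonneg δ
  rcases this.eq_or_lt with hc | hc
  · exfalso
    apply h
    have := ix_inj (A := A) (k := δ) (j := 0) (by rw [← hc, A.ix_zero])
    rwa [sub_zero] at this
  · exact hc

theorem ix_neg {δ : ℤ} (h : ¬ (A.p : ℤ) ∣ δ) : A.ix (-δ) = A.p - A.ix δ := by
  have h1 := ix_pos h
  have := ix_sub_lt (A := A) (m := 0) (k := δ) (by rw [A.ix_zero]; exact h1)
  rw [A.ix_zero, zero_sub, zero_sub] at this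
  rw [this]; ring

namespace VR

variable {T : A.Tie}

/-- the position is not `q` times an integer, and not `D` plus such -/
theorem P_ne (h : VR A T) {s s' : ℤ} (s0 : 0 ≤ s) (s1 : s < A.nn) (t0 : 0 ≤ s') (t1 : s' < A.nn)
    (hne : s ≠ s') (c : ℤ) : A.P s s' ≠ A.q * c ∧ A.P s s' ≠ A.D + A.q * c := by
  have hd : ¬ (A.p : ℤ) ∣ s' - s := nd_small (by omega) (by omega) (by omega)
  have i0 := ix_pos hd
  have i1 := A.ix_lt (s' - s)
  have h1 := A.q_NN.trans (A.P_cong' s s')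
  constructor
  · intro hc
    apply A.q_ne (i := A.ix (s' - s)) (c := A.kap s' - A.kap s - c) (by omega) (by omega)
      (by omega)
    rw [hc] at h1
    have := (dvd_neg).2 h1
    rwa [show -(A.q * c - A.q * (A.kap s' - A.kap s) - A.a * A.ix (s' - s))
      = A.a * A.ix (s' - s) + A.q * (A.kap s' - A.kap s - c) by ring] at this
  · intro hc
    apply A.q_ne (i := A.ix (s' - s) - A.p) (c := A.kap s' - A.kap s - c) (by omega) (by omega)
      (by omega)
    rw [hc] at h1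
    have := (dvd_neg).2 (dvd_add h1 (A.q_NN.trans A.D_cong))
    rwa [show -(A.D + A.q * c - A.q * (A.kap s' - A.kap s) - A.a * A.ix (s' - s)
      + (A.a * A.p - A.D)) = A.a * (A.ix (s' - s) - A.p) + A.q * (A.kap s' - A.kap s - c) by ring]
      at this

/-- lower bound for positions -/
theorem P_lb (h : VR A T) {s s' : ℤ} (s0 : 0 ≤ s) (s1 : s < A.nn) (t0 : 0 ≤ s') (t1 : s' < A.nn)
    (hne : s ≠ s') (hw : s < A.w) : A.D + A.q * s < A.P s s' := by
  have hq := A.q_pos'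
  have hn : A.nn = A.w + A.h := rfl
  have hd : ¬ (A.p : ℤ) ∣ s' - s := nd_small (by omega) (by omega) (by omega)
  have hn1 := h.P_ne s0 s1 t0 t1 hne
  have c1 := A.P_cong' s s'
  have p0 := A.P_nonneg s s'
  have p1 := A.P_lt s s'
  have dw := h.DW
  have dw0 := h.DW0
  have w1 := A.W1_bd
  have q6 := A.q6
  have hD := A.D_pos
  have hsg := A.hsg
  have hW1 : A.W1 = A.q * A.w + A.sg := rfl
  have hx0 := h.x0
  have hs := h.hs
  have k0 : A.kap s = 0 := A.kap0 (by omega)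
  have k1 := A.kapb t1
  rw [k0, sub_zero] at c1
  have b1 : (A.q : ℤ) * A.kap s' ≤ A.q * (A.w - 1) := mul_le_mul_of_nonneg_left k1.2 hq.le
  have b0 : 0 ≤ (A.q : ℤ) * A.kap s' := mul_nonneg hq.le k1.1
  have b2 : (A.q : ℤ) * s ≤ A.q * (A.w - 1) := mul_le_mul_of_nonneg_left (by omega) hq.le
  rw [mul_sub, mul_one] at b1 b2
  by_contra hc
  rcases lt_or_gt_of_ne hne with hlt | hgt
  · by_cases hi : A.ix (s' - s) = T.t
    · rw [hi] at c1
      have c2 := dvd_sub (dvd_add c1 h.at_cong) (dvd_refl A.NN)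
      rw [show A.P s s' - A.q * A.kap s' - A.a * T.t + (A.a * T.t + A.W1) - A.NN
        = A.P s s' - (A.NN - A.W1 + A.q * A.kap s') by ring] at c2
      have := eq_of_dvd c2 (by omega) (by rcases hsg with h | h <;> rw [h] at hW1 <;> omega)
      rcases hsg with h | h <;> rw [h] at hW1 <;> omega
    · have h1 := h.np' (δ := s' - s) (by omega) (by omega) hi c1 (by omega)
      have e : s ≤ min (A.w : ℤ) (A.h - (s' - s)) + A.kap s' := by unfold kap; omega
      have e2 : (A.q : ℤ) * s ≤ A.q * (min (A.w : ℤ) (A.h - (s' - s)) + A.kap s') :=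
        mul_le_mul_of_nonneg_left e hq.le
      rw [mul_add] at e2
      have := (hn1 s).2
      omega
  · have k2 : A.kap s' = 0 := A.kap0 (by omega)
    rw [k2, mul_zero, sub_zero] at c1
    by_cases hi : A.ix (-(s' - s)) = T.t
    · rw [ix_neg hd] at hi
      have hi' : A.ix (s' - s) = A.p - T.t := by omega
      rw [hi'] at c1
      have c2 := dvd_add (dvd_sub c1 h.at_cong) A.D_cong
      rw [show A.P s s' - A.a * (A.p - T.t) - (A.a * T.t + A.W1) + (A.a * A.p - A.D)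
        = A.P s s' - (A.W1 + A.D) by ring] at c2
      have := eq_of_dvd c2 (by omega) (by omega)
      rcases hsg with h | h <;> rw [h] at hW1 <;> omega
    · have c3 : A.NN ∣ (A.D - A.P s s') - A.a * A.ix (-(s' - s)) := by
        rw [ix_neg hd]
        have := (dvd_neg).2 (dvd_add c1 A.D_cong)
        rwa [show -(A.P s s' - A.a * A.ix (s' - s) + (A.a * A.p - A.D))
          = A.D - A.P s s' - A.a * (A.p - A.ix (s' - s)) by ring] at this
      have h1 := h.np' (δ := -(s' - s)) (by omega) (by omega) hi c3 (by omega)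
      have e : 0 ≤ min (A.w : ℤ) (A.h - -(s' - s)) := by omega
      have e2 : 0 ≤ (A.q : ℤ) * min (A.w : ℤ) (A.h - -(s' - s)) := mul_nonneg hq.le e
      have := (hn1 0).1
      omega

/-- lower bound for positions, right exits -/
theorem P_rb (h : VR A T) {s s' : ℤ} (s0 : 0 ≤ s) (s1 : s < A.nn) (t0 : 0 ≤ s') (t1 : s' < A.nn)
    (hne : s ≠ s') (hw : A.w ≤ s) : A.D + A.W1 - A.q * A.kap s ≤ A.P s s' := by
  have hq := A.q_pos'
  have hn : A.nn = A.w + A.h := rfl
  have hd : ¬ (A.p : ℤ) ∣ s' - s := nd_small (by omega) (by omega) (by omega)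
  have hn1 := h.P_ne s0 s1 t0 t1 hne
  have c1 := A.P_cong' s s'
  have p0 := A.P_nonneg s s'
  have p1 := A.P_lt s s'
  have dw := h.DW
  have dw0 := h.DW0
  have w1 := A.W1_bd
  have q6 := A.q6
  have hD := A.D_pos
  have hsg := A.hsg
  have hW1 : A.W1 = A.q * A.w + A.sg := rfl
  have hx0 := h.x0
  have hs := h.hs
  have k0 := A.kapb s1
  have k1 := A.kapb t1
  have b1 : (A.q : ℤ) * A.kap s' ≤ A.q * (A.w - 1) := mul_le_mul_of_nonneg_left k1.2 hq.le
  have b0 : 0 ≤ (A.q : ℤ) * A.kap s' := mul_nonneg hq.le k1.1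
  have b3 : (A.q : ℤ) * A.kap s ≤ A.q * (A.w - 1) := mul_le_mul_of_nonneg_left k0.2 hq.le
  have b4 : 0 ≤ (A.q : ℤ) * A.kap s := mul_nonneg hq.le k0.1
  rw [mul_sub, mul_one] at b1 b3
  rw [mul_sub] at c1
  by_contra hc
  rcases lt_or_gt_of_ne hne with hlt | hgt
  · have km : A.kap s ≤ A.kap s' := by unfold kap; omega
    have b5 : (A.q : ℤ) * A.kap s ≤ A.q * A.kap s' := mul_le_mul_of_nonneg_left km hq.le
    by_cases hi : A.ix (s' - s) = T.t
    · rw [hi] at c1
      have c2 := dvd_sub (dvd_add c1 h.at_cong) (dvd_refl A.NN)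
      rw [show A.P s s' - (A.q * A.kap s' - A.q * A.kap s) - A.a * T.t + (A.a * T.t + A.W1) - A.NN
        = A.P s s' - (A.NN - A.W1 + A.q * A.kap s' - A.q * A.kap s) by ring] at c2
      have := eq_of_dvd c2 (by omega) (by rcases hsg with h | h <;> rw [h] at hW1 <;> omega)
      omega
    · have h1 := h.np' (δ := s' - s) (by omega) (by omega) hi c1 (by omega)
      have e : A.w ≤ min (A.w : ℤ) (A.h - (s' - s)) + A.kap s' := by unfold kap; omega
      have e2 : (A.q : ℤ) * A.w ≤ A.q * (min (A.w : ℤ) (A.h - (s' - s)) + A.kap s') :=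
        mul_le_mul_of_nonneg_left e hq.le
      rw [mul_add] at e2
      have := (hn1 (A.w - A.kap s)).2
      rw [mul_sub] at this
      rcases hsg with h | h <;> rw [h] at hW1 <;> omega
  · have km : A.kap s' ≤ A.kap s := by unfold kap; omega
    have b5 : (A.q : ℤ) * A.kap s' ≤ A.q * A.kap s := mul_le_mul_of_nonneg_left km hq.le
    by_cases hi : A.ix (-(s' - s)) = T.t
    · rw [ix_neg hd] at hi
      have hi' : A.ix (s' - s) = A.p - T.t := by omega
      rw [hi'] at c1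
      have c2 := dvd_add (dvd_sub c1 h.at_cong) A.D_cong
      rw [show A.P s s' - (A.q * A.kap s' - A.q * A.kap s) - A.a * (A.p - T.t)
        - (A.a * T.t + A.W1) + (A.a * A.p - A.D)
        = A.P s s' - (A.W1 + A.D + A.q * A.kap s' - A.q * A.kap s) by ring] at c2
      have := eq_of_dvd c2 (by omega) (by rcases hsg with h | h <;> rw [h] at hW1 <;> omega)
      omega
    · have c3 : A.NN ∣ (A.D - (A.P s s' - (A.q * A.kap s' - A.q * A.kap s)))
          - A.a * A.ix (-(s' - s)) := by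
        rw [ix_neg hd]
        have := (dvd_neg).2 (dvd_add c1 A.D_cong)
        rwa [show -(A.P s s' - (A.q * A.kap s' - A.q * A.kap s) - A.a * A.ix (s' - s)
          + (A.a * A.p - A.D))
          = A.D - (A.P s s' - (A.q * A.kap s' - A.q * A.kap s))
            - A.a * (A.p - A.ix (s' - s)) by ring] at this
      have h1 := h.np' (δ := -(s' - s)) (by omega) (by omega) hi c3
        (by rcases hsg with h | h <;> rw [h] at hW1 <;> omega)
      have e : 0 ≤ min (A.w : ℤ) (A.h - -(s' - s)) + (A.kap s - A.kap s') := by unfold kap; omega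
      have e2 : 0 ≤ (A.q : ℤ) * (min (A.w : ℤ) (A.h - -(s' - s)) + (A.kap s - A.kap s')) :=
        mul_nonneg hq.le e
      rw [mul_add, mul_sub] at e2
      have := (hn1 0).1
      omega

theorem P_gt (h : VR A T) {s s' : ℤ} (s0 : 0 ≤ s) (s1 : s < A.nn) (t0 : 0 ≤ s') (t1 : s' < A.nn)
    (hne : s ≠ s') : A.D < A.P s s' := by
  have hq := A.q_pos'
  rcases lt_or_ge s (A.w : ℤ) with hw | hw
  · have := h.P_lb s0 s1 t0 t1 hne hw
    have : 0 ≤ (A.q : ℤ) * s := mul_nonneg hq.le s0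
    omega
  · have := h.P_rb s0 s1 t0 t1 hne hw
    have k0 := A.kapb s1
    have b3 : (A.q : ℤ) * A.kap s ≤ A.q * (A.w - 1) := mul_le_mul_of_nonneg_left k0.2 hq.le
    rw [mul_sub, mul_one] at b3
    have hsg := A.hsg
    have q6 := A.q6
    have hW1 : A.W1 = A.q * A.w + A.sg := rfl
    rcases hsg with h | h <;> rw [h] at hW1 <;> omega

/-- distances on a level -/
theorem cd_ge (h : VR A T) {y s s' : ℤ} (hi : A.ix (y + s) ≤ A.ix (y + s')) :
    A.cd y s s' = A.P s s' := by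
  have c1 := A.cd_cong y s s'
  have c2 := A.P_cong' s s'
  have e : A.ix (s' - s) = A.ix (y + s') - A.ix (y + s) := by
    rw [← ix_sub_ge hi, add_sub_add_left_eq_sub]
  rw [e] at c2
  unfold cs at c1
  rw [A.ix_U, A.ix_U] at c1
  have := A.cd_nonneg y s s'; have := A.cd_lt y s s'
  have := A.P_nonneg s s'; have := A.P_lt s s'
  apply eq_of_dvd (N := A.NN) _ (by omega) (by omega)
  have := dvd_sub c1 c2
  rwa [show A.cd y s s' - (A.a * A.ix (y + s') + A.q * A.kap s'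
    - (A.a * A.ix (y + s) + A.q * A.kap s)) - (A.P s s' - A.q * (A.kap s' - A.kap s)
    - A.a * (A.ix (y + s') - A.ix (y + s))) = A.cd y s s' - A.P s s' by ring] at this

theorem cd_lt' (h : VR A T) {y s s' : ℤ} (s0 : 0 ≤ s) (s1 : s < A.nn) (t0 : 0 ≤ s')
    (t1 : s' < A.nn) (hne : s ≠ s') (hi : A.ix (y + s') < A.ix (y + s)) :
    A.cd y s s' = A.P s s' - A.D := by
  have c1 := A.cd_cong y s s'
  have c2 := A.P_cong' s s'
  have e : A.ix (s' - s) = A.ix (y + s') - A.ix (y + s) + A.p := by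
    rw [← ix_sub_lt hi, add_sub_add_left_eq_sub]
  rw [e] at c2
  unfold cs at c1
  rw [A.ix_U, A.ix_U] at c1
  have := A.cd_nonneg y s s'; have := A.cd_lt y s s'
  have := A.P_nonneg s s'; have := A.P_lt s s'
  have := h.P_gt s0 s1 t0 t1 hne
  have := A.D_pos
  apply eq_of_dvd (N := A.NN) _ (by omega) (by omega)
  have := dvd_sub (dvd_sub c1 c2) A.D_cong
  rwa [show A.cd y s s' - (A.a * A.ix (y + s') + A.q * A.kap s'
    - (A.a * A.ix (y + s) + A.q * A.kap s)) - (A.P s s' - A.q * (A.kap s' - A.kap s)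
    - A.a * (A.ix (y + s') - A.ix (y + s) + A.p)) - (A.a * A.p - A.D)
    = A.cd y s s' - (A.P s s' - A.D) by ring] at this

theorem cd_or (h : VR A T) (y : ℤ) {s s' : ℤ} (s0 : 0 ≤ s) (s1 : s < A.nn) (t0 : 0 ≤ s')
    (t1 : s' < A.nn) (hne : s ≠ s') : A.cd y s s' = A.P s s' ∨ A.cd y s s' = A.P s s' - A.D := by
  rcases le_or_gt (A.ix (y + s)) (A.ix (y + s')) with hc | hc
  · left; exact h.cd_ge hc
  · right; exact h.cd_lt' s0 s1 t0 t1 hne hc

theorem cd_pos (h : VR A T) (y : ℤ) {s s' : ℤ} (s0 : 0 ≤ s) (s1 : s < A.nn) (t0 : 0 ≤ s')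
    (t1 : s' < A.nn) (hne : s ≠ s') : 0 < A.cd y s s' := by
  have := h.P_gt s0 s1 t0 t1 hne
  have := A.D_pos
  rcases h.cd_or y s0 s1 t0 t1 hne with h1 | h1 <;> omega

theorem cd_symm (h : VR A T) (y : ℤ) {s s' : ℤ} (s0 : 0 ≤ s) (s1 : s < A.nn) (t0 : 0 ≤ s')
    (t1 : s' < A.nn) (hne : s ≠ s') : A.cd y s s' + A.cd y s' s = A.NN := by
  have a := h.cd_pos y s0 s1 t0 t1 hne
  have b := h.cd_pos y t0 t1 s0 s1 (Ne.symm hne)
  have a' := A.cd_lt y s s'
  have b' := A.cd_lt y s' s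
  have c1 := A.cd_cong y s s'
  have c2 := A.cd_cong y s' s
  apply eq_of_dvd (N := A.NN) _ (by omega) (by omega)
  have := dvd_sub (dvd_add c1 c2) (dvd_refl A.NN)
  rwa [show A.cd y s s' - (A.cs y s' - A.cs y s) + (A.cd y s' s - (A.cs y s - A.cs y s')) - A.NN
    = A.cd y s s' + A.cd y s' s - A.NN by ring] at this

/-- between -/
theorem cd_add (h : VR A T) (y : ℤ) {s l m : ℤ} (hd : A.cd y s l ≤ A.cd y s m) :
    A.cd y s m = A.cd y s l + A.cd y l m := by
  have c1 := A.cd_cong y s l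
  have c2 := A.cd_cong y l m
  have c3 := A.cd_cong y s m
  have := A.cd_nonneg y s l; have := A.cd_lt y l m; have := A.cd_nonneg y l m
  have := A.cd_lt y s m
  have : A.cd y s m - A.cd y s l = A.cd y l m := by
    apply eq_of_dvd (N := A.NN) _ (by omega) (by omega)
    have := dvd_sub (dvd_sub c3 c1) c2
    rwa [show A.cd y s m - (A.cs y m - A.cs y s) - (A.cd y s l - (A.cs y l - A.cs y s))
      - (A.cd y l m - (A.cs y m - A.cs y l)) = A.cd y s m - A.cd y s l - A.cd y l m by ring]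
      at this
  omega

theorem P_diff_ge (h : VR A T) {s l m : ℤ} (hi : A.ix (l - s) ≤ A.ix (m - s)) :
    A.NN ∣ A.P l m - (A.P s m - A.P s l) := by
  have h1 := A.Q_diff_ge hi
  rw [sub_sub_sub_cancel_right] at h1
  have a1 := A.P_cong l m
  have a2 := A.P_cong s m
  have a3 := A.P_cong s l
  have := dvd_add (dvd_add (dvd_sub a1 a2) a3) h1
  rwa [show A.P l m - (A.Q (m - l) + A.q * (A.kap m - A.kap l))
    - (A.P s m - (A.Q (m - s) + A.q * (A.kap m - A.kap s)))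
    + (A.P s l - (A.Q (l - s) + A.q * (A.kap l - A.kap s)))
    + (A.Q (m - l) - (A.Q (m - s) - A.Q (l - s))) = A.P l m - (A.P s m - A.P s l) by ring] at this

theorem P_diff_lt (h : VR A T) {s l m : ℤ} (hi : A.ix (m - s) < A.ix (l - s)) :
    A.NN ∣ A.P l m - (A.P s m - A.P s l + A.D) := by
  have h1 := A.Q_diff_lt hi
  rw [sub_sub_sub_cancel_right] at h1
  have a1 := A.P_cong l m
  have a2 := A.P_cong s m
  have a3 := A.P_cong s l
  have := dvd_add (dvd_add (dvd_sub a1 a2) a3) h1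
  rwa [show A.P l m - (A.Q (m - l) + A.q * (A.kap m - A.kap l))
    - (A.P s m - (A.Q (m - s) + A.q * (A.kap m - A.kap s)))
    + (A.P s l - (A.Q (l - s) + A.q * (A.kap l - A.kap s)))
    + (A.Q (m - l) - (A.Q (m - s) - A.Q (l - s) + A.D))
    = A.P l m - (A.P s m - A.P s l + A.D) by ring] at this

/-- comparison, first case -/
theorem triA (h : VR A T) {s l m : ℤ} (s0 : 0 ≤ s) (s1 : s < A.nn) (l0 : 0 ≤ l) (l1 : l < A.nn)
    (m0 : 0 ≤ m) (m1 : m < A.nn) (hsl : s ≠ l) (hsm : s ≠ m) (hlm : l ≠ m)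
    (hP : A.P s l < A.P s m) (hi : A.ix (l - s) < A.ix (m - s)) :
    A.P l m = A.P s m - A.P s l ∧ A.P m l = A.NN + A.D - A.P l m := by
  have hN := A.NN_pos
  have hD := A.D_pos
  have a := h.P_diff_ge hi.le
  have a' := h.P_diff_lt hi
  have b := A.P_lt l m
  have b' := h.P_gt l0 l1 m0 m1 hlm
  have c := A.P_lt s m
  have d := h.P_gt s0 s1 l0 l1 hsl
  have e := A.P_lt m l
  have e' := h.P_gt m0 m1 l0 l1 (Ne.symm hlm)
  have r := eq_of_dvd (N := A.NN) a (by omega) (by omega)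
  refine ⟨r, ?_⟩
  apply eq_of_dvd (N := A.NN) _ (by omega) (by omega)
  rw [r]
  have := dvd_sub a' (dvd_refl A.NN)
  rwa [show A.P m l - (A.P s l - A.P s m + A.D) - A.NN
    = A.P m l - (A.NN + A.D - (A.P s m - A.P s l)) by ring] at this

theorem triB (h : VR A T) {s l m : ℤ} (s0 : 0 ≤ s) (s1 : s < A.nn) (l0 : 0 ≤ l) (l1 : l < A.nn)
    (m0 : 0 ≤ m) (m1 : m < A.nn) (hsl : s ≠ l) (hsm : s ≠ m) (hlm : l ≠ m)
    (hP : A.P s l < A.P s m) (hi : A.ix (m - s) < A.ix (l - s)) :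
    A.P l m = A.P s m - A.P s l + A.D ∧ A.P m l = A.NN + A.D - A.P l m := by
  have hN := A.NN_pos
  have hD := A.D_pos
  have a := h.P_diff_lt hi
  have a' := h.P_diff_ge hi.le
  have b := A.P_lt l m
  have b' := h.P_gt l0 l1 m0 m1 hlm
  have c := A.P_lt s m
  have d := h.P_gt s0 s1 l0 l1 hsl
  have e := A.P_lt m l
  have e' := h.P_gt m0 m1 l0 l1 (Ne.symm hlm)
  have f : A.P m l = A.P s l - A.P s m + A.NN := by
    apply eq_of_dvd (N := A.NN) _ (by omega) (by omega)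
    have := dvd_sub a' (dvd_refl A.NN)
    rwa [show A.P m l - (A.P s l - A.P s m) - A.NN = A.P m l - (A.P s l - A.P s m + A.NN) by ring]
      at this
  have r : A.P l m = A.P s m - A.P s l + A.D := eq_of_dvd (N := A.NN) a (by omega) (by omega)
  exact ⟨r, by omega⟩

theorem tri (h : VR A T) {s l m : ℤ} (s0 : 0 ≤ s) (s1 : s < A.nn) (l0 : 0 ≤ l) (l1 : l < A.nn)
    (m0 : 0 ≤ m) (m1 : m < A.nn) (hsl : s ≠ l) (hsm : s ≠ m) (hlm : l ≠ m)
    (hP : A.P s l < A.P s m) :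
    (A.P l m = A.P s m - A.P s l ∨ A.P l m = A.P s m - A.P s l + A.D) ∧
      A.P m l = A.NN + A.D - A.P l m ∧ A.P l m < A.P s m ∧ A.P s l < A.P m l := by
  have hD := A.D_pos
  have d := h.P_gt s0 s1 l0 l1 hsl
  have c := A.P_lt s m
  have ne : A.ix (m - s) ≠ A.ix (l - s) := by
    apply ix_ne
    rw [sub_sub_sub_cancel_right]
    exact nd_small (by omega) (by omega) (by omega)
  rcases lt_or_gt_of_ne ne with hi | hi
  · have := h.triB s0 s1 l0 l1 m0 m1 hsl hsm hlm hP hi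
    have e := A.P_lt m l
    refine ⟨Or.inr this.1, this.2, by omega, by omega⟩
  · have := h.triA s0 s1 l0 l1 m0 m1 hsl hsm hlm hP hi
    refine ⟨Or.inl this.1, this.2, by omega, by omega⟩

/-- **invariance of the order** -/
theorem ord (h : VR A T) (y : ℤ) {s l m : ℤ} (s0 : 0 ≤ s) (s1 : s < A.nn) (l0 : 0 ≤ l)
    (l1 : l < A.nn) (m0 : 0 ≤ m) (m1 : m < A.nn) (hsl : s ≠ l) (hsm : s ≠ m) (hlm : l ≠ m)
    (hP : A.P s l < A.P s m) : A.cd y s l < A.cd y s m := by
  have hD := A.D_pos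
  have ne : A.ix (m - s) ≠ A.ix (l - s) := by
    apply ix_ne
    rw [sub_sub_sub_cancel_right]
    exact nd_small (by omega) (by omega) (by omega)
  rcases lt_or_gt_of_ne ne with hi | hi
  · rcases le_or_gt (A.ix (y + s)) (A.ix (y + m)) with hc | hc
    · rw [h.cd_ge hc]
      rcases h.cd_or y s0 s1 l0 l1 hsl with h1 | h1 <;> omega
    · have hc' : A.ix (y + l) < A.ix (y + s) := by
        by_contra hcc
        have e1 := ix_sub_lt hc
        have e2 := ix_sub_ge (not_lt.1 hcc)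
        rw [add_sub_add_left_eq_sub] at e1 e2
        have := A.ix_lt (y + l); have := A.ix_nonneg (y + m)
        omega
      rw [h.cd_lt' s0 s1 m0 m1 hsm hc, h.cd_lt' s0 s1 l0 l1 hsl hc']
      omega
  · have a := h.triA s0 s1 l0 l1 m0 m1 hsl hsm hlm hP hi
    have e := h.P_gt l0 l1 m0 m1 hlm
    rcases h.cd_or y s0 s1 l0 l1 hsl with h1 | h1 <;>
      rcases h.cd_or y s0 s1 m0 m1 hsm with h2 | h2 <;> omega

theorem P_inj (h : VR A T) {s l m : ℤ} (s0 : 0 ≤ s) (s1 : s < A.nn) (l0 : 0 ≤ l) (l1 : l < A.nn)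
    (m0 : 0 ≤ m) (m1 : m < A.nn) (hP : A.P s l = A.P s m) : l = m := by
  by_contra hlm
  have c1 := A.q_NN.trans (A.P_cong' s l)
  have c2 := A.q_NN.trans (A.P_cong' s m)
  rw [hP] at c1
  have c3 := dvd_sub c2 c1
  have a0 := A.ix_nonneg (l - s); have a1 := A.ix_lt (l - s)
  have b0 := A.ix_nonneg (m - s); have b1 := A.ix_lt (m - s)
  have ne : A.ix (m - s) ≠ A.ix (l - s) := by
    apply ix_ne
    rw [sub_sub_sub_cancel_right]
    exact nd_small (by omega) (by omega) (by omega)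
  apply A.q_ne (i := A.ix (l - s) - A.ix (m - s)) (c := A.kap l - A.kap m) (by omega) (by omega)
    (by omega)
  rwa [show A.P s m - A.q * (A.kap m - A.kap s) - A.a * A.ix (m - s)
    - (A.P s m - A.q * (A.kap l - A.kap s) - A.a * A.ix (l - s))
    = A.a * (A.ix (l - s) - A.ix (m - s)) + A.q * (A.kap l - A.kap m) by ring] at c3

end VR

end TAp

end Pool.Agent.H78.Tie
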