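import Pool.Agent.H98.Tie.VBase

/-!
# Region `x < 0`, `w + |x| ≤ h`, `ep = -1` : the cyclic order of a level
-/

namespace Pool.Agent.H78.Tie

open Finset
open Pool.Agent.H98.Flat
open Pool.Agent.H67.Flat

set_option linter.dupNamespace false
set_option linter.unusedVariables false

/-- disjoint arcs -/
theorem arcs_le (N : ℕ) (hN : 0 < N) (n : ℕ) (a L : ℕ → ℤ) (h0 : ∀ i < n, 0 ≤ L i)
    (h1 : ∀ i < n, L i ≤ N)
    (hd : ∀ i < n, ∀ j < n, i ≠ j → ∀ u, ph (N : ℤ) (a i) (L i) u = 1 →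
      ph (N : ℤ) (a j) (L j) u = 1 → False) :
    ∑ i ∈ range n, L i ≤ N := by
  have e : ∑ i ∈ range n, L i = ∑ u ∈ range N, ∑ i ∈ range n, ph (N : ℤ) (a i) (L i) u := by
    rw [Finset.sum_comm]
    refine Finset.sum_congr rfl fun i hi => ?_
    have := Finset.mem_range.1 hi
    rw [sum_ph N hN _ _ (h0 i this) (h1 i this)]
  rw [e]
  have : ∀ u ∈ range N, ∑ i ∈ range n, ph (N : ℤ) (a i) (L i) u ≤ 1 := by
    intro u _
    by_cases hc : ∃ i0 < n, ph (N : ℤ) (a i0) (L i0) u = 1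
    · obtain ⟨i0, hi0, hp⟩ := hc
      rw [Finset.sum_eq_single i0, hp]
      · intro j hj hne
        have hj := Finset.mem_range.1 hj
        by_contra hc
        apply hd i0 hi0 j hj (Ne.symm hne) u hp
        have := ph_nonneg (N : ℤ) (a j) (L j) u
        have := ph_le_one (N : ℤ) (a j) (L j) u
        omega
      · intro hh; exact absurd (Finset.mem_range.2 hi0) hh
    · push Not at hc
      rw [Finset.sum_eq_zero]
      · norm_num
      · intro i hi
        have h2 := hc i (Finset.mem_range.1 hi)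
        have := ph_nonneg (N : ℤ) (a i) (L i) u
        have := ph_le_one (N : ℤ) (a i) (L i) u
        omega
  calc _ ≤ ∑ u ∈ range N, (1 : ℤ) := Finset.sum_le_sum this
    _ = N := by simp

theorem sum_dv_eq {N : ℤ} {n : ℕ} {z : ℕ → ℤ} {i0 : ℤ} {P : Prop} [Decidable P]
    (h : ∀ i < n, (N ∣ z i ↔ (P ∧ (i : ℤ) = i0))) :
    ∑ i ∈ range n, dv N (z i) = if P ∧ 0 ≤ i0 ∧ i0 < n then 1 else 0 := by
  by_cases hc : P ∧ 0 ≤ i0 ∧ i0 < n
  · rw [if_pos hc, Finset.sum_eq_single i0.toNat]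
    · apply dv_of
      rw [h _ (by omega)]
      exact ⟨hc.1, by omega⟩
    · intro j hj hne
      apply dv_not
      rw [h j (Finset.mem_range.1 hj)]
      rintro ⟨_, h3⟩
      omega
    · intro hh; exact absurd (Finset.mem_range.2 (by omega)) hh
  · rw [if_neg hc]
    apply Finset.sum_eq_zero
    intro i hi
    have hi := Finset.mem_range.1 hi
    apply dv_not
    rw [h i hi]
    rintro ⟨h1, h2⟩
    exact hc ⟨h1, by omega, by omega⟩

namespace TAp

variable {A : TAp}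

/-- `s'` is the right neighbour of `s` on every level -/
def Nx (A : TAp) (s s' : ℤ) : Prop := 0 ≤ s ∧ s < A.nn ∧ 0 ≤ s' ∧ s' < A.nn ∧ s' ≠ s ∧
  ∀ j, 0 ≤ j → j < A.nn → j ≠ s → j ≠ s' → A.P s s' < A.P s j

/-- value of `g` on the crossing of `s` -/
def Gam (A : TAp) (s : ℤ) : ℤ := (A.cfg 0).g 0 (A.cs 0 s + 1)

theorem k0_bd (A : TAp) : 1 ≤ A.k0 ∧ A.k0 ≤ 2 ∧ A.k0 ≤ A.sg + 2 ∧ A.sg + 1 ≤ A.k0 := by
  rcases A.k0_cases with ⟨h1, h2⟩ | ⟨h1, h2⟩ <;> rw [h1, h2] <;> norm_num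

namespace VR

variable {T : A.Tie}

/-- two arcs which start at different crossings -/
theorem arc_disj (h : VR A T) {y k m L L' u : ℤ} (hL : L ≤ A.cd y k m) (hL' : L' ≤ A.cd y m k)
    (h1 : ph A.NN (A.cs y k) L u = 1) (h2 : ph A.NN (A.cs y m) L' u = 1) : False := by
  have hN := A.NN_pos
  rw [ph_eq_one_iff] at h1 h2
  have a0 := Int.emod_nonneg (u - A.cs y k) hN.ne'
  have b0 := Int.emod_nonneg (u - A.cs y m) hN.ne'
  have a1 := Int.emod_lt_of_pos (u - A.cs y k) hN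
  have b1 := Int.emod_lt_of_pos (u - A.cs y m) hN
  have ea := Int.emod_add_mul_ediv (u - A.cs y k) A.NN
  have eb := Int.emod_add_mul_ediv (u - A.cs y m) A.NN
  have c1 := A.cd_cong y k m
  have c2 := A.cd_cong y m k
  have d0 := A.cd_nonneg y k m
  have d1 := A.cd_lt y k m
  have d2 := A.cd_nonneg y m k
  have d3 := A.cd_lt y m k
  set x := (u - A.cs y k) % A.NN
  set z := (u - A.cs y m) % A.NN
  rcases le_or_gt z x with hc | hc
  · have : A.cd y k m = x - z := by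
      apply eq_of_dvd (N := A.NN) _ (by omega) (by omega)
      obtain ⟨t, ht⟩ := c1
      exact ⟨t + (u - A.cs y k) / A.NN - (u - A.cs y m) / A.NN, by
        linear_combination ht - ea + eb⟩
    omega
  · have : A.cd y m k = z - x := by
      apply eq_of_dvd (N := A.NN) _ (by omega) (by omega)
      obtain ⟨t, ht⟩ := c2
      exact ⟨t - (u - A.cs y k) / A.NN + (u - A.cs y m) / A.NN, by
        linear_combination ht + ea - eb⟩
    omega

theorem sig_le (h : VR A T) : T.sig ≤ A.h := by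
  have := h.hs; unfold Tie.sig; exact this

theorem sig_gt (h : VR A T) : (A.w : ℤ) < T.sig := by
  have := h.x0; unfold Tie.sig; omega

theorem basic (h : VR A T) : A.nn = A.w + A.h ∧ T.sig ≤ A.h ∧ A.w < T.sig ∧ 2 ≤ (A.w : ℤ) ∧
    2 * (A.h : ℤ) < A.p ∧ (A.p : ℤ) < A.q ∧ A.W1 = A.q * A.w + A.sg ∧
    (A.cfg 0).W = A.q * A.w ∧ (A.sg = 1 ∨ A.sg = -1) :=
  ⟨rfl, h.sig_le, h.sig_gt, by have := A.hw; omega, by have := A.h2; omega, A.pq', rfl, rfl, A.hsg⟩

theorem qk (A : TAp) {s : ℤ} (h : s < A.nn) : 0 ≤ (A.q : ℤ) * A.kap s ∧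
    (A.q : ℤ) * A.kap s ≤ A.q * A.w - A.q := by
  have hq := A.q_pos'
  have k := A.kapb h
  refine ⟨mul_nonneg hq.le k.1, ?_⟩
  have := mul_le_mul_of_nonneg_left k.2 hq.le
  rw [mul_sub, mul_one] at this
  omega

theorem exists_next (h : VR A T) {s : ℤ} (h0 : 0 ≤ s) (h1 : s < A.nn) : ∃ s', A.Nx s s' := by
  have n4 := A.nn_ge
  obtain ⟨s', hs', hmin⟩ := Finset.exists_min_image ((Finset.Ico (0 : ℤ) A.nn).erase s)
    (fun j => A.P s j) (by
      rcases eq_or_ne s 0 with hc | hc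
      · exact ⟨1, by rw [Finset.mem_erase, Finset.mem_Ico]; omega⟩
      · exact ⟨0, by rw [Finset.mem_erase, Finset.mem_Ico]; omega⟩)
  rw [Finset.mem_erase, Finset.mem_Ico] at hs'
  refine ⟨s', h0, h1, hs'.2.1, hs'.2.2, hs'.1, ?_⟩
  intro j j0 j1 j2 j3
  have := hmin j (by rw [Finset.mem_erase, Finset.mem_Ico]; exact ⟨j2, j0, j1⟩)
  rcases this.eq_or_lt with hc | hc
  · exact absurd (h.P_inj h0 h1 hs'.2.1 hs'.2.2 j0 j1 hc).symm j3
  · exact hc

theorem exists_pred (h : VR A T) {s' : ℤ} (h0 : 0 ≤ s') (h1 : s' < A.nn) : ∃ s, A.Nx s s' := by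
  have n4 := A.nn_ge
  obtain ⟨s, hs, hmin⟩ := Finset.exists_min_image ((Finset.Ico (0 : ℤ) A.nn).erase s')
    (fun j => A.P j s') (by
      rcases eq_or_ne s' 0 with hc | hc
      · exact ⟨1, by rw [Finset.mem_erase, Finset.mem_Ico]; omega⟩
      · exact ⟨0, by rw [Finset.mem_erase, Finset.mem_Ico]; omega⟩)
  rw [Finset.mem_erase, Finset.mem_Ico] at hs
  refine ⟨s, hs.2.1, hs.2.2, h0, h1, Ne.symm hs.1, ?_⟩
  intro j j0 j1 j2 j3
  by_contra hc
  rcases (not_lt.1 hc).eq_or_lt with he | he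
  · exact j3 (h.P_inj hs.2.1 hs.2.2 j0 j1 h0 h1 he)
  · have h3 := (h.tri hs.2.1 hs.2.2 j0 j1 h0 h1 (Ne.symm j2) hs.1 j3 he).2.2.1
    have h4 := hmin j (by rw [Finset.mem_erase, Finset.mem_Ico]; exact ⟨j3, j0, j1⟩)
    omega

theorem pred_unique (h : VR A T) {s s2 s' : ℤ} (a : A.Nx s s') (b : A.Nx s2 s') : s = s2 := by
  by_contra hne
  obtain ⟨a1, a2, a3, a4, a5, a6⟩ := a
  obtain ⟨b1, b2, b3, b4, b5, b6⟩ := b
  have h1 := a6 s2 b1 b2 (Ne.symm hne) (Ne.symm b5)
  have h2 := b6 s a1 a2 hne (Ne.symm a5)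
  have h3 := (h.tri a1 a2 a3 a4 b1 b2 (Ne.symm a5) hne b5 h1).2.2.2
  have h4 := (h.tri b1 b2 b3 b4 a1 a2 (Ne.symm b5) (Ne.symm hne) a5 h2).2.2.2
  omega

theorem next_unique (h : VR A T) {s s1 s2 : ℤ} (a : A.Nx s s1) (b : A.Nx s s2) : s1 = s2 := by
  by_contra hne
  have h1 := a.2.2.2.2.2 s2 b.2.2.1 b.2.2.2.1 b.2.2.2.2.1 (Ne.symm hne)
  have h2 := b.2.2.2.2.2 s1 a.2.2.1 a.2.2.2.1 a.2.2.2.2.1 hne
  omega

/-- position of the tied neighbour -/
theorem P_sig (h : VR A T) {s : ℤ} (h0 : T.sig ≤ s) (h1 : s < A.nn) :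
    A.P s (s - T.sig) = A.D + A.W1 - A.q * A.kap s := by
  obtain ⟨hn, b1, b2, b3, b4, b5, b6, b7, b8⟩ := h.basic
  have k := qk A h1
  have dw := h.DW
  have hD := A.D_pos
  have w := A.W1_bd
  have hq := A.q6
  unfold P
  rw [show s - T.sig - s = -T.sig by ring, h.Q_nsig, A.kap0 (s := s - T.sig) (by omega),
    Int.emod_eq_of_lt]
  · ring
  · rw [mul_sub, mul_zero]
    rcases b8 with h | h <;> rw [h] at b6 <;> omega
  · rw [mul_sub, mul_zero]; omega

theorem Nx_sig (h : VR A T) {s : ℤ} (h0 : T.sig ≤ s) (h1 : s < A.nn) : A.Nx s (s - T.sig) := by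
  obtain ⟨hn, b1, b2, b3, b4, b5, b6, b7, b8⟩ := h.basic
  refine ⟨by omega, h1, by omega, by omega, by omega, ?_⟩
  intro j j0 j1 j2 j3
  have h2 := h.P_rb (s := s) (s' := j) (by omega) h1 j0 j1 (Ne.symm j2) (by omega)
  have h3 := h.P_sig h0 h1
  rcases h2.eq_or_lt with hc | hc
  · exfalso
    apply j3
    exact h.P_inj (s := s) (by omega) h1 j0 j1 (by omega) (by omega) (by omega)
  · omega

theorem Nx_top (h : VR A T) {s s' : ℤ} (a : A.Nx s s') (hs : s < T.sig) : A.nn - T.sig ≤ s' := by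
  by_contra hc
  have b := h.Nx_sig (s := s' + T.sig) (by have := a.2.2.1; omega) (by omega)
  rw [add_sub_cancel_right] at b
  have := h.pred_unique a b
  have := a.2.2.1
  omega

/-- nothing lies between neighbours -/
theorem Nx_lt (h : VR A T) {s s' : ℤ} (a : A.Nx s s') (y : ℤ) {j : ℤ} (j0 : 0 ≤ j)
    (j1 : j < A.nn) (hj : j ≠ s) (hj' : j ≠ s') : A.cd y s s' < A.cd y s j := by
  obtain ⟨a1, a2, a3, a4, a5, a6⟩ := a
  exact h.ord y a1 a2 a3 a4 j0 j1 (Ne.symm a5) (Ne.symm hj) (Ne.symm hj') (a6 j j0 j1 hj hj')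

theorem Nx_le (h : VR A T) {s s' : ℤ} (a : A.Nx s s') (y : ℤ) {j : ℤ} (j0 : 0 ≤ j)
    (j1 : j < A.nn) (hj : j ≠ s) : A.cd y s s' ≤ A.cd y s j := by
  by_cases hc : j = s'
  · rw [hc]
  · exact (h.Nx_lt a y j0 j1 hj hc).le

/-- distances between left walls are multiples of `p` -/
theorem cd_p (h : VR A T) (y : ℤ) {s s' : ℤ} (s0 : 0 ≤ s) (s1 : s ≤ A.h) (t0 : 0 ≤ s')
    (t1 : s' ≤ A.h) (hne : s ≠ s') : (A.p : ℤ) ∣ A.cd y s s' ∧ (A.p : ℤ) ≤ A.cd y s s' := by
  obtain ⟨hn, b1, b2, b3, b4, b5, b6, b7, b8⟩ := h.basic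
  have h1 := A.p_NN.trans (A.cd_cong y s s')
  unfold cs at h1
  rw [A.kap0 s1, A.kap0 t1, mul_zero, add_zero, add_zero] at h1
  have h2 := dvd_sub (A.U_dvd 0 (y + s')) (A.U_dvd 0 (y + s))
  have h3 := dvd_add h1 h2
  rw [sub_add_cancel] at h3
  exact ⟨h3, Int.le_of_dvd (h.cd_pos y s0 (by omega) t0 (by omega) hne) h3⟩

/-- right exits -/
theorem cd_rb (h : VR A T) (y : ℤ) {s s' : ℤ} (s0 : 0 ≤ s) (s1 : s < A.nn) (t0 : 0 ≤ s')
    (t1 : s' < A.nn) (hne : s ≠ s') (hw : A.w ≤ s) : A.W1 - A.q * A.kap s ≤ A.cd y s s' := by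
  have h1 := h.P_rb s0 s1 t0 t1 hne hw
  have hD := A.D_pos
  rcases h.cd_or y s0 s1 t0 t1 hne with h2 | h2 <;> omega

theorem cd2 (h : VR A T) (y : ℤ) {s s' : ℤ} (s0 : 0 ≤ s) (s1 : s < A.nn) (t0 : 0 ≤ s')
    (t1 : s' < A.nn) (hne : s ≠ s') (hs : s' ≤ A.h ∨ s ≠ 0) : 3 ≤ A.cd y s s' := by
  obtain ⟨hn, b1, b2, b3, b4, b5, b6, b7, b8⟩ := h.basic
  have q6 := A.q6
  have p5 := A.p5
  have hD := A.D_pos
  have w1 := A.W1_bd
  rcases lt_or_ge s (A.w : ℤ) with hw | hw
  · by_cases hs0 : s = 0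
    · have := (h.cd_p y (s := s) (s' := s') s0 (by omega) t0
        (by rcases hs with h | h; exact h; exact absurd hs0 h) hne).2
      omega
    · have h1 := h.P_lb s0 s1 t0 t1 hne hw
      have h3 : (A.q : ℤ) * 1 ≤ A.q * s := mul_le_mul_of_nonneg_left (by omega) (by omega)
      rcases h.cd_or y s0 s1 t0 t1 hne with h2 | h2 <;> omega
  · have h1 := h.cd_rb y s0 s1 t0 t1 hne hw
    have k := qk A s1
    rcases b8 with h | h <;> rw [h] at b6 <;> omega

/-- combine two adjacent arcs -/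
theorem ph_pair {N a L L' x e : ℤ} (hN : 0 < N) (h0 : 0 ≤ L) (h1 : 0 ≤ L') (h2 : L + L' ≤ N + 1)
    (he : N ∣ x - (a + e)) (e1 : 1 ≤ e) (e2 : e < N) :
    ph N a L x + ph N (a + L) L' x = if e < L + L' then 1 else 0 := by
  rw [ph_at he (by omega) e2]
  by_cases hc : e < L
  · rw [if_pos hc, if_pos (by omega), ph_of_le]
    · norm_num
    · rw [emod_congr (b := e - L + N), Int.emod_eq_of_lt (by omega) (by omega)]
      · omega
      · have := dvd_sub he (dvd_refl N)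
        rwa [show x - (a + e) - N = x - (a + L) - (e - L + N) by ring] at this
  · rw [if_neg hc, ph_at (t := e - L) (by
      rwa [show x - (a + L + (e - L)) = x - (a + e) by ring]) (by omega) (by omega), zero_add]
    by_cases hc2 : e < L + L'
    · rw [if_pos hc2, if_pos (by omega)]
    · rw [if_neg hc2, if_neg (by omega)]

theorem ell_bd (h : VR A T) (k : ℤ) : (A.p : ℤ) ≤ (A.cfg 0).ell k ∧
    (A.cfg 0).ell k + A.W1 ≤ A.NN := by
  obtain ⟨hn, b1, b2, b3, b4, b5, b6, b7, b8⟩ := h.basic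
  have e : (A.cfg 0).ell k = A.cd k 0 A.h := by
    unfold cd cs
    rw [A.kap0 (s := 0) (by omega), A.kap0 (s := (A.h : ℤ)) le_rfl, mul_zero, add_zero, add_zero,
      add_zero]
    rfl
  have h1 := (h.cd_p k (s := 0) (s' := A.h) le_rfl (by omega) (by omega) le_rfl (by omega))
  have h3 := h.cd_symm k (s := 0) (s' := A.h) le_rfl (by omega) (by omega) (by omega) (by omega)
  have h4 := h.cd_rb k (s := A.h) (s' := 0) (by omega) (by omega) le_rfl (by omega) (by omega)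
    (by omega)
  rw [A.kap0 (s := (A.h : ℤ)) le_rfl, mul_zero, sub_zero] at h4
  rw [e]
  omega

/-- the bottom entry of the partner -/
theorem cd_h (h : VR A T) {y i : ℤ} (i0 : 0 ≤ i) (i1 : i < A.w) :
    A.cd y i (i + A.h) = (A.cfg 0).ell (y + i) + A.q * i := by
  obtain ⟨hn, b1, b2, b3, b4, b5, b6, b7, b8⟩ := h.basic
  have q6 := A.q6
  have hb := h.ell_bd (y + i)
  have q0 : 0 ≤ (A.q : ℤ) * i := mul_nonneg (by omega) i0
  have q1 : (A.q : ℤ) * i ≤ A.q * (A.w - 1) := mul_le_mul_of_nonneg_left (by omega) (by omega)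
  rw [mul_sub, mul_one] at q1
  have c1 := A.cd_cong y i (i + A.h)
  have c2 : A.NN ∣ _ := (A.cfg 0).U_ell (y + i)
  have hh : (((A.cfg 0).h : ℕ) : ℤ) = A.h := rfl
  rw [hh] at c2
  unfold cs at c1
  rw [A.kap0 (s := i) (by omega), A.kaph (s := i + A.h) (by omega), mul_zero, add_zero,
    add_sub_cancel_right, ← add_assoc] at c1
  have := A.cd_nonneg y i (i + A.h); have := A.cd_lt y i (i + A.h)
  apply eq_of_dvd (N := A.NN) _ (by omega)
    (by rcases b8 with h | h <;> rw [h] at b6 <;> omega)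
  have := dvd_sub c1 c2
  rwa [show A.cd y i (i + A.h) - ((A.cfg 0).U (y + i + A.h) + A.q * i - (A.cfg 0).U (y + i))
    - ((A.cfg 0).U (y + i) + (A.cfg 0).ell (y + i) - (A.cfg 0).U (y + i + A.h))
    = A.cd y i (i + A.h) - ((A.cfg 0).ell (y + i) + A.q * i) by ring] at this

/-- contribution of a pair of labels to `g` on a crossing -/
theorem term1 (h : VR A T) (y : ℤ) {s i : ℤ} (s0 : 0 ≤ s) (s1 : s < A.nn) (i0 : 0 ≤ i)
    (i1 : i < A.w) :
    ph A.NN ((A.cfg 0).U (y + i)) ((A.cfg 0).ell (y + i)) (A.cs y s + 1)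
      + ph A.NN ((A.cfg 0).U (y + i + A.h)) (A.cfg 0).W (A.cs y s + 1)
      = if s = i ∨ s = i + A.h ∨ A.P i s < A.P i (i + A.h) then 1 else 0 := by
  obtain ⟨hn, b1, b2, b3, b4, b5, b6, b7, b8⟩ := h.basic
  have hN := A.NN_pos
  have q6 := A.q6
  have p5 := A.p5
  have hb := h.ell_bd (y + i)
  have w1 := A.W1_bd
  have q0 : 0 ≤ (A.q : ℤ) * i := mul_nonneg (by omega) i0
  have q1 : (A.q : ℤ) * i ≤ A.q * (A.w - 1) := mul_le_mul_of_nonneg_left (by omega) (by omega)
  rw [mul_sub, mul_one] at q1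
  have ki : A.kap i = 0 := A.kap0 (by omega)
  have c0 := h.cd_h (y := y) i0 i1
  -- the offset
  have key : ∀ e : ℤ, A.NN ∣ A.cs y s + 1 - ((A.cfg 0).U (y + i) + e) → 1 ≤ e → e < A.NN →
      ph A.NN ((A.cfg 0).U (y + i)) ((A.cfg 0).ell (y + i)) (A.cs y s + 1)
      + ph A.NN ((A.cfg 0).U (y + i + A.h)) (A.cfg 0).W (A.cs y s + 1)
      = if e < (A.cfg 0).ell (y + i) + (A.cfg 0).W then 1 else 0 := by
    intro e he e1 e2
    have c2 : A.NN ∣ _ := (A.cfg 0).U_ell (y + i)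
    have hh : (((A.cfg 0).h : ℕ) : ℤ) = A.h := rfl
    rw [hh] at c2
    have : ph A.NN ((A.cfg 0).U (y + i + A.h)) (A.cfg 0).W (A.cs y s + 1)
        = ph A.NN ((A.cfg 0).U (y + i) + (A.cfg 0).ell (y + i)) (A.cfg 0).W (A.cs y s + 1) := by
      apply ph_congr
      rwa [show A.cs y s + 1 - (A.cfg 0).U (y + i + A.h)
        - (A.cs y s + 1 - ((A.cfg 0).U (y + i) + (A.cfg 0).ell (y + i)))
        = (A.cfg 0).U (y + i) + (A.cfg 0).ell (y + i) - (A.cfg 0).U (y + i + A.h) by ring]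
    rw [this]
    exact ph_pair hN (by omega) (by rcases b8 with h | h <;> rw [h] at b6 <;> omega)
      (by rcases b8 with h | h <;> rw [h] at b6 <;> omega) he e1 e2
  by_cases hsi : s = i
  · rw [key 1 (by
      unfold cs
      rw [hsi, ki]; simp) le_rfl (by omega), if_pos (by
        rcases b8 with h | h <;> rw [h] at b6 <;> omega), if_pos (Or.inl hsi)]
  · have c3 := A.cd_cong y i s
    have c4 := h.cd_pos y i0 (by omega) s0 s1 (Ne.symm hsi)
    have c5 := h.cd_symm y i0 (by omega) s0 s1 (Ne.symm hsi)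
    have c6 := h.cd2 y s0 s1 i0 (by omega) hsi (Or.inl (by omega))
    have c7 : A.NN ∣ A.cs y s + 1 - ((A.cfg 0).U (y + i) + (A.cd y i s + 1)) := by
      have : A.cs y i = (A.cfg 0).U (y + i) := by unfold cs; rw [ki]; simp
      rw [this] at c3
      have := (dvd_neg).2 c3
      rwa [show -(A.cd y i s - (A.cs y s - (A.cfg 0).U (y + i)))
        = A.cs y s + 1 - ((A.cfg 0).U (y + i) + (A.cd y i s + 1)) by ring] at this
    rw [key _ c7 (by omega) (by omega)]
    by_cases hsh : s = i + A.h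
    · rw [if_pos (Or.inr (Or.inl hsh)), if_pos]
      rw [hsh, c0]
      rcases b8 with h | h <;> rw [h] at b6 <;> omega
    · by_cases hP : A.P i s < A.P i (i + A.h)
      · rw [if_pos (Or.inr (Or.inr hP)), if_pos]
        have := h.ord y i0 (by omega) s0 s1 (by omega) (by omega) (Ne.symm hsi)
          (by omega : i ≠ i + A.h) hsh hP
        omega
      · have hn' : ¬ (s = i ∨ s = i + A.h ∨ A.P i s < A.P i (i + A.h)) := by
          rintro (h1 | h1 | h1)
          · exact hsi h1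
          · exact hsh h1
          · exact hP h1
        rw [if_neg hn', if_neg]
        have hP' : A.P i (i + A.h) < A.P i s := by
          rcases (not_lt.1 hP).eq_or_lt with he | he
          · exact absurd (h.P_inj i0 (by omega) (by omega) (by omega) s0 s1 he).symm hsh
          · exact he
        have c8 := h.ord y i0 (by omega) (by omega) (by omega) s0 s1 (by omega : i ≠ i + A.h)
          (Ne.symm hsi) (Ne.symm hsh) hP'
        have c9 := h.cd_add y c8.le
        have c10 := h.cd_rb y (s := i + A.h) (s' := s) (by omega) (by omega) s0 s1 (Ne.symm hsh)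
          (by omega)
        rw [A.kaph (s := i + A.h) (by omega), add_sub_cancel_right] at c10
        rcases b8 with h | h <;> rw [h] at b6 <;> omega

/-- contribution of a label in `[w, h)` -/
theorem term2 (h : VR A T) (y : ℤ) {s i : ℤ} (s0 : 0 ≤ s) (s1 : s < A.nn) (i0 : A.w ≤ i)
    (i1 : i < A.h) :
    ph A.NN ((A.cfg 0).U (y + i)) (A.cfg 0).W (A.cs y s + 1) = if s = i then 1 else 0 := by
  obtain ⟨hn, b1, b2, b3, b4, b5, b6, b7, b8⟩ := h.basic
  have hN := A.NN_pos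
  have q6 := A.q6
  have p5 := A.p5
  have w1 := A.W1_bd
  have ki : A.kap i = 0 := A.kap0 (by omega)
  by_cases hsi : s = i
  · rw [if_pos hsi]
    apply ph_of_lt
    unfold cs
    rw [hsi, ki, mul_zero, add_zero, add_sub_cancel_left, Int.emod_eq_of_lt (by norm_num) (by omega)]
    rcases b8 with h | h <;> rw [h] at b6 <;> omega
  · rw [if_neg hsi]
    have c3 := A.cd_cong y i s
    have c5 := h.cd_symm y (by omega) (by omega) s0 s1 (Ne.symm hsi)
    have c6 := h.cd2 y s0 s1 (by omega) (by omega) hsi (Or.inl (by omega))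
    have c8 := h.cd_rb y (s := i) (s' := s) (by omega) (by omega) s0 s1 (Ne.symm hsi) i0
    rw [ki, mul_zero, sub_zero] at c8
    apply ph_of_le
    have : A.cs y i = (A.cfg 0).U (y + i) := by unfold cs; rw [ki]; simp
    rw [this] at c3
    rw [emod_congr (b := A.cd y i s + 1), Int.emod_eq_of_lt (by omega) (by omega)]
    · rcases b8 with h | h <;> rw [h] at b6 <;> omega
    · have := (dvd_neg).2 c3
      rwa [show -(A.cd y i s - (A.cs y s - (A.cfg 0).U (y + i)))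
        = A.cs y s + 1 - (A.cfg 0).U (y + i) - (A.cd y i s + 1) by ring] at this

/-- `g` on the crossing of a rectangle does not depend on the level -/
theorem Gam_eq (h : VR A T) (y : ℤ) {s : ℤ} (s0 : 0 ≤ s) (s1 : s < A.nn) :
    (A.cfg 0).g y (A.cs y s + 1) = A.Gam s := by
  obtain ⟨hn, b1, b2, b3, b4, b5, b6, b7, b8⟩ := h.basic
  obtain ⟨d, hd⟩ := Nat.exists_eq_add_of_le (show A.w ≤ A.h by omega)
  have key : ∀ y : ℤ, (A.cfg 0).g y (A.cs y s + 1)
      = ∑ i ∈ range A.w, (if s = (i : ℤ) ∨ s = i + A.h ∨ A.P i s < A.P i (i + A.h) then (1 : ℤ)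
          else 0)
        + ∑ i ∈ range d, (if s = (A.w : ℤ) + i then (1 : ℤ) else 0) := by
    intro y
    have e1 : (A.cfg 0).g y (A.cs y s + 1)
      = ∑ i ∈ range A.w, ph A.NN ((A.cfg 0).U (y + i)) ((A.cfg 0).ell (y + i)) (A.cs y s + 1)
        + ∑ i ∈ range A.h, ph A.NN ((A.cfg 0).U (y + A.w + i)) (A.cfg 0).W (A.cs y s + 1) := rfl
    have e2 : ∑ i ∈ range A.h, ph A.NN ((A.cfg 0).U (y + A.w + i)) (A.cfg 0).W (A.cs y s + 1)
        = ∑ i ∈ range d, ph A.NN ((A.cfg 0).U (y + A.w + i)) (A.cfg 0).W (A.cs y s + 1)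
          + ∑ i ∈ range A.w, ph A.NN ((A.cfg 0).U (y + i + A.h)) (A.cfg 0).W (A.cs y s + 1) := by
      rw [show range A.h = range (d + A.w) by rw [hd, add_comm], Finset.sum_range_add]
      congr 1
      refine Finset.sum_congr rfl fun i _ => ?_
      congr 2
      rw [hd]; push_cast; ring
    rw [e1, e2, add_left_comm, ← Finset.sum_add_distrib, add_comm]
    congr 1
    · refine Finset.sum_congr rfl fun i hi => ?_
      exact h.term1 y s0 s1 (by omega) (by have := Finset.mem_range.1 hi; omega)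
    · refine Finset.sum_congr rfl fun i hi => ?_
      have := Finset.mem_range.1 hi
      rw [add_assoc]
      exact h.term2 y s0 s1 (by omega) (by omega)
  unfold Gam
  rw [key y, key 0]

/-- the walls between two neighbours -/
theorem gstep (h : VR A T) {s s' : ℤ} (a : A.Nx s s') (y : ℤ) {τ : ℤ} (h2 : 2 ≤ τ)
    (hT : τ ≤ A.cd y s s' + 1) :
    (A.cfg 0).g y (A.cs y s + τ) = (A.cfg 0).g y (A.cs y s + τ - 1)
      + (if τ = A.cd y s s' ∧ s' < A.h then 1 else 0)
      - (if τ = (A.cfg 0).W - A.q * A.kap s ∧ (A.w : ℤ) ≤ s then 1 else 0) := by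
  obtain ⟨hn, b1, b2, b3, b4, b5, b6, b7, b8⟩ := h.basic
  have hN := A.NN_pos
  have w := A.W1_bd
  have q6 := A.q6
  have p5 := A.p5
  have hlt := fun j j0 j1 hj hj' => h.Nx_lt a y (j := j) j0 j1 hj hj'
  have hle := fun j j0 j1 hj => h.Nx_le a y (j := j) j0 j1 hj
  obtain ⟨a1, a2, a3, a4, a5, a6⟩ := a
  have ks := qk A a2
  have e1 := h.cd_pos y a1 a2 a3 a4 (Ne.symm a5)
  have e1' := A.cd_lt y s s'
  have e2 := h.cd_symm y a1 a2 a3 a4 (Ne.symm a5)
  have cT := A.cd_cong y s s'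
  have csi : ∀ i : ℕ, i < A.h → (A.cfg 0).U (y + i) = A.cs y i := by
    intro i hi
    unfold cs; rw [A.kap0 (s := (i : ℤ)) (by omega)]; simp
  have j := (A.cfg 0).g_jump y (A.cs y s + τ)
  have f1 : ∑ i ∈ range (A.cfg 0).h, dv (A.cfg 0).N (A.cs y s + τ - (A.cfg 0).U (y + i))
      = if τ = A.cd y s s' ∧ 0 ≤ s' ∧ s' < A.h then 1 else 0 := by
    apply sum_dv_eq
    intro i hi
    have hi' : i < A.h := hi
    change A.NN ∣ _ ↔ _
    rw [csi i hi']
    constructor
    · intro hdv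
      by_cases his : (i : ℤ) = s
      · exfalso
        rw [his, add_sub_cancel_left] at hdv
        have h3 := Int.le_of_dvd (by omega) hdv
        have := h.cd2 y a3 a4 a1 a2 a5 (Or.inl (by omega))
        omega
      · have e3 := h.cd_pos y a1 a2 (s' := i) (by omega) (by omega) (Ne.symm his)
        have e3' := A.cd_lt y s i
        have e4 : τ = A.cd y s i := by
          apply eq_of_dvd (N := A.NN) _ (by omega) (by omega)
          have := dvd_sub hdv (A.cd_cong y s i)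
          rwa [show A.cs y s + τ - A.cs y i - (A.cd y s i - (A.cs y i - A.cs y s))
            = τ - A.cd y s i by ring] at this
        by_cases his' : (i : ℤ) = s'
        · rw [his'] at e4
          exact ⟨e4, his'⟩
        · exfalso
          have h3 := hlt i (by omega) (by omega) his his'
          have h4 := h.cd_add y h3.le
          have := h.cd2 y a3 a4 (s' := i) (by omega) (by omega) (Ne.symm his') (Or.inl (by omega))
          omega
    · rintro ⟨h3, h4⟩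
      rw [h4, h3]
      rwa [show A.cs y s + A.cd y s s' - A.cs y s'
        = A.cd y s s' - (A.cs y s' - A.cs y s) by ring]
  have f2 : ∑ i ∈ range (A.cfg 0).h, dv (A.cfg 0).N (A.cs y s + τ
      - ((A.cfg 0).U (y + (A.cfg 0).w + i) + (A.cfg 0).W))
      = if τ = (A.cfg 0).W - A.q * A.kap s ∧ 0 ≤ s - A.w ∧ s - A.w < A.h then 1 else 0 := by
    apply sum_dv_eq
    intro i hi
    have hi' : i < A.h := hi
    have ew : (((A.cfg 0).w : ℕ) : ℤ) = A.w := rfl
    change A.NN ∣ _ ↔ _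
    rw [ew]
    have eU : (A.cfg 0).U (y + A.w + i) = A.cs y (A.w + i) - A.q * A.kap (A.w + i) := by
      unfold cs; rw [← add_assoc]; ring
    rw [eU]
    constructor
    · intro hdv
      by_cases his : (A.w : ℤ) + i = s
      · rw [his, show A.cs y s + τ - (A.cs y s - A.q * A.kap s + (A.cfg 0).W)
          = τ - ((A.cfg 0).W - A.q * A.kap s) by ring] at hdv
        have := eq_of_dvd hdv (by rcases b8 with h | h <;> rw [h] at b6 <;> omega)
          (by rcases b8 with h | h <;> rw [h] at b6 <;> omega)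
        exact ⟨this, by omega⟩
      · exfalso
        have ki := qk A (s := (A.w : ℤ) + i) (by omega)
        have e4 := h.cd_rb y (s := (A.w : ℤ) + i) (s' := s) (by omega) (by omega) a1 a2 his
          (by omega)
        have e5 := h.cd_symm y (s := (A.w : ℤ) + i) (s' := s) (by omega) (by omega) a1 a2 his
        have e6 := hle (A.w + i) (by omega) (by omega) his
        have e7 := dvd_add hdv (A.cd_cong y (A.w + i) s)
        rw [show A.cs y s + τ - (A.cs y (A.w + i) - A.q * A.kap (A.w + i) + (A.cfg 0).W)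
          + (A.cd y (A.w + i) s - (A.cs y s - A.cs y (A.w + i)))
          = A.cd y (A.w + i) s + A.q * A.kap (A.w + i) - (A.cfg 0).W + τ by ring] at e7
        have := Int.le_of_dvd (by rcases b8 with h | h <;> rw [h] at b6 <;> omega) e7
        rcases b8 with h | h <;> rw [h] at b6 <;> omega
    · rintro ⟨h3, h4⟩
      rw [show (A.w : ℤ) + i = s by omega, h3,
        show A.cs y s + ((A.cfg 0).W - A.q * A.kap s) - (A.cs y s - A.q * A.kap s + (A.cfg 0).W)
          = 0 by ring]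
      exact dvd_zero _
  rw [f1, f2] at j
  have g1 : (if τ = A.cd y s s' ∧ 0 ≤ s' ∧ s' < (A.h : ℤ) then (1 : ℤ) else 0)
      = if τ = A.cd y s s' ∧ s' < A.h then 1 else 0 := by
    congr 1; rw [eq_iff_iff]; constructor
    · rintro ⟨h1, h2, h3⟩; exact ⟨h1, h3⟩
    · rintro ⟨h1, h2⟩; exact ⟨h1, a3, h2⟩
  have g2 : (if τ = (A.cfg 0).W - A.q * A.kap s ∧ 0 ≤ s - (A.w : ℤ) ∧ s - A.w < (A.h : ℤ)
      then (1 : ℤ) else 0)
      = if τ = (A.cfg 0).W - A.q * A.kap s ∧ (A.w : ℤ) ≤ s then 1 else 0 := by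
    congr 1; rw [eq_iff_iff]; constructor
    · rintro ⟨h1, h2, h3⟩; exact ⟨h1, by omega⟩
    · rintro ⟨h1, h2⟩; exact ⟨h1, by omega, by omega⟩
  rw [g1, g2] at j
  omega

/-- `g` between two neighbours -/
theorem gval (h : VR A T) {s s' : ℤ} (a : A.Nx s s') (y : ℤ) {τ : ℤ} (h1 : 1 ≤ τ)
    (hT : τ ≤ A.cd y s s' + 1) :
    (A.cfg 0).g y (A.cs y s + τ) = A.Gam s
      + (if A.cd y s s' ≤ τ ∧ s' < A.h then 1 else 0)
      - (if (A.cfg 0).W - A.q * A.kap s ≤ τ ∧ (A.w : ℤ) ≤ s then 1 else 0) := by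
  obtain ⟨hn, b1, b2, b3, b4, b5, b6, b7, b8⟩ := h.basic
  have w := A.W1_bd
  have q6 := A.q6
  have ks := qk A a.2.1
  have hlast : s' < A.h → 3 ≤ A.cd y s s' := fun hh =>
    h.cd2 y a.1 a.2.1 a.2.2.1 a.2.2.2.1 (Ne.symm a.2.2.2.2.1) (Or.inl hh.le)
  have key : ∀ m : ℕ, 1 + (m : ℤ) ≤ A.cd y s s' + 1 →
      (A.cfg 0).g y (A.cs y s + (1 + m)) = A.Gam s
      + (if A.cd y s s' ≤ 1 + m ∧ s' < A.h then 1 else 0)
      - (if (A.cfg 0).W - A.q * A.kap s ≤ 1 + m ∧ (A.w : ℤ) ≤ s then 1 else 0) := by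
    intro m
    induction m with
    | zero =>
      intro _
      rw [Nat.cast_zero, add_zero, h.Gam_eq y a.1 a.2.1, if_neg (by
        rintro ⟨h3, h4⟩
        have := hlast h4
        omega), if_neg (by omega)]
      ring
    | succ m ih =>
      intro hm
      push_cast at hm ⊢
      have i1 := ih (by omega)
      have i2 := h.gstep a y (τ := 1 + (m + 1)) (by omega) (by omega)
      rw [show A.cs y s + (1 + ((m : ℤ) + 1)) - 1 = A.cs y s + (1 + m) by ring, i1] at i2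
      rw [i2]
      have s1 : (if A.cd y s s' ≤ 1 + (m : ℤ) ∧ s' < (A.h : ℤ) then (1 : ℤ) else 0)
          + (if 1 + ((m : ℤ) + 1) = A.cd y s s' ∧ s' < (A.h : ℤ) then 1 else 0)
          = if A.cd y s s' ≤ 1 + ((m : ℤ) + 1) ∧ s' < (A.h : ℤ) then 1 else 0 := by
        by_cases c1 : s' < (A.h : ℤ)
        · by_cases c2 : A.cd y s s' ≤ 1 + (m : ℤ)
          · rw [if_pos ⟨c2, c1⟩, if_neg (by omega), if_pos ⟨by omega, c1⟩]; ring
          · by_cases c3 : 1 + ((m : ℤ) + 1) = A.cd y s s'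
            · rw [if_neg (by omega), if_pos ⟨c3, c1⟩, if_pos ⟨by omega, c1⟩]; ring
            · rw [if_neg (by omega), if_neg (by omega), if_neg (by omega)]; ring
        · rw [if_neg (by omega), if_neg (by omega), if_neg (by omega)]; ring
      have s2 : (if (A.cfg 0).W - A.q * A.kap s ≤ 1 + (m : ℤ) ∧ (A.w : ℤ) ≤ s then (1 : ℤ) else 0)
          + (if 1 + ((m : ℤ) + 1) = (A.cfg 0).W - A.q * A.kap s ∧ (A.w : ℤ) ≤ s then 1 else 0)
          = if (A.cfg 0).W - A.q * A.kap s ≤ 1 + ((m : ℤ) + 1) ∧ (A.w : ℤ) ≤ s then 1 else 0 := by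
        by_cases c1 : (A.w : ℤ) ≤ s
        · by_cases c2 : (A.cfg 0).W - A.q * A.kap s ≤ 1 + (m : ℤ)
          · rw [if_pos ⟨c2, c1⟩, if_neg (by omega), if_pos ⟨by omega, c1⟩]; ring
          · by_cases c3 : 1 + ((m : ℤ) + 1) = (A.cfg 0).W - A.q * A.kap s
            · rw [if_neg (by omega), if_pos ⟨c3, c1⟩, if_pos ⟨by omega, c1⟩]; ring
            · rw [if_neg (by omega), if_neg (by omega), if_neg (by omega)]; ring
        · rw [if_neg (by omega), if_neg (by omega), if_neg (by omega)]; ring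
      linear_combination s1 - s2
  have := key (τ - 1).toNat (by omega)
  rwa [Int.toNat_of_nonneg (by omega), add_sub_cancel] at this

/-- `g` on the last visible column of a rectangle which is left through its right side -/
theorem g_last (h : VR A T) (y : ℤ) {s : ℤ} (s0 : A.w ≤ s) (s1 : s < A.nn) :
    (A.cfg 0).g y ((A.cfg 0).U (y + s) + (A.W1 - A.k0)) = A.Gam s := by
  obtain ⟨hn, b1, b2, b3, b4, b5, b6, b7, b8⟩ := h.basic
  obtain ⟨s', a⟩ := h.exists_next (s := s) (by omega) s1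
  have w := A.W1_bd
  have q6 := A.q6
  have hk := k0_bd A
  have ks := qk A s1
  have e1 := h.cd_rb y (s := s) (s' := s') (by omega) s1 a.2.2.1 a.2.2.2.1
    (Ne.symm a.2.2.2.2.1) s0
  have h1 := h.gval a y (τ := A.W1 - A.q * A.kap s - A.k0)
    (by rcases b8 with h | h <;> rw [h] at b6 <;> omega) (by omega)
  rw [if_neg (by omega), if_neg (by omega)] at h1
  unfold cs at h1
  rw [show (A.cfg 0).U (y + s) + A.q * A.kap s + (A.W1 - A.q * A.kap s - A.k0)
    = (A.cfg 0).U (y + s) + (A.W1 - A.k0) by ring] at h1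
  rw [h1]; ring

/-- `g` in the gap before the next left wall -/
theorem g_gap (h : VR A T) (y : ℤ) {s s' : ℤ} (a : A.Nx s s') (hs : A.w ≤ s) (hs' : s' < A.h)
    (hg : A.W1 - A.q * A.kap s + A.p ≤ A.cd y s s') :
    (A.cfg 0).g y ((A.cfg 0).U (y + s') - A.k0) = A.Gam s - 1 := by
  obtain ⟨hn, b1, b2, b3, b4, b5, b6, b7, b8⟩ := h.basic
  have w := A.W1_bd
  have q6 := A.q6
  have p5 := A.p5
  have hk := k0_bd A
  have ks := qk A a.2.1
  have e1 := h.cd_pos y a.1 a.2.1 a.2.2.1 a.2.2.2.1 (Ne.symm a.2.2.2.2.1)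
  have h1 := h.gval a y (τ := A.cd y s s' - A.k0)
    (by rcases b8 with h | h <;> rw [h] at b6 <;> omega) (by omega)
  rw [if_neg (by omega), if_pos ⟨by omega, hs⟩] at h1
  have e2 : (A.cfg 0).g y ((A.cfg 0).U (y + s') - A.k0)
      = (A.cfg 0).g y (A.cs y s + (A.cd y s s' - A.k0)) := by
    apply (A.cfg 0).g_congr (by simp)
    have := (dvd_neg).2 (A.cd_cong y s s')
    have e3 : A.cs y s' = (A.cfg 0).U (y + s') := by
      unfold cs; rw [A.kap0 (s := s') (by omega)]; simp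
    rw [e3] at this
    change A.NN ∣ _
    rwa [show (A.cfg 0).U (y + s') - A.k0 - (A.cs y s + (A.cd y s s' - A.k0))
      = -(A.cd y s s' - ((A.cfg 0).U (y + s') - A.cs y s)) by ring]
  rw [e2, h1]; ring

/-- change of `Gam` to the next rectangle -/
theorem Gam_next (h : VR A T) {s s' : ℤ} (a : A.Nx s s') :
    A.Gam s' = A.Gam s + (if s' < A.h then 1 else 0) - (if (A.w : ℤ) ≤ s then 1 else 0) := by
  obtain ⟨hn, b1, b2, b3, b4, b5, b6, b7, b8⟩ := h.basic
  have w := A.W1_bd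
  have q6 := A.q6
  have e1 := h.cd_pos 0 a.1 a.2.1 a.2.2.1 a.2.2.2.1 (Ne.symm a.2.2.2.2.1)
  have h1 := h.gval a 0 (τ := A.cd 0 s s' + 1) (by omega) le_rfl
  have h2 := h.Gam_eq 0 a.2.2.1 a.2.2.2.1
  have e2 : (A.cfg 0).g 0 (A.cs 0 s' + 1)
      = (A.cfg 0).g 0 (A.cs 0 s + (A.cd 0 s s' + 1)) := by
    apply (A.cfg 0).g_congr (by simp)
    have := (dvd_neg).2 (A.cd_cong 0 s s')
    change A.NN ∣ _
    rwa [show A.cs 0 s' + 1 - (A.cs 0 s + (A.cd 0 s s' + 1))
      = -(A.cd 0 s s' - (A.cs 0 s' - A.cs 0 s)) by ring]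
  rw [← h2, e2, h1]
  congr 1
  · congr 1
    by_cases hc : s' < (A.h : ℤ)
    · rw [if_pos hc, if_pos ⟨by omega, hc⟩]
    · rw [if_neg hc, if_neg (by omega)]
  · by_cases hc : (A.w : ℤ) ≤ s
    · have e3 := h.cd_rb 0 a.1 a.2.1 a.2.2.1 a.2.2.2.1 (Ne.symm a.2.2.2.2.1) hc
      rw [if_pos hc, if_pos ⟨by rcases b8 with h | h <;> rw [h] at b6 <;> omega, hc⟩]
    · rw [if_neg hc, if_neg (by omega)]

theorem Gam_chain (h : VR A T) {s : ℤ} (h0 : T.sig ≤ s) (h1 : s < A.nn) :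
    A.Gam (s - T.sig) = A.Gam s := by
  have := h.Gam_next (h.Nx_sig h0 h1)
  have s2 := h.sig_gt
  obtain ⟨hn, b1, b2, b3, b4, b5, b6, b7, b8⟩ := h.basic
  rw [if_pos (by omega), if_pos (by omega)] at this
  omega

/-- the gap after a neighbour which is not the tied one -/
theorem Nx_gap (h : VR A T) {s s' : ℤ} (y : ℤ) (a : A.Nx s s') (hw : A.w ≤ s) (hs : s < T.sig)
    (hs' : s' < A.h) : A.W1 + A.p ≤ A.cd y s s' := by
  obtain ⟨hn, b1, b2, b3, b4, b5, b6, b7, b8⟩ := h.basic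
  have hD := A.D_pos
  obtain ⟨a1, a2, a3, a4, a5, a6⟩ := a
  have h1 := h.P_rb a1 a2 a3 a4 (Ne.symm a5) hw
  rw [A.kap0 (s := s) (by omega), mul_zero, sub_zero] at h1
  have pP : (A.p : ℤ) ∣ A.P s s' := by
    have h3 := A.p_NN.trans (A.P_cong s s')
    rw [A.kap0 (s := s) (by omega), A.kap0 (s := s') (by omega), sub_zero, mul_zero,
      add_zero] at h3
    have := dvd_add h3 (A.Q_dvd (s' - s))
    rwa [sub_add_cancel] at this
  have h2 : A.D + A.W1 + A.p ≤ A.P s s' := by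
    by_contra hc
    have h3 : A.P s s' ≤ A.D + A.W1 :=
      dvd_gap pP (dvd_add A.p_D A.p_W1) (by omega)
    have h4 : A.P s s' = A.D + A.W1 := by omega
    have c1 := A.q_NN.trans (A.P_cong' s s')
    rw [A.kap0 (s := s) (by omega), A.kap0 (s := s') (by omega), sub_zero, mul_zero,
      sub_zero, h4] at c1
    have c2 : (A.q : ℤ) ∣ _ := A.q_NN.trans (dvd_sub A.D_cong h.at_cong)
    have c3 := dvd_add c1 c2
    have i0 := A.ix_nonneg (s' - s); have i1 := A.ix_lt (s' - s)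
    have t0 := T.t0; have tp := T.tp
    have h5 : A.ix (s' - s) = A.p - T.t := by
      by_contra hc2
      apply A.q_ne (i := A.p - T.t - A.ix (s' - s)) (c := 0) (by omega) (by omega) (by omega)
      rwa [mul_zero, add_zero, show A.a * (A.p - T.t - A.ix (s' - s))
        = A.D + A.W1 - A.a * A.ix (s' - s) + (A.a * A.p - A.D - (A.a * T.t + A.W1)) by ring]
    rw [← h.ix_nsig] at h5
    have h6 := ix_inj h5
    rw [show s' - s - -T.sig = s' - s + T.sig by ring] at h6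
    have := Int.le_of_dvd (by omega) h6
    omega
  rcases h.cd_or y a1 a2 a3 a4 (Ne.symm a5) with h3 | h3 <;> omega

end VR

end TAp

end Pool.Agent.H78.Tie
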