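import Pool.Agent.H98.Tie.VLev

/-!
# Region `x < 0`, `w + |x| ≤ h`, `ep = -1` : levels which are not two-valued
-/

namespace Pool.Agent.H78.Tie

open Finset
open Pool.Agent.H98.Flat
open Pool.Agent.H67.Flat

set_option linter.dupNamespace false
set_option linter.unusedVariables false

/-- interior columns are covered at most once -/
theorem SC.R_int {C : Cfg} {sg : ℤ} (S : SC C sg) {k u v : ℤ} (h0 : C.hor k (u - 1) = 1)
    (h1 : C.hor k u = 1) (h2 : C.hor k (u + 1) = 1) (hv : C.ver k v = 1) : C.R u v ≤ 1 := by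
  apply R_le_of (a := k)
  intro j hj
  by_contra hc
  obtain ⟨z1, z2, z3, z4⟩ := S.size
  have hq : (3 : ℤ) ≤ C.q := by exact_mod_cast S.q3
  have hj1 := hj.1
  rw [show u = u - 1 + 1 by ring] at hj1
  rcases ph_pred C.N_pos C.W_pos.le C.W_lt.le hj1 with h6 | h6
  · exact S.two hc h6 (by rw [sub_add_cancel]; exact hj.1) h0
      (by rw [sub_add_cancel]; exact h1) hj.2 hv
  · have h7 : C.hor j (u + 1) = 1 := by
      apply S.hor_of (t := 1) _ (by omega) (by omega)
      rwa [show u + 1 - (C.U j + 1) = u - 1 + 1 - C.U j by ring]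
    exact S.two hc hj.1 h7 h1 h2 hj.2 hv

namespace TAp

variable {A : TAp}

/-- consequences of a level with three values of `g` -/
structure NT (A : TAp) (T : A.Tie) (M : ℤ) : Prop where
  h : VR A T
  high : ∀ r, (A.w : ℤ) ≤ r → r < T.sig → A.Gam r = M
  low : ∀ r, 0 ≤ r → r < (A.w : ℤ) → A.Gam r = M - 1
  emp : ∀ δ : ℤ, 0 < δ → δ < A.p → (A.cfg 0).W ≤ (A.a * δ - A.k0) % A.NN
  dvd : T.sig ∣ (A.h : ℤ)

namespace VR

variable {T : A.Tie}

theorem Gam_mod (h : VR A T) {s : ℤ} (s0 : 0 ≤ s) (s1 : s < A.nn) :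
    A.Gam (s % T.sig) = A.Gam s := by
  obtain ⟨hn, b1, b2, b3, b4, b5, b6, b7, b8⟩ := h.basic
  have hs : 0 < T.sig := by omega
  have key : ∀ i : ℕ, ∀ r : ℤ, 0 ≤ r → r + T.sig * i < A.nn → A.Gam r = A.Gam (r + T.sig * i) := by
    intro i
    induction i with
    | zero => intro r _ _; simp
    | succ i ih =>
      intro r r0 r1
      push_cast at r1 ⊢
      have h1 : 0 ≤ T.sig * (i : ℤ) := by positivity
      rw [mul_add, mul_one] at r1 ⊢
      rw [ih r r0 (by omega)]
      have h2 := h.Gam_chain (s := r + (T.sig * i + T.sig)) (by omega) r1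
      rw [← h2]
      congr 1; ring
  have e := Int.emod_add_mul_ediv s T.sig
  have e0 := Int.emod_nonneg s hs.ne'
  have e1 : 0 ≤ s / T.sig := Int.ediv_nonneg s0 hs.le
  have := key (s / T.sig).toNat (s % T.sig) e0 (by rw [Int.toNat_of_nonneg e1, e]; exact s1)
  rwa [Int.toNat_of_nonneg e1, e] at this

theorem hor_last (h : VR A T) (k : ℤ) : (A.cfg 0).hor k ((A.cfg 0).U k + (A.W1 - A.k0)) = 1 := by
  obtain ⟨hn, b1, b2, b3, b4, b5, b6, b7, b8⟩ := h.basic
  have w := A.W1_bd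
  have q6 := A.q6
  have hk := k0_bd A
  exact (T.sc h.nov).hor_of (t := A.W1 - A.k0) (by simp) (by omega) (by omega)

theorem vis_last (h : VR A T) (k : ℤ) : (A.p : ℤ) ∣ (A.cfg 0).U k + (A.W1 - A.k0) + A.k0 := by
  rw [show (A.cfg 0).U k + (A.W1 - A.k0) + A.k0 = (A.cfg 0).U k + A.W1 by ring]
  exact dvd_add (A.U_dvd 0 k) A.p_W1

theorem vis_gap (h : VR A T) (k : ℤ) : (A.p : ℤ) ∣ (A.cfg 0).U k - A.k0 + A.k0 := by
  rw [sub_add_cancel]; exact A.U_dvd 0 k

theorem vis_n1 (h : VR A T) {u : ℤ} (hu : (A.p : ℤ) ∣ u + A.k0) :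
    A.sg = -1 → ¬ ((A.cfg 0).p : ℤ) ∣ u := by
  intro hs hc
  have h1 := dvd_sub hu hc
  rw [add_sub_cancel_left] at h1
  have hk := k0_bd A
  have := Int.le_of_dvd (by omega) h1
  have := A.p5
  omega

/-- an empty column -/
theorem empty (h : VR A T) {M sM y u0 : ℤ} (hM0 : A.w ≤ sM) (hM1 : sM < A.nn)
    (hM : A.Gam sM = M) (hu : (A.p : ℤ) ∣ u0 + A.k0) (hg : (A.cfg 0).g y u0 + 2 ≤ M) (j : ℤ) :
    (A.cfg 0).hor j u0 = 0 := by
  obtain ⟨hn, b1, b2, b3, b4, b5, b6, b7, b8⟩ := h.basic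
  have h1 := h.g_last y hM0 hM1
  have h2 := h.vis_last (y + sM)
  refine (T.sc h.nov).gapL (y := y) (u1 := (A.cfg 0).U (y + sM) + (A.W1 - A.k0)) ?_
    (h.vis_n1 h2) (fun v => h.fl.zero 0 hu v y) (fun v => h.fl.zero 0 h2 v y) (by
      rw [h1, hM]; exact hg) j
  change A.w ≤ A.h
  omega

/-- not all the columns to the left of the rectangles are empty -/
theorem not_all (h : VR A T) (he : ∀ k j, (A.cfg 0).hor j ((A.cfg 0).U k - A.k0) = 0) : False := by
  have hp := A.p5
  have hN := A.NN_pos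
  have key : ∀ k j : ℤ, (A.q : ℤ) * A.w ≤ ((A.cfg 0).U k - A.k0 - (A.cfg 0).U j)
      % ((A.p : ℤ) * A.q) := by
    intro k j
    by_contra hc
    have h3 : (A.cfg 0).hor j ((A.cfg 0).U k - A.k0) = 1 := ph_eq_one_iff.2 (not_le.1 hc)
    rw [he k j] at h3
    omega
  apply A.pig (M := A.p - 1) (by omega) (by omega)
  · intro δ d0 d1
    have h1 := key (A.e * δ) 0
    rw [A.ix_U, A.ix_U, A.ix_zero, ix_of (A := A) (i := δ) (by omega) (by omega) (by simp)] at h1
    rwa [mul_zero, sub_zero] at h1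
  · intro δ d0 d1
    have h1 := key 0 (A.e * δ)
    rw [A.ix_U, A.ix_U, A.ix_zero, ix_of (A := A) (i := δ) (by omega) (by omega) (by simp)] at h1
    rwa [mul_zero, zero_sub, show -A.k0 - A.a * δ = -(A.a * δ) - A.k0 by ring] at h1

/-- **structure of levels which are not two-valued** -/
theorem nt (h : VR A T) (hG : ∃ s, 0 ≤ s ∧ s < A.nn ∧ A.Gam s ≠ A.Gam 0) : ∃ M, NT A T M := by
  obtain ⟨hn, b1, b2, b3, b4, b5, b6, b7, b8⟩ := h.basic
  have n4 := A.nn_ge
  have q6 := A.q6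
  have p5 := A.p5
  have w1 := A.W1_bd
  have hk := k0_bd A
  have hD := A.D_ge
  have hN := A.NN_pos
  have S := T.sc h.nov
  have hne : (Finset.Ico (0 : ℤ) A.nn).Nonempty := ⟨0, by rw [Finset.mem_Ico]; omega⟩
  -- the maximum
  obtain ⟨sM, hM0, hM1, hM2⟩ : ∃ sM, (A.w : ℤ) ≤ sM ∧ sM < A.nn ∧
      ∀ s, 0 ≤ s → s < A.nn → A.Gam s ≤ A.Gam sM := by
    obtain ⟨sm, h1, h2⟩ := Finset.exists_max_image _ (fun j => A.Gam j) hne
    rw [Finset.mem_Ico] at h1
    have h3 : ∀ s, 0 ≤ s → s < A.nn → A.Gam s ≤ A.Gam sm :=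
      fun s s0 s1 => h2 s (by rw [Finset.mem_Ico]; exact ⟨s0, s1⟩)
    rcases le_or_gt (A.w : ℤ) sm with hc | hc
    · exact ⟨sm, hc, h1.2, h3⟩
    · obtain ⟨s', a⟩ := h.exists_next h1.1 h1.2
      have h4 := h.Nx_top a (by omega)
      have h5 := h.Gam_next a
      rw [if_neg (by omega : ¬ (A.w : ℤ) ≤ sm)] at h5
      refine ⟨s', by omega, a.2.2.2.1, fun s s0 s1 => ?_⟩
      have := h3 s s0 s1
      split_ifs at h5 <;> omega
  set M := A.Gam sM with hMd
  -- step 1
  have high : ∀ r, (A.w : ℤ) ≤ r → r < T.sig → A.Gam r = M := by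
    intro r r0 r1
    by_contra hc
    have h1 := hM2 r (by omega) (by omega)
    obtain ⟨s', a⟩ := h.exists_next (s := r) (by omega) (by omega)
    have h4 := h.Nx_top a r1
    have h5 := h.Gam_next a
    rw [if_pos r0] at h5
    rcases lt_or_ge s' (A.h : ℤ) with hs | hs
    · apply h.not_all
      intro k j
      have h6 := h.g_gap (k - s') a r0 hs (by
        have := h.Nx_gap (k - s') a r0 r1 hs
        rw [A.kap0 (s := r) (by omega), mul_zero, sub_zero]
        exact this)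
      rw [sub_add_cancel] at h6
      exact h.empty hM0 hM1 rfl (h.vis_gap k) (y := k - s') (by omega) j
    · rw [if_neg (by omega)] at h5
      have h6 := h.g_last 0 (s := s') (by omega) a.2.2.2.1
      have h7 := h.empty hM0 hM1 rfl (h.vis_last (0 + s')) (y := 0) (by omega) (0 + s')
      rw [h.hor_last] at h7
      omega
  -- the minimum
  obtain ⟨r0, hr0, hr1, hr2, hr3⟩ : ∃ r0, 0 ≤ r0 ∧ r0 < (A.w : ℤ) ∧ A.Gam r0 < M ∧
      ∀ s, 0 ≤ s → s < A.nn → A.Gam r0 ≤ A.Gam s := by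
    obtain ⟨sm, h1, h2⟩ := Finset.exists_min_image _ (fun j => A.Gam j) hne
    rw [Finset.mem_Ico] at h1
    have h3 : ∀ s, 0 ≤ s → s < A.nn → A.Gam sm ≤ A.Gam s :=
      fun s s0 s1 => h2 s (by rw [Finset.mem_Ico]; exact ⟨s0, s1⟩)
    have h4 := h.Gam_mod h1.1 h1.2
    have h5 := Int.emod_nonneg sm (show T.sig ≠ 0 by omega)
    have h6 := Int.emod_lt_of_pos sm (show 0 < T.sig by omega)
    have h7 : A.Gam sm < M := by
      obtain ⟨s, s0, s1, s2⟩ := hG
      have a1 := h3 s s0 s1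
      have a2 := h3 0 le_rfl (by omega)
      have a3 := hM2 s s0 s1
      have a4 := hM2 0 le_rfl (by omega)
      omega
    refine ⟨sm % T.sig, h5, ?_, by omega, fun s s0 s1 => by rw [h4]; exact h3 s s0 s1⟩
    by_contra hc
    have := high _ (not_lt.1 hc) h6
    omega
  -- the level of the gap
  have ie : A.ix (-A.e) = A.p - 1 := ix_of (A := A) (by omega) (by omega) ⟨A.e, by ring⟩
  set y := -A.e - r0 with hy
  have ey : y + r0 = -A.e := by rw [hy]; ring
  have c1 := h.Nx_sig (s := r0 + T.sig) (by omega) (by omega)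
  rw [add_sub_cancel_right] at c1
  have c2 : A.cd y (r0 + T.sig) r0 = A.D + A.W1 - A.q * A.kap (r0 + T.sig) := by
    rw [h.cd_ge]
    · have := h.P_sig (s := r0 + T.sig) (by omega) (by omega)
      rwa [add_sub_cancel_right] at this
    · rw [ey, ie]
      have := A.ix_lt (y + (r0 + T.sig))
      omega
  have c3 : A.Gam (r0 + T.sig) = A.Gam r0 := by
    have := h.Gam_chain (s := r0 + T.sig) (by omega) (by omega)
    rw [add_sub_cancel_right] at this
    exact this.symm
  have c4 := h.g_gap y c1 (by omega) (by omega) (by omega)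
  rw [c3, ey] at c4
  have c5 : ∀ j, (A.cfg 0).hor j ((A.cfg 0).U (-A.e) - A.k0) = 0 :=
    fun j => h.empty hM0 hM1 rfl (h.vis_gap _) (y := y) (by omega) j
  have fb : ∀ v, (A.cfg 0).f y v ≤ A.Gam r0 := by
    intro v
    have h1 := (abs_le.1 (h.fl.zero 0 (h.vis_gap (-A.e)) v y)).2
    have h2 : (A.cfg 0).R ((A.cfg 0).U (-A.e) - A.k0) v = 0 := by
      apply R_zero_of
      intro k hk
      have := hk.1
      rw [c5 k] at this
      omega
    unfold Fq at h1
    rw [h2, c4] at h1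
    omega
  -- the value of `f` on the rectangle at `w`
  have m0 : A.Gam r0 = M - 1 := by
    have g1 := h.g_last y (s := A.w) le_rfl (by omega)
    rw [high _ le_rfl (by omega)] at g1
    have g2 := (A.cfg 0).gid y ((A.cfg 0).U (y + A.w) + (A.W1 - A.k0)) ((A.cfg 0).q * y)
      (mul_le_mul_of_nonneg_left (by omega) (by positivity)) le_rfl
    have g3 := S.visR (v := (A.cfg 0).U (y + A.w) + (A.W1 - A.k0) + (A.cfg 0).q * y)
      (h.vis_n1 (h.vis_last (y + A.w)))
    have g4 := fb ((A.cfg 0).U (y + A.w) + (A.W1 - A.k0) + (A.cfg 0).q * y)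
    omega
  have low : ∀ r, 0 ≤ r → r < (A.w : ℤ) → A.Gam r = M - 1 := by
    intro r r0' r1
    have h1 := hr3 r r0' (by omega)
    have hq0 : 0 ≤ (A.q : ℤ) * r := mul_nonneg (by omega) r0'
    have hq1 : (A.q : ℤ) * r ≤ A.q * (A.w - 1) := mul_le_mul_of_nonneg_left (by omega) (by omega)
    rw [mul_sub, mul_one] at hq1
    have kr : A.kap r = 0 := A.kap0 (by omega)
    obtain ⟨s', a⟩ := h.exists_next (s := r) r0' (by omega)
    have hV : (A.cfg 0).V (y + r) = (A.cfg 0).U (y + r) + A.q * (y + r) := rfl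
    have hqe : (((A.cfg 0).q : ℕ) : ℤ) = A.q := rfl
    -- an interior column
    obtain ⟨τ, t0, t1, t2, t3⟩ : ∃ τ : ℤ, 1 ≤ τ ∧ A.q * r - 1 ≤ τ ∧ τ ≤ A.q * r + 1 ∧
        (A.cfg 0).g y ((A.cfg 0).U (y + r) + τ) = A.Gam r := by
      by_cases hr : r = 0
      · refine ⟨1, le_rfl, by rw [hr]; omega, by rw [hr]; omega, ?_⟩
        have := h.Gam_eq y (s := r) r0' (by omega)
        unfold cs at this
        rwa [kr, mul_zero, add_zero] at this
      · have h2 := h.P_lb r0' (by omega) a.2.2.1 a.2.2.2.1 (Ne.symm a.2.2.2.2.1) r1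
        have h3 : (A.q : ℤ) * 1 ≤ A.q * r := mul_le_mul_of_nonneg_left (by omega) (by omega)
        have h4 : A.q * r < A.cd y r s' := by
          rcases h.cd_or y r0' (by omega) a.2.2.1 a.2.2.2.1 (Ne.symm a.2.2.2.2.1) with h5 | h5 <;>
            omega
        refine ⟨A.q * r, by omega, by omega, by omega, ?_⟩
        have := h.gval a y (τ := A.q * r) (by omega) (by omega)
        unfold cs at this
        rw [kr, mul_zero, add_zero, if_neg (by omega), if_neg (by omega)] at this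
        rw [this]; ring
    have hor3 : ∀ c, -1 ≤ c → c ≤ 1 → (A.cfg 0).hor (y + r) ((A.cfg 0).U (y + r) + τ + c) = 1 := by
      intro c c0 c1
      apply S.hor_of (t := τ + c) _ (by omega) (by omega)
      rw [show (A.cfg 0).U (y + r) + τ + c - ((A.cfg 0).U (y + r) + (τ + c)) = 0 by ring]
      exact dvd_zero _
    have ver3 : (A.cfg 0).ver (y + r) ((A.cfg 0).V (y + r) - 1) = 1 := by
      have := (A.cfg 0).H_pos
      apply S.ver_of (t := (A.cfg 0).H - 1) _ (by omega) (by omega)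
      rw [show (A.cfg 0).V (y + r) - 1 - ((A.cfg 0).V (y + r) - (A.cfg 0).H
        + ((A.cfg 0).H - 1)) = 0 by ring]
      exact dvd_zero _
    have hR := S.R_int (k := y + r) (u := (A.cfg 0).U (y + r) + τ)
      (v := (A.cfg 0).V (y + r) - 1) (hor3 (-1) le_rfl (by omega))
      (by simpa using hor3 0 (by omega) (by omega)) (hor3 1 (by omega) le_rfl) ver3
    have g2 := (A.cfg 0).gid y ((A.cfg 0).U (y + r) + τ) (A.q * y + A.q * r - 1 - τ)
      (by rw [hqe, mul_sub, mul_one]; omega) (by rw [hqe]; omega)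
    rw [show (A.cfg 0).U (y + r) + τ + (A.q * y + A.q * r - 1 - τ) = (A.cfg 0).V (y + r) - 1 by
      rw [hV]; ring, t3] at g2
    have h7 : (A.cfg 0).f y ((A.cfg 0).V (y + r) - 1) + 1 ≤ (A.cfg 0).f y ((A.cfg 0).V (y + r)) := by
      apply (A.cfg 0).f_up_of S.G (i := r.toNat) (by change r.toNat < A.w; omega)
      rw [Int.toNat_of_nonneg r0']
      simp
    have h8 := fb ((A.cfg 0).V (y + r))
    omega
  refine ⟨M, h, high, low, ?_, ?_⟩
  · intro δ d0 d1
    have h1 := c5 (A.e * (A.p - 1 - δ))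
    by_contra hc
    have h3 : (A.cfg 0).hor (A.e * (A.p - 1 - δ)) ((A.cfg 0).U (-A.e) - A.k0) = 1 := by
      apply ph_eq_one_iff.2
      change ((A.cfg 0).U (-A.e) - A.k0 - (A.cfg 0).U (A.e * (A.p - 1 - δ))) % A.NN < _
      rw [A.ix_U, A.ix_U, ie, ix_of (A := A) (i := A.p - 1 - δ) (by omega) (by omega) (by simp),
        show A.a * ((A.p : ℤ) - 1) - A.k0 - A.a * (A.p - 1 - δ) = A.a * δ - A.k0 by ring]
      exact not_le.1 hc
    rw [h1] at h3
    omega
  · -- `sig ∣ h`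
    have low' : ∀ s, (A.h : ℤ) ≤ s → s < A.nn → s % T.sig < A.w := by
      intro s s0 s1
      obtain ⟨r, a⟩ := h.exists_pred (s' := s) (by omega) s1
      have h1 := h.Gam_next a
      rw [if_neg (by omega)] at h1
      have h2 : A.Gam s ≤ M - 1 := by
        by_cases hr : (A.w : ℤ) ≤ r
        · have := hM2 r a.1 a.2.1
          rw [if_pos hr] at h1
          omega
        · rw [if_neg hr, low r a.1 (by omega)] at h1
          omega
      by_contra hc
      have h3 := high _ (not_lt.1 hc) (Int.emod_lt_of_pos _ (by omega))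
      rw [h.Gam_mod (by omega) s1] at h3
      omega
    have e0 := Int.emod_nonneg (A.h : ℤ) (show T.sig ≠ 0 by omega)
    have ee := Int.emod_add_mul_ediv (A.h : ℤ) T.sig
    have l0 := low' A.h le_rfl (by omega)
    rcases e0.eq_or_lt with hc | hc
    · exact Int.dvd_of_emod_eq_zero hc.symm
    · exfalso
      have h1 := low' (A.h + (A.w - (A.h : ℤ) % T.sig)) (by omega) (by omega)
      rw [show (A.h : ℤ) + (A.w - (A.h : ℤ) % T.sig) = A.w + T.sig * ((A.h : ℤ) / T.sig) by omega,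
        Int.add_mul_emod_self_left, Int.emod_eq_of_lt (by omega) (by omega)] at h1
      omega

end VR

end TAp

end Pool.Agent.H78.Tie
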